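import Mathlib
import Pool.Agent.H932R3.LowerS

set_option autoImplicit false

/-!
# Reachable slopes, started at a real number
-/

namespace Pool.Agent.H932R6

open Polynomial Pool.Agent.H932R2 Pool.Agent.H932R3
/-- The slopes reachable from `δ ^ 2`. -/
inductive ReachR (δ : ℝ) : ℝ → Prop
  | base : ReachR δ ((δ : ℝ) ^ 2)
  | step (σ : ℝ) (ρ : ℕ) : ReachR δ σ → σ ≤ ρ → ReachR δ ((ρ : ℝ) ^ 2 / σ)

theorem ReachR.pos {δ : ℝ} (hδ : 0 < δ) {σ : ℝ} (h : ReachR δ σ) : 0 < σ := by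
  induction h with
  | base => positivity
  | step σ ρ _ h2 ih =>
    have : (0 : ℝ) < ρ := lt_of_lt_of_le ih h2
    positivity

variable {K : Type*} [Field K] [Infinite K]

theorem reachR_chain {𝓘 : Set (Ideal K[X][X])} (h𝓘 : Stable 𝓘) {δ : ℝ} {B : ℕ} (hδ : 0 < δ)
    (hK : ∀ k : ℕ, 0 < k → k ≤ B → (k : K) ≠ 0) {M : Finset (ℕ × ℕ)}
    (hMB : ∀ p ∈ M, p.2 ≤ B) {V : ℝ}
    (hM : ∀ p ∈ M, (p.1 : ℝ) + (δ : ℝ) ^ 2 * (p.2 : ℝ) ≤ V) {σ : ℝ} (hσ : ReachR δ σ) :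
    ∃ M' : Finset (ℕ × ℕ), (∀ p ∈ M', p.2 ≤ B) ∧ M'.card = M.card ∧
      (∀ p ∈ M', (δ / Real.sqrt σ) * (p.1 : ℝ) + (δ * Real.sqrt σ) * (p.2 : ℝ) ≤ V) ∧
      (RkS 𝓘 (↑M' : Set (ℕ × ℕ)) M'.card → RkS 𝓘 (↑M : Set (ℕ × ℕ)) M.card) := by
  induction hσ with
  | base =>
    refine ⟨M, hMB, rfl, fun p hp => ?_, fun h => h⟩
    have hδ' : (0 : ℝ) < δ := by exact_mod_cast hδ
    rw [Real.sqrt_sq hδ'.le, div_self hδ'.ne', one_mul]
    have := hM p hp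
    rwa [pow_two] at this
  | step σ ρ hσ hρ ih =>
    obtain ⟨M', h1, h2, h3, h4⟩ := ih
    have hσ0 : 0 < σ := hσ.pos hδ
    have hρ0 : (0 : ℝ) < ρ := lt_of_lt_of_le hσ0 hρ
    have hρ1 : 0 < ρ := by exact_mod_cast hρ0
    have hs0 : 0 < Real.sqrt σ := Real.sqrt_pos.2 hσ0
    have hδ' : (0 : ℝ) < δ := by exact_mod_cast hδ
    have hss : Real.sqrt σ * Real.sqrt σ = σ := Real.mul_self_sqrt hσ0.le
    refine ⟨cY ρ M', ?_, (card_cY ρ M').trans h2, ?_, fun h => h4 ?_⟩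
    · rintro ⟨i, q⟩ hp
      exact row_le_of_mem_cY h1 hp
    · have h5 := cY_bound hρ1 (α := δ / Real.sqrt σ) (β := δ * Real.sqrt σ) ?_ h3
      · intro p hp
        have h6 := h5 p hp
        have h7 : Real.sqrt ((ρ : ℝ) ^ 2 / σ) = ρ / Real.sqrt σ := by
          rw [Real.sqrt_div (by positivity), Real.sqrt_sq hρ0.le]
        rw [h7]
        have h8 : (δ : ℝ) / (ρ / Real.sqrt σ) = δ * Real.sqrt σ / ρ := by
          field_simp
        have h9 : (δ : ℝ) * (ρ / Real.sqrt σ) = ρ * (δ / Real.sqrt σ) := by ring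
        rw [h8, h9]
        exact h6
      · rw [mul_div_assoc', le_div_iff₀ hs0, mul_assoc, hss, mul_comm (ρ : ℝ)]
        exact mul_le_mul_of_nonneg_left hρ hδ'.le
    · rw [card_cY] at h
      exact RkS.compressY h𝓘 ρ B hK (domY_cY h1) h

/-- Lower bound along the reachable slopes. -/
theorem reachR_lower {K : Type*} [Field K] [Infinite K]
    {𝓘 : Set (Ideal K[X][X])} (h𝓘 : Stable 𝓘) {δ : ℝ} {B : ℕ} (hδ : 0 < δ)
    (hK : ∀ k : ℕ, 0 < k → k ≤ B → (k : K) ≠ 0) {M : Finset (ℕ × ℕ)}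
    (hMB : ∀ p ∈ M, p.2 ≤ B) {V : ℝ} {n : ℕ}
    (hM : ∀ p : ℕ × ℕ, (p.1 : ℝ) + (δ : ℝ) ^ 2 * (p.2 : ℝ) ≤ V → p ∈ M) {σ : ℝ}
    (hσ : ReachR δ σ) :
    ∃ M' : Finset (ℕ × ℕ), (∀ p ∈ M', p.2 ≤ B) ∧
      (∀ p : ℕ × ℕ, (δ / Real.sqrt σ) * (p.1 : ℝ) + (δ * Real.sqrt σ) * (p.2 : ℝ) ≤
        V - δ * (Real.sqrt σ - δ) → p ∈ M') ∧
      (RkS 𝓘 (↑M' : Set (ℕ × ℕ)) n → RkS 𝓘 (↑M : Set (ℕ × ℕ)) n) := by
  induction hσ with
  | base =>
    refine ⟨M, hMB, fun p hp => ?_, fun h => h⟩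
    have hδ' : (0 : ℝ) < δ := by exact_mod_cast hδ
    rw [Real.sqrt_sq hδ'.le, div_self hδ'.ne', one_mul, sub_self, mul_zero, sub_zero] at hp
    refine hM p ?_
    rwa [pow_two]
  | step σ ρ hσ hρ ih =>
    obtain ⟨M', h1, h3, h4⟩ := ih
    have hσ0 : 0 < σ := hσ.pos hδ
    have hρ0 : (0 : ℝ) < ρ := lt_of_lt_of_le hσ0 hρ
    have hρ1 : 0 < ρ := by exact_mod_cast hρ0
    have hs0 : 0 < Real.sqrt σ := Real.sqrt_pos.2 hσ0
    have hδ' : (0 : ℝ) < δ := by exact_mod_cast hδ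
    have hss : Real.sqrt σ * Real.sqrt σ = σ := Real.mul_self_sqrt hσ0.le
    refine ⟨cY ρ M', ?_, ?_, fun h => h4 ?_⟩
    · rintro ⟨i, q⟩ hp
      exact row_le_of_mem_cY h1 hp
    · intro p hp
      refine cY_lower hρ1 (α := δ / Real.sqrt σ) (β := δ * Real.sqrt σ) ?_ h3 p ?_
      · rw [mul_div_assoc', le_div_iff₀ hs0, mul_assoc, hss, mul_comm (ρ : ℝ)]
        exact mul_le_mul_of_nonneg_left hρ hδ'.le
      · have h7 : Real.sqrt ((ρ : ℝ) ^ 2 / σ) = ρ / Real.sqrt σ := by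
          rw [Real.sqrt_div (by positivity), Real.sqrt_sq hρ0.le]
        rw [h7] at hp
        have h8 : (δ : ℝ) / (ρ / Real.sqrt σ) = δ * Real.sqrt σ / ρ := by
          field_simp
        have h9 : (δ : ℝ) * (ρ / Real.sqrt σ) = ρ * (δ / Real.sqrt σ) := by ring
        rw [h8, h9] at hp
        refine hp.trans ?_
        have h10 : δ * Real.sqrt σ / ρ ≤ δ / Real.sqrt σ := by
          rw [div_le_div_iff₀ hρ0 hs0, mul_assoc, hss]
          exact mul_le_mul_of_nonneg_left hρ hδ'.le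
        have h11 : δ * (ρ / Real.sqrt σ - δ) = δ * (Real.sqrt σ - δ) +
            (δ / Real.sqrt σ - δ * Real.sqrt σ / ρ) * ρ := by
          have e1 : (δ / Real.sqrt σ - δ * Real.sqrt σ / ρ) * ρ =
              δ * (ρ / Real.sqrt σ) - δ * Real.sqrt σ := by
            field_simp
          rw [e1]
          ring
        rw [h11]
        nlinarith
    · exact RkS.compressY h𝓘 ρ B hK (domY_cY h1) h


end Pool.Agent.H932R6
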