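import Mathlib
import Pool.Agent.H932R6.WalkR

set_option autoImplicit false

/-!
# Gadgets with prescribed shifts
-/

namespace Pool.Agent.H932R6

open Pool.Agent.H932R3 Pool.Agent.H932R4

/-- Gadgets of both signs. -/
theorem RS.gadL {δ : ℝ} {r P : ℕ} (hδ : 0 < δ) (hP : 15 ≤ P) (hsm : Small r P) {M : List ℕ}
    (hM : Adm M) :
    (∀ p y q : ℕ, ∀ T : ℝ, P ≤ p → p % 4 = r % 4 → q % 4 = r % 4 → p + 3 ≤ y →
      y % 4 = (r + 3) % 4 → y + (4 + M.sum) + 7 ≤ q → q ≤ r →
      |T| + (M.length + 1) * Gk 0 P ≤ 1 / (32 * (r : ℝ)) → RS δ r p T →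
        RS δ r q (T - Gd M y)) ∧
    (∀ p y q : ℕ, ∀ T : ℝ, P ≤ p → p % 4 = r % 4 → q % 4 = r % 4 → p + 1 ≤ y →
      y % 4 = (r + 1) % 4 → y + (4 + M.sum) + 7 ≤ q → q ≤ r →
      |T| + (M.length + 1) * Gk 0 P ≤ 1 / (32 * (r : ℝ)) → RS δ r p T →
        RS δ r q (T + Gd M y)) := by
  have hPR : (0 : ℝ) < P := by exact_mod_cast (show 0 < P by omega)
  have hG : ∀ (M : List ℕ), Adm M → ∀ (y : ℕ), P ≤ y → |Gd M (y : ℝ)| ≤ Gk 0 P := by
    intro M hM y hy
    have hy0 : (0 : ℝ) < y := by exact_mod_cast (show 0 < y by omega)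
    rw [abs_of_pos (Gd_pos hM hM.prod_pos hy0)]
    refine (Gd_le_zero hM hy0).trans ?_
    rcases Nat.eq_or_lt_of_le hy with h | h
    · rw [h]
    · have h1 : (y : ℝ) = P + (y - P : ℝ) := by ring
      rw [h1]
      refine Gk_anti 0 hPR ?_
      have : (P : ℝ) < y := by exact_mod_cast h
      linarith
  induction M with
  | nil =>
    obtain ⟨hA, hB⟩ := RS.gad hδ hP hsm (r := r) 0
    have h7 : shS 0 = 4 := rfl
    rw [h7] at hA hB
    constructor
    · intro p y q T hp hmp hmq hpy hy hyq hq hT h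
      rw [List.sum_nil] at hyq
      rw [List.length_nil] at hT
      exact hA p y q T hp hmp hmq hpy hy (by omega) hq hT h
    · intro p y q T hp hmp hmq hpy hy hyq hq hT h
      rw [List.sum_nil] at hyq
      rw [List.length_nil] at hT
      exact hB p y q T hp hmp hmq hpy hy (by omega) hq hT h
  | cons s M ih =>
    obtain ⟨hs2, hs1, hM'⟩ := hM
    have ih' := ih hM'
    have hG0 : 0 < Gk 0 P := Gk_pos 0 hPR
    constructor
    · intro p y q T hp hmp hmq hpy hy hyq hq hT h
      rw [List.sum_cons] at hyq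
      rw [List.length_cons] at hT
      push_cast at hT
      have hT1 : |T| + (M.length + 1) * Gk 0 P ≤ 1 / (32 * (r : ℝ)) := by
        linarith
      have h1 := ih'.1 p y (y + s - 1) T hp hmp (by omega) hpy hy (by omega) (by omega) hT1 h
      have hT2 : |T - Gd M y| + (M.length + 1) * Gk 0 P ≤ 1 / (32 * (r : ℝ)) := by
        have h2 := (abs_sub T (Gd M y))
        have := hG M hM' y (by omega)
        linarith
      have h2 := ih'.2 (y + s - 1) (y + s) q (T - Gd M y) (by omega) (by omega) hmq (by omega)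
        (by omega) (by omega) hq hT2 h1
      rw [Gd_cons]
      have h3 : T - (Gd M y - Gd M ((y : ℝ) + (s : ℝ))) = T - Gd M y + Gd M ((y + s : ℕ) : ℝ) := by
        push_cast
        ring
      rw [h3]
      exact h2
    · intro p y q T hp hmp hmq hpy hy hyq hq hT h
      rw [List.sum_cons] at hyq
      rw [List.length_cons] at hT
      push_cast at hT
      have hT1 : |T| + (M.length + 1) * Gk 0 P ≤ 1 / (32 * (r : ℝ)) := by
        linarith
      have h1 := ih'.2 p y (y + s - 3) T hp hmp (by omega) hpy hy (by omega) (by omega) hT1 h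
      have hT2 : |T + Gd M y| + (M.length + 1) * Gk 0 P ≤ 1 / (32 * (r : ℝ)) := by
        have h2 := (abs_add_le T (Gd M y))
        have := hG M hM' y (by omega)
        linarith
      have h2 := ih'.1 (y + s - 3) (y + s) q (T + Gd M y) (by omega) (by omega) hmq (by omega)
        (by omega) (by omega) hq hT2 h1
      rw [Gd_cons]
      have h3 : T + (Gd M y - Gd M ((y : ℝ) + (s : ℝ))) = T + Gd M y - Gd M ((y + s : ℕ) : ℝ) := by
        push_cast
        ring
      rw [h3]
      exact h2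


end Pool.Agent.H932R6
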