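import Mathlib
import Pool.Agent.H932R6.ListsR

set_option autoImplicit false

/-!
# Large two-step blocks
-/

namespace Pool.Agent.H932R6

open Pool.Agent.H932R3 Pool.Agent.H932R4

theorem RS.stepE {δ : ℝ} {r P : ℕ} (hδ : 0 < δ) (hP : 15 ≤ P) (hsm : Small r P) {p : ℕ} (hp : P ≤ p)
    (hpr : p ≤ r) (hmod : p % 4 = r % 4) {T : ℝ} (hT : |T| ≤ 1 / (32 * (r : ℝ))) {β : ℕ}
    (hβ : 1 ≤ β) (hβp : 4 * β ≤ p) (h : RS δ r p T) : RS δ r (p + 8 * β) (T + Eb β p) := by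
  obtain ⟨σ, hσ, hlog⟩ := h
  obtain ⟨h1, h2⟩ := hσ.pos hδ |> fun _ => RS.bound hδ hP hsm hp hpr hmod hT hσ hlog
  have hσ0 := hσ.pos hδ
  have hp15 : (15 : ℝ) ≤ p := by exact_mod_cast (show 15 ≤ p by omega)
  have hβR : (1 : ℝ) ≤ β := by exact_mod_cast hβ
  have hβpR : 4 * (β : ℝ) ≤ p := by exact_mod_cast hβp
  have h3 := ReachR.step σ (p + 2 * β) hσ (by push_cast; linarith)
  have h4 := ReachR.step _ (p + 6 * β) h3 (by
    push_cast
    rw [div_le_iff₀ hσ0]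
    have h5 : ((p : ℝ) + 6 * β) * (p - 1 / 4) ≤ (p + 6 * β) * σ :=
      mul_le_mul_of_nonneg_left h1 (by positivity)
    have h6 : (β : ℝ) * (4 * β) ≤ β * p := mul_le_mul_of_nonneg_left hβpR (by linarith)
    nlinarith)
  refine ⟨_, h4, ?_⟩
  have h5 := bet_sum p (2 * β)
  have h6 : p + 4 * (2 * β) = p + 8 * β := by ring
  rw [h6] at h5
  have h7 := block_identity β p
  push_cast
  rw [Real.log_div (by positivity) (by positivity), Real.log_div (by positivity) (by positivity),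
    Real.log_pow, Real.log_pow, hlog, h5, ← h7]
  push_cast
  ring


end Pool.Agent.H932R6
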