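import Mathlib
import Pool.Agent.H932R3.LowerS

set_option autoImplicit false

/-!
# Shapes with a rational slope: definitions
-/

namespace Pool.Agent.H932R6

open Pool.Agent.H932R2 Pool.Agent.H932R3

/-- The row `l` of a finite set. -/
def rowOf (M : Finset (ℕ × ℕ)) (l : ℕ) : Finset (ℕ × ℕ) := M.filter fun p => p.2 = l

/-- Every row pushed to the left. -/
def cX (M : Finset (ℕ × ℕ)) : Finset (ℕ × ℕ) :=
  rowsF (M.sup Prod.snd + 1) fun l => (rowOf M l).card

/-- The lattice triangle `i + g * q < V`. -/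
def Tri (g V : ℕ) : Finset (ℕ × ℕ) := rowsF V fun q => V - g * q

/-- The lengths of the rows of the compressed triangle. -/
def FF (u g X : ℕ) : ℕ := ∑ j ∈ Finset.range X, min u (X - g * j)

theorem mem_Tri {g V i q : ℕ} (hg : 0 < g) : ((i, q) : ℕ × ℕ) ∈ Tri g V ↔ i + g * q < V := by
  unfold Tri
  rw [mem_rowsF]
  constructor
  · rintro ⟨_, h⟩
    omega
  · intro h
    have : q ≤ g * q := Nat.le_mul_of_pos_left q hg
    omega

end Pool.Agent.H932R6
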