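import Mathlib
import Pool.Agent.H932R6.LevelsR

set_option autoImplicit false

/-!
# The initial phase of the correction
-/

namespace Pool.Agent.H932R6

open Pool.Agent.H932R3 Pool.Agent.H932R4

/-- The initialR phase. -/
theorem initialR {δ : ℝ} {r P E B : ℕ} (C : CtxR δ r P E) (hB : 1000 ≤ B) (hBr : B ^ 18 ≤ r)
    (hrB : r ≤ 2 * B ^ 18) (hPr : 100 * (r : ℝ) ^ 4 ≤ 101 * (P : ℝ) ^ 4) {p1 : ℕ} (hp1 : P ≤ p1)
    (hm : p1 % 4 = r % 4) (hr : p1 + 32 * B ^ 8 ≤ r) {T0 : ℝ}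
    (hT1 : -(4.7 / (r : ℝ) ^ 2) ≤ T0) (hT2 : T0 ≤ -(3.9 / (r : ℝ) ^ 2)) (h : RS δ r p1 T0) :
    ∃ T, RS δ r (p1 + 32 * B ^ 8) T ∧ (B : ℝ) ^ 12 / (r : ℝ) ^ 4 ≤ T ∧
      T ≤ 851 * (B : ℝ) ^ 12 / (r : ℝ) ^ 4 := by
  have hP0 := C.P0
  have hr0 := C.r0
  have hBR : (1000 : ℝ) ≤ B := by exact_mod_cast hB
  have H := num_of (x := (B : ℝ)) (R := (r : ℝ)) (Q := (P : ℝ)) hBR (by exact_mod_cast hBr)
    (by exact_mod_cast hrB) hP0 (by exact_mod_cast C.pr) hPr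
  have hR2 : ∀ c : ℝ, c / (r : ℝ) ^ 2 = c * (r * (1 / (r : ℝ) ^ 3)) := by
    intro c
    field_simp
  obtain ⟨p2, hp2⟩ : ∃ p2, p2 = p1 + 28 * B ^ 8 := ⟨_, rfl⟩
  obtain ⟨β1, i1, β2, i2, b1, b1', b2, b3, b3', b4, b5, b6, b7⟩ := num_all (p1 := (p1 : ℝ))
    (p2 := (p2 : ℝ)) (T0 := T0) H rfl (by exact_mod_cast hp1)
    (by rw [hp2]; push_cast; ring) (by exact_mod_cast hr) (by rw [← hR2]; exact hT1)
    (by rw [← hR2]; exact hT2)
  have n6 : B ^ 4 ≤ B ^ 6 := Nat.pow_le_pow_right (by omega) (by norm_num)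
  have n8 : 5 * B ^ 6 ≤ B ^ 8 := by
    have e : B ^ 8 = B * B * B ^ 6 := by ring
    rw [e]
    refine Nat.mul_le_mul_right _ ?_
    exact (by omega : 5 ≤ B).trans (Nat.le_mul_self B)
  have n18 : 4 * B ^ 6 ≤ P := by
    have h1 := H.QR2
    have h2 : (4 * (B : ℝ) ^ 6) ≤ P := by
      linarith [H.a8, H.a12, H.a18, H.xR, pow_nonneg (show (0 : ℝ) ≤ B by linarith) 6]
    exact_mod_cast h2
  have hR1 : (1 : ℝ) ≤ r := by
    linarith [H.a6, H.a8, H.a12, H.a18, H.xR, H.a41]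
  have hQ2 : 4.7 / (r : ℝ) ^ 2 ≤ 5 / (P : ℝ) ^ 2 := by
    have h1 : (1 : ℝ) / (r : ℝ) ^ 2 ≤ 1 / (P : ℝ) ^ 2 := one_div_le_one_div_of_le (by positivity)
      (pow_le_pow_left₀ hP0.le (by exact_mod_cast C.pr) 2)
    have h3 : 0 < 1 / (r : ℝ) ^ 2 := by positivity
    have h4 : 5 / (P : ℝ) ^ 2 = 5 * (1 / (P : ℝ) ^ 2) := by ring
    have h5 : 4.7 / (r : ℝ) ^ 2 = 4.7 * (1 / (r : ℝ) ^ 2) := by ring
    rw [h4, h5]
    linarith
  have hpos39 : 0 < 3.9 / (r : ℝ) ^ 2 := by positivity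
  have hT0b : |T0| ≤ 5 / (P : ℝ) ^ 2 := by
    refine le_trans ?_ hQ2
    rw [abs_le]
    constructor <;> linarith
  have hA1 := RS.to C.hδ C.hP C.sm hp1 hm (q := p1 + 4 * i1) (by omega) (C.tbound' hT0b) h
    (by omega) (by omega)
  have hB1 := RS.stepE C.hδ C.hP C.sm (p := p1 + 4 * i1) (by omega) (by omega) (by omega)
    (C.tbound' hT0b) b1' (by omega) hA1
  have hEpos : 0 ≤ Eb β1 ((p1 : ℝ) + 4 * i1) := by
    have h1 := (Eb_bounds b1' (p := (p1 : ℝ) + 4 * i1) (by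
      have : (0 : ℝ) < p1 := by
        have : (P : ℝ) ≤ p1 := by exact_mod_cast hp1
        linarith
      positivity)).1
    refine le_trans ?_ h1
    have hg := gb_nonneg (show (1 : ℝ) ≤ β1 by exact_mod_cast b1')
    positivity
  have ecast1 : ((p1 + 4 * i1 : ℕ) : ℝ) = (p1 : ℝ) + 4 * i1 := by push_cast; ring
  rw [ecast1] at hB1
  have hT1b : |T0 + Eb β1 ((p1 : ℝ) + 4 * i1)| ≤ 5 / (P : ℝ) ^ 2 := by
    refine le_trans ?_ hQ2
    rw [abs_le]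
    constructor <;> linarith
  have hA2 := RS.to C.hδ C.hP C.sm (p := p1 + 4 * i1 + 8 * β1) (by omega) (by omega)
    (q := p2 + 4 * i2) (by omega) (C.tbound' hT1b) hB1 (by omega) (by omega)
  have hB2 := RS.stepE C.hδ C.hP C.sm (p := p2 + 4 * i2) (by omega) (by omega) (by omega)
    (C.tbound' hT1b) b3' (by omega) hA2
  have ecast2 : ((p2 + 4 * i2 : ℕ) : ℝ) = (p2 : ℝ) + 4 * i2 := by push_cast; ring
  rw [ecast2] at hB2
  obtain ⟨T4, hT4⟩ : ∃ T4, T4 = T0 + Eb β1 ((p1 : ℝ) + 4 * i1) + Eb β2 ((p2 : ℝ) + 4 * i2) :=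
    ⟨_, rfl⟩
  rw [← hT4] at hB2 b6 b7
  have hV0 : 0 < (B : ℝ) ^ 12 * (1 / (r : ℝ) ^ 4) := by positivity
  have hT4b : |T4| ≤ 5 / (P : ℝ) ^ 2 := by
    refine le_trans ?_ hQ2
    rw [abs_of_pos (by linarith)]
    refine b7.trans ?_
    have h1 : 851 * (B : ℝ) ^ 12 ≤ r := by
      linarith [H.a18, H.xR, pow_nonneg (show (0 : ℝ) ≤ B by linarith) 12]
    calc 851 * (B : ℝ) ^ 12 * (1 / (r : ℝ) ^ 4) ≤ r * (1 / (r : ℝ) ^ 4) :=
          mul_le_mul_of_nonneg_right h1 (by positivity)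
      _ = 1 / (r : ℝ) ^ 2 * (1 / r) := by field_simp
      _ ≤ 1 / (r : ℝ) ^ 2 * 1 := mul_le_mul_of_nonneg_left (by
          rw [div_le_one hr0]
          exact hR1) (by positivity)
      _ ≤ 4.7 / (r : ℝ) ^ 2 := by
          rw [mul_one]
          exact div_le_div_of_nonneg_right (by norm_num) (by positivity)
  have hC := RS.to C.hδ C.hP C.sm (p := p2 + 4 * i2 + 8 * β2) (by omega) (by omega)
    (q := p1 + 32 * B ^ 8) (by omega) (C.tbound' hT4b) hB2 (by omega) hr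
  refine ⟨T4, hC, ?_, ?_⟩
  · rw [div_eq_mul_one_div]
    exact b6
  · rw [div_eq_mul_one_div]
    exact b7


end Pool.Agent.H932R6
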