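import Mathlib
import Pool.Agent.H932R6.InitialR

set_option autoImplicit false

/-!
# The end of the correction
-/

namespace Pool.Agent.H932R6

open Pool.Agent.H932R3 Pool.Agent.H932R4

/-- The first list stage. -/
theorem secondR {δ : ℝ} {r P E B : ℕ} (C : CtxR δ r P E) (hE : 2 ≤ E) (hB : 1000 ≤ B) (hBr : B ^ 18 ≤ r)
    (hPr : 100 * (r : ℝ) ^ 4 ≤ 101 * (P : ℝ) ^ 4) (hhalf : (r : ℝ) ≤ 2 * P) {p q : ℕ} (hp : P ≤ p)
    (hm : p % 4 = r % 4) (hmq : q % 4 = r % 4) (hpq : p + 16 * B ^ 8 ≤ q) (hq : q ≤ r)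
    {T : ℝ} (hT1 : (B : ℝ) ^ 12 / (r : ℝ) ^ 4 ≤ T)
    (hT2 : T ≤ 851 * (B : ℝ) ^ 12 / (r : ℝ) ^ 4) (h : RS δ r p T) :
    StR δ r P ((4 * B ^ 4 + 2) :: CL 0) q := by
  have hP0 := C.P0
  have hr0 := C.r0
  have hB4 : B ≤ B ^ 4 := by
    calc B = B ^ 1 := (pow_one _).symm
      _ ≤ B ^ 4 := Nat.pow_le_pow_right (by omega) (by norm_num)
  have hB48 : 20 * B ^ 4 ≤ B ^ 8 := by
    have e : B ^ 8 = B ^ 4 * B ^ 4 := by ring
    rw [e]
    exact Nat.mul_le_mul_right _ (by omega)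
  have hB18 : B ^ 8 ≤ B ^ 18 := Nat.pow_le_pow_right (by omega) (by norm_num)
  have hPR : (P : ℝ) ≤ r := by exact_mod_cast C.pr
  have hnL : nL ((4 * B ^ 4 + 2) :: CL 0) = 24 * (4 * B ^ 4 + 2) := by
    rw [nL_cons]
    simp [CL, Nat.factorial]
    ring
  have hlen : ((4 * B ^ 4 + 2) :: CL 0).length = 1 := rfl
  have hsum : ((4 * B ^ 4 + 2) :: CL 0).sum = 4 * B ^ 4 + 2 := by simp [CL]
  have hadm : Adm ((4 * B ^ 4 + 2) :: CL 0) := by
    refine ⟨by omega, ?_, trivial⟩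
    have : (CL 0).sum = 0 := rfl
    omega
  obtain ⟨x, hx⟩ : ∃ x : ℝ, x = B := ⟨_, rfl⟩
  have hnLR : ((nL ((4 * B ^ 4 + 2) :: CL 0) : ℕ) : ℝ) = 24 * (4 * x ^ 4 + 2) := by
    rw [hnL, hx]
    push_cast
    ring
  have hxB : 1000 ≤ x := by
    rw [hx]
    exact_mod_cast hB
  have hx18 : x ^ 18 ≤ r := by rw [hx]; exact_mod_cast hBr
  rw [← hx] at hT1 hT2
  have hx0 : 0 < x := by linarith
  have hx4 : 1000000 ≤ x ^ 4 := by
    have e : x ^ 4 = x ^ 2 * x ^ 2 := by ring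
    have h2 : 1000 * 1000 ≤ x ^ 2 := by
      rw [pow_two]
      exact mul_le_mul hxB hxB (by norm_num) hx0.le
    have h1 : 1 ≤ x ^ 2 := by linarith
    rw [e]
    calc (1000000 : ℝ) = 1 * (1000 * 1000) := by norm_num
      _ ≤ x ^ 2 * x ^ 2 := mul_le_mul h1 h2 (by norm_num) (by positivity)
  have hx14 : 1000000 ≤ x ^ 14 := hx4.trans (pow_le_pow_right₀ (by linarith) (by norm_num))
  have hx6 : 1 ≤ x ^ 6 := one_le_pow₀ (by linarith)
  have h418 : 1000000 * x ^ 4 ≤ r := by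
    calc 1000000 * x ^ 4 ≤ x ^ 14 * x ^ 4 := mul_le_mul_of_nonneg_right hx14 (by positivity)
      _ = x ^ 18 := by ring
      _ ≤ r := hx18
  have hr1 : (1 : ℝ) ≤ r := by linarith
  have h1218 : 851 * x ^ 12 ≤ r := by
    have h1 : 851 ≤ x ^ 6 := by
      calc (851 : ℝ) ≤ x ^ 4 := by linarith
        _ ≤ x ^ 6 := pow_le_pow_right₀ (by linarith) (by norm_num)
    calc 851 * x ^ 12 ≤ x ^ 6 * x ^ 12 := mul_le_mul_of_nonneg_right h1 (by positivity)
      _ = x ^ 18 := by ring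
      _ ≤ r := hx18
  have hsm : 851 * x ^ 12 / (r : ℝ) ^ 4 ≤ 5 / (P : ℝ) ^ 2 := by
    have h1 : 851 * x ^ 12 ≤ (r : ℝ) ^ 2 := by
      calc 851 * x ^ 12 ≤ r := h1218
        _ = 1 * r := (one_mul _).symm
        _ ≤ r * r := mul_le_mul_of_nonneg_right hr1 hr0.le
        _ = (r : ℝ) ^ 2 := by ring
    calc 851 * x ^ 12 / (r : ℝ) ^ 4 ≤ (r : ℝ) ^ 2 / (r : ℝ) ^ 4 :=
          div_le_div_of_nonneg_right h1 (by positivity)
      _ = 1 / (r : ℝ) ^ 2 := by field_simp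
      _ ≤ 1 / (P : ℝ) ^ 2 := one_div_le_one_div_of_le (by positivity)
          (pow_le_pow_left₀ hP0.le hPR 2)
      _ ≤ 5 / (P : ℝ) ^ 2 := div_le_div_of_nonneg_right (by norm_num) (by positivity)
  refine ⟨?_, ?_⟩
  · unfold qL
    rw [hnLR, hlen, mul_div_assoc', div_le_div_iff₀ (by positivity) (by positivity)]
    have h1 : 2 * (4 * (24 * (4 * x ^ 4 + 2))) ≤ 5 * (P : ℝ) ^ 2 := by
      have h2 : (r : ℝ) / 2 ≤ P := by linarith
      have h3 : (r / 2 : ℝ) ^ 2 ≤ (P : ℝ) ^ 2 := pow_le_pow_left₀ (by positivity) h2 2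
      have h9 : (r / 2 : ℝ) ^ 2 = r / 4 * r := by ring
      have h10 : 250 * (r : ℝ) ≤ r / 4 * r := mul_le_mul_of_nonneg_right (by linarith) hr0.le
      linarith
    calc 2 * (4 * (24 * (4 * x ^ 4 + 2))) * (P : ℝ) ^ 2
        ≤ 5 * (P : ℝ) ^ 2 * (P : ℝ) ^ 2 := mul_le_mul_of_nonneg_right h1 (sq_nonneg _)
      _ = 5 * (P : ℝ) ^ (1 + 3) := by ring
  · refine stageLR C (s0 := 8 * B ^ 4 + 2) (I := 3 * B ^ 8) hadm (by rw [hlen]; omega)
      (by omega) (by rw [hsum]; omega) hp hm hmq (by rw [hsum]; omega) hq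
      (A := x ^ 12 / (r : ℝ) ^ 4) (B := 851 * x ^ 12 / (r : ℝ) ^ 4) ?_ ?_ hsm hT1 hT2 h
    · rw [hnLR, hlen]
      have e : (1 : ℕ) + 3 = 4 := rfl
      rw [e, div_le_div_iff₀ (by positivity) (by positivity)]
      push_cast
      rw [← hx]
      have h1 : 24 * (4 * x ^ 4 + 2) * (8 * x ^ 4 + 2 + 8) ≤ 0.9 * x ^ 12 := by
        have h2 : 24 * (4 * x ^ 4 + 2) * (8 * x ^ 4 + 2 + 8) ≤
            24 * (5 * x ^ 4) * (9 * x ^ 4) := by
          refine mul_le_mul (by linarith) (by linarith) (by positivity) (by positivity)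
        have h3 : 24 * (5 * x ^ 4) * (9 * x ^ 4) = 1080 * x ^ 8 := by ring
        have h4 : x ^ 12 = x ^ 4 * x ^ 8 := by ring
        have h7 : 1000000 * x ^ 8 ≤ x ^ 4 * x ^ 8 :=
          mul_le_mul_of_nonneg_right hx4 (by positivity)
        have h8 : 0 < x ^ 8 := by positivity
        rw [h4]
        linarith
      have h2 : (0 : ℝ) < (r : ℝ) ^ 4 := by positivity
      calc 24 * (4 * x ^ 4 + 2) * (8 * x ^ 4 + 2 + 8) * (r : ℝ) ^ 4
          ≤ 0.9 * x ^ 12 * (r : ℝ) ^ 4 := mul_le_mul_of_nonneg_right h1 h2.le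
        _ ≤ x ^ 12 * (P : ℝ) ^ 4 := by
            have h3 : 0 < x ^ 12 := by positivity
            have h4 : 0.9 * (r : ℝ) ^ 4 ≤ (P : ℝ) ^ 4 := by linarith
            calc 0.9 * x ^ 12 * (r : ℝ) ^ 4 = x ^ 12 * (0.9 * (r : ℝ) ^ 4) := by ring
              _ ≤ _ := mul_le_mul_of_nonneg_left h4 h3.le
    · rw [hnLR, hlen]
      have e : (1 : ℕ) + 3 = 4 := rfl
      rw [e]
      refine div_le_div_of_nonneg_right ?_ (by positivity)
      push_cast
      rw [← hx]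
      calc 851 * x ^ 12 ≤ 1152 * x ^ 12 := by
            have : 0 < x ^ 12 := by positivity
            linarith
        _ = 24 * (4 * x ^ 4) * (4 * (3 * x ^ 8)) := by ring
        _ ≤ 24 * (4 * x ^ 4 + 2) * (8 * x ^ 4 + 2 + 4 * (3 * x ^ 8)) :=
            mul_le_mul (by linarith) (by
              have : 0 < x ^ 4 := by positivity
              linarith) (by positivity) (by positivity)

/-- The end of the correction. -/
theorem finishR {δ : ℝ} {r P E K : ℕ} (C : CtxR δ r P E) (hhalf : (r : ℝ) ≤ 2 * P)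
    (hZ : 8 * nL (CL (K + 1)) * 2 ^ (K + 4) ≤ r) (hr2 : 2 ≤ r) {p : ℕ} (hp : P ≤ p) (hpr : p ≤ r)
    (hm : p % 4 = r % 4) (h : StR δ r P (CL (K + 1)) p) :
    ∃ σ, ReachR δ σ ∧ 0 < (r : ℝ) - σ ∧ (r : ℝ) - σ ≤ 1 / (r : ℝ) ^ K := by
  have hP0 := C.P0
  have hr0 := C.r0
  obtain ⟨hq5, T, hT, hTl, hTu⟩ := h
  have hqpos : 0 < qL P (CL (K + 1)) := by
    unfold qL
    have : (0 : ℝ) < nL (CL (K + 1)) := by exact_mod_cast nL_pos (CL_adm (K + 1))
    positivity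
  have hT0 : 0 < T := by linarith
  have hT5 : |T| ≤ 5 / (P : ℝ) ^ 2 := by
    rw [abs_of_pos hT0]
    linarith
  obtain ⟨σ, hσ, hlog⟩ := RS.to C.hδ C.hP C.sm (p := p) hp hm (q := r) rfl (C.tbound' hT5) hT hpr
    le_rfl
  have hlog' : Real.log σ = Real.log r - 2 * T := by
    rw [hlog]
    unfold gam
    ring
  have hσ0 : 0 < σ := hσ.pos C.hδ
  have hσe : σ = r * Real.exp (-(2 * T)) := by
    rw [← Real.exp_log hσ0, hlog', sub_eq_add_neg, Real.exp_add, Real.exp_log hr0]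
  have hexp1 : Real.exp (-(2 * T)) < 1 := by
    rw [Real.exp_lt_one_iff]
    linarith
  have hexp2 : 1 - 2 * T ≤ Real.exp (-(2 * T)) := by
    have := Real.add_one_le_exp (-(2 * T))
    linarith
  refine ⟨σ, hσ, ?_, ?_⟩
  · rw [hσe]
    have : (r : ℝ) * Real.exp (-(2 * T)) < r * 1 := mul_lt_mul_of_pos_left hexp1 hr0
    linarith
  · have h1 : (r : ℝ) - σ ≤ 2 * r * T := by
      rw [hσe]
      have : (r : ℝ) * (1 - 2 * T) ≤ r * Real.exp (-(2 * T)) :=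
        mul_le_mul_of_nonneg_left hexp2 hr0.le
      linarith
    refine h1.trans ?_
    obtain ⟨Z, hZe⟩ : ∃ Z, Z = 8 * nL (CL (K + 1)) * 2 ^ (K + 4) := ⟨_, rfl⟩
    rw [← hZe] at hZ
    have h2 : T ≤ (Z : ℝ) / (r : ℝ) ^ (K + 4) := by
      refine hTu.trans ?_
      unfold qL
      rw [CL_length]
      have h3 : (r : ℝ) ^ (K + 4) ≤ 2 ^ (K + 4) * (P : ℝ) ^ (K + 4) := by
        rw [← mul_pow]
        exact pow_le_pow_left₀ hr0.le hhalf _
      have e : K + 1 + 3 = K + 4 := rfl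
      rw [e, mul_div_assoc', div_le_div_iff₀ (by positivity) (by positivity), hZe]
      push_cast
      calc 2 * (4 * (nL (CL (K + 1)) : ℝ)) * (r : ℝ) ^ (K + 4)
          ≤ 2 * (4 * (nL (CL (K + 1)) : ℝ)) * (2 ^ (K + 4) * (P : ℝ) ^ (K + 4)) :=
            mul_le_mul_of_nonneg_left h3 (by positivity)
        _ = 8 * (nL (CL (K + 1)) : ℝ) * 2 ^ (K + 4) * (P : ℝ) ^ (K + 4) := by ring
    have hZr : (Z : ℝ) ≤ r := by exact_mod_cast hZ
    have hr2' : (2 : ℝ) ≤ r := by exact_mod_cast hr2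
    calc 2 * r * T ≤ 2 * r * ((Z : ℝ) / (r : ℝ) ^ (K + 4)) :=
          mul_le_mul_of_nonneg_left h2 (by positivity)
      _ ≤ r * r * (r / (r : ℝ) ^ (K + 4)) := by
          refine mul_le_mul ?_ (div_le_div_of_nonneg_right hZr (by positivity)) (by positivity)
            (by positivity)
          exact mul_le_mul_of_nonneg_right hr2' hr0.le
      _ = 1 / (r : ℝ) ^ (K + 1) := by
          rw [pow_add (r : ℝ) K 4, pow_add (r : ℝ) K 1]
          field_simp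
      _ ≤ 1 / (r : ℝ) ^ K := one_div_le_one_div_of_le (by positivity)
          (pow_le_pow_right₀ (by linarith) (by omega))


end Pool.Agent.H932R6
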