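import Mathlib
import Pool.Agent.H932R6.Defs
import Pool.Agent.H932R6.ShortR

set_option autoImplicit false

/-!
# Statements of the tasks (call of helper932)
-/

namespace Pool.Agent.H932R6

open Polynomial Pool.Agent.H932R2 Pool.Agent.H932R3 Pool.Agent.H932R4

/-- Basic facts on the compression of the rows. -/
def P_CX : Prop :=
  (∀ (M : Finset (ℕ × ℕ)) (i l : ℕ), ((i, l) : ℕ × ℕ) ∈ cX M ↔ i < (rowOf M l).card) ∧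
  (∀ M : Finset (ℕ × ℕ), (cX M).card = M.card) ∧
  (∀ M M' : Finset (ℕ × ℕ), M ⊆ M' → cX M ⊆ cX M') ∧
  (∀ (ρ : ℕ) (M M' : Finset (ℕ × ℕ)), M ⊆ M' → cY ρ M ⊆ cY ρ M') ∧
  (∀ (B : ℕ) (M : Finset (ℕ × ℕ)), (∀ p ∈ M, p.2 ≤ B) → ∀ p ∈ cX M, p.2 ≤ B) ∧
  (∀ (B : ℕ) (M : Finset (ℕ × ℕ)), (∀ p ∈ M, p.1 ≤ B) → ∀ p ∈ cX M, p.1 ≤ B) ∧
  (∀ (B : ℕ) (M : Finset (ℕ × ℕ)), (∀ p ∈ M, p.1 ≤ B) →
    DomX B (↑M : Set (ℕ × ℕ)) (↑(cX M) : Set (ℕ × ℕ)))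

/-- The rows of a compressed triangle. -/
def P_TRI : Prop :=
  ∀ u g V q : ℕ, 0 < g → g ≤ u → (rowOf (cY u (Tri g V)) q).card = FF u g (V - u * q)

/-- Adding to `A` a set `T` contained in one row. -/
def P_UN : Prop :=
  ∀ (u h : ℕ) (A T : Finset (ℕ × ℕ)), (∀ p ∈ T, p.2 = h) →
    (∀ q : ℕ, (rowOf (cY u (A ∪ T)) q).card ≤ (rowOf (cY u A) q).card + T.card) ∧
    (∀ q : ℕ, (rowOf (cY u (A ∪ T)) (q + 1)).Nonempty → (rowOf (cY u A) q).Nonempty)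

/-- Bounds for `FF`. -/
def P_FF : Prop :=
  (∀ u X : ℕ, u ≤ X → FF u 1 X + u * (u - 1) / 2 = u * X) ∧
  (∀ u X : ℕ, X ≤ u → 2 * FF u 1 X = X * (X + 1)) ∧
  (∀ u g X : ℕ, 0 < g → g ≤ u → (u : ℝ) / g * (X - u / 2 + g / 2) - g / 4 ≤ FF u g X) ∧
  (∀ u g X : ℕ, 0 < g → g ≤ u → u ≤ X →
    (FF u g X : ℝ) ≤ (u : ℝ) / g * (X - u / 2 + g / 2) + g / 8) ∧
  (∀ u g X : ℕ, 0 < g → g ≤ u → X ≤ u →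
    (FF u g X : ℝ) ≤ (u : ℝ) / g * (X - u / 2 + g / 2) + (u - X) ^ 2 / (2 * g) + g / 8)

/-- Removing the excess of the two top rows. -/
def P_CLEAN : Prop :=
  ∀ (M : Finset (ℕ × ℕ)) (ρ h : ℕ) (σ V : ℝ), 2 ≤ σ - ρ → σ - ρ ≤ 3 →
    (∀ p ∈ M, (p.1 : ℝ) + σ * p.2 ≤ V ∨
      ((p.2 = h ∨ p.2 = h + 1) ∧ (p.1 : ℝ) + ρ * p.2 ≤ V)) →
    ∀ p ∈ cY ρ M, (p.1 : ℝ) + σ * p.2 ≤ V + 6

/-- The first shape. -/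
def P_M1 : Prop :=
  ∀ v d : ℕ, 0 < v → v * v ≤ d → ∃ (T : Finset (ℕ × ℕ)) (h V : ℕ), (∀ p ∈ T, p.2 = h) ∧
    2 * T.card ≤ v * v ∧ 2 * V + v * v = v * (2 * d + 3) ∧
    cX (cY v (Tri 1 (d + 1))) = Tri (v * v) V ∪ T ∧
    ∀ p ∈ cX (cY v (Tri 1 (d + 1))), p.1 + v * v * p.2 ≤ v * (d + 1)

/-- The second and the third shape. -/
def P_M2 : Prop :=
  ∀ (u g V h : ℕ) (T : Finset (ℕ × ℕ)), 0 < g → g ≤ u → (∀ p ∈ T, p.2 = h) →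
    2 * T.card ≤ g → (u : ℝ) * (3 / 4 * ((u : ℝ) ^ 2 / g) + g + 1) ≤ V →
    (∀ p : ℕ × ℕ, (p.1 : ℝ) + ((u : ℝ) ^ 2 / g) * p.2 ≤
        (u : ℝ) / g * (V - u / 2 + g / 2) - g / 2 → p ∈ cX (cY u (Tri g V ∪ T))) ∧
    ∀ ρ : ℕ, 2 ≤ (u : ℝ) ^ 2 / g - ρ → (u : ℝ) ^ 2 / g - ρ ≤ 3 →
      ∀ p ∈ cY ρ (cX (cY u (Tri g V ∪ T))), (p.1 : ℝ) + ((u : ℝ) ^ 2 / g) * p.2 ≤
        (u : ℝ) / g * (V - u / 2 + g / 2) + 5 * g / 8 + 6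

/-- A sequence with small steps and a large total change meets every short interval modulo `1`. -/
def P_SW : Prop :=
  ∀ (G : ℕ → ℝ) (J : ℕ) (lam : ℝ), 0 ≤ lam → (∀ j < J, |G (j + 1) - G j| ≤ lam) →
    1 + lam ≤ |G J - G 0| → ∀ A : ℝ, ∃ j ≤ J, ∃ z : ℤ, A ≤ G j - z ∧ G j - z ≤ A + lam

/-- Good denominators: no small multiple of `s` is close to a multiple of `2 v`. -/
def GoodV (s K C v : ℕ) : Prop :=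
  ∀ k : ℕ, 1 ≤ k → k ≤ K → ∀ z : ℤ, (C : ℤ) ≤ |(s : ℤ) * k - 2 * v * z|

/-- Existence of small good denominators. -/
def P_GV : Prop :=
  ∀ K C V0 : ℕ, ∀ ε : ℝ, 0 < ε → ∃ S : ℕ, ∀ s : ℕ, S ≤ s →
    ∃ v : ℕ, V0 ≤ v ∧ (v : ℝ) ^ 2 ≤ ε * s ∧ GoodV s K C v

/-- Rational numbers just below `√n` whose square is just below an integer. -/
def P_NT : Prop :=
  ∀ ε η : ℝ, 0 < ε → ε ≤ 1 → 0 < η → η ≤ 1 →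
    ∃ N : ℕ, ∀ n : ℕ, N ≤ n → ∃ u v a : ℕ, 0 < v ∧ (v : ℝ) ^ 2 ≤ ε * Real.sqrt n ∧
      a % 4 = n % 4 ∧ Real.sqrt n - ε ≤ (u : ℝ) / v ∧ (u : ℝ) / v ≤ Real.sqrt n - ε / 2 ∧
      (a : ℝ) - η ≤ ((u : ℝ) / v) ^ 2 ∧ ((u : ℝ) / v) ^ 2 ≤ a - η / 2

/-- Sums of logarithms. -/
noncomputable def Ls (p : ℝ) (k : ℕ) : ℝ :=
  ∑ j ∈ Finset.range k, (Real.log (p + 4 * j + 3) - Real.log (p + 4 * j + 1))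

/-- The change of the deviation in the first block. -/
noncomputable def f1 (p : ℝ) (j : ℕ) : ℝ :=
  Real.log (p + 2 * j + 3) - Real.log (p + 1) - Ls p (j + 1)

/-- The change of the deviation in the second block. -/
noncomputable def f2 (p : ℝ) (α : ℕ) : ℝ :=
  Real.log (p + 3 * α + 2) - Real.log (p + α) - Ls p (α + 1)

/-- The two kinds of steps. -/
def P_STG : Prop :=
  ∀ (δ : ℝ) (r P : ℕ), 0 < δ → 15 ≤ P → Small r P → ∀ p : ℕ, P ≤ p → p ≤ r → p % 4 = r % 4 →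
    ∀ T : ℝ, |T| ≤ 1 / (32 * (r : ℝ)) → RS δ r p T →
      (∀ j : ℕ, RS δ r (p + 4 * (j + 1)) (T - f1 p j)) ∧
      (∀ α : ℕ, 1 ≤ α → α ^ 2 ≤ p → RS δ r (p + 4 * (α + 1)) (T - f2 p α))

/-- Estimates for the first block. -/
def P_F1 : Prop :=
  ∀ p : ℝ, 1 ≤ p → f1 p 0 = 0 ∧ ∀ j : ℕ,
    4 * ((j : ℝ) + 1) / (p + 4 * j + 7) ^ 2 ≤ f1 p (j + 1) - f1 p j ∧
      f1 p (j + 1) - f1 p j ≤ 4 * ((j : ℝ) + 1) / p ^ 2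

/-- Estimates for the second block. -/
def P_F2 : Prop :=
  ∀ p : ℝ, 1 ≤ p → f2 p 1 = f1 p 1 ∧ ∀ α : ℕ, 1 ≤ α →
    2 / p ^ 2 - 200 * (α : ℝ) ^ 2 / p ^ 3 ≤ f2 p (α + 1) - f2 p α ∧
      f2 p (α + 1) - f2 p α ≤ 2 / p ^ 2 + 200 * (α : ℝ) ^ 2 / p ^ 3

/-- The first two blocks. -/
def P_BL12 : Prop :=
  ∀ (δ : ℝ) (r a E N : ℕ), CtxR δ r a E → a % 4 = r % 4 →
    100 * (r : ℝ) ^ 4 ≤ 101 * (a : ℝ) ^ 4 → δ ^ 2 ≤ a → (a : ℝ) - δ ^ 2 ≤ 1 / 1000 →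
    (a : ℝ) * (a - δ ^ 2) ≤ (N : ℝ) ^ 2 → 1000000 * N ^ 2 ≤ a → 1 ≤ N → a + 16 * N + 100 ≤ r →
    ∃ (p : ℕ) (T : ℝ), a ≤ p ∧ p ≤ a + 16 * N + 100 ∧ p % 4 = r % 4 ∧ RS δ r p T ∧
      -(6.9 / (r : ℝ) ^ 2) ≤ T ∧ T ≤ -(4.7 / (r : ℝ) ^ 2)

/-- The third block. -/
def P_BL3 : Prop :=
  ∀ (δ : ℝ) (r P E B p : ℕ) (T : ℝ), CtxR δ r P E → 1000 ≤ B → B ^ 18 ≤ r → r ≤ 2 * B ^ 18 →
    100 * (r : ℝ) ^ 4 ≤ 101 * (P : ℝ) ^ 4 → P ≤ p → p % 4 = r % 4 → p + 8 * B ^ 6 ≤ r →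
    RS δ r p T → -(6.9 / (r : ℝ) ^ 2) ≤ T → T ≤ -(4.7 / (r : ℝ) ^ 2) →
    ∃ (p' : ℕ) (T' : ℝ), p ≤ p' ∧ p' ≤ p + 8 * B ^ 6 ∧ p' % 4 = r % 4 ∧ RS δ r p' T' ∧
      -(4.7 / (r : ℝ) ^ 2) ≤ T' ∧ T' ≤ -(3.9 / (r : ℝ) ^ 2)

end Pool.Agent.H932R6
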