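import Mathlib
import Pool.Agent.H932R6.Stubs

set_option autoImplicit false

/-!
# Ranks from the shapes with a rational slope
-/

namespace Pool.Agent.H932R6

open Polynomial Pool.Agent.H932R2 Pool.Agent.H932R3 Pool.Agent.H932R4

/-- The conditions on the parameters of the shapes. -/
structure Shp (u v d B ρ : ℕ) : Prop where
  hv : 0 < v
  hvu : v * v ≤ u
  hvd : v * v ≤ d
  hbig : (u : ℝ) * (3 / 4 * ((u : ℝ) ^ 2 / (v * v)) + v * v + 1) ≤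
    ((v : ℝ) * (2 * d + 3) - v * v) / 2
  hB1 : v * (d + 1) ≤ B
  hB2 : u * (d + 1) ≤ v * B
  hr2 : 2 ≤ ((u : ℝ) / v) ^ 2 - ρ
  hr3 : ((u : ℝ) / v) ^ 2 - ρ ≤ 3

variable {K : Type*} [Field K] [Infinite K]

theorem shapesR (hCX : P_CX) (hM1 : P_M1) (hM2 : P_M2) {𝓘 : Set (Ideal K[X][X])}
    (h𝓘 : Stable 𝓘) {u v d B ρ : ℕ} (S : Shp u v d B ρ)
    (hK : ∀ k : ℕ, 0 < k → k ≤ B → (k : K) ≠ 0) :
    ∃ M₂ M₃ : Finset (ℕ × ℕ), (∀ p ∈ M₂, p.2 ≤ B) ∧ (∀ p ∈ M₃, p.2 ≤ B) ∧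
      M₃.card = (Tfin d).card ∧
      (∀ p : ℕ × ℕ, (p.1 : ℝ) + ((u : ℝ) / v) ^ 2 * p.2 ≤
        (u : ℝ) / v * (2 * d + 3 - (u : ℝ) / v) / 2 - (v : ℝ) ^ 2 / 2 → p ∈ M₂) ∧
      (∀ p ∈ M₃, (p.1 : ℝ) + ((u : ℝ) / v) ^ 2 * p.2 ≤
        (u : ℝ) / v * (2 * d + 3 - (u : ℝ) / v) / 2 + 5 * (v : ℝ) ^ 2 / 8 + 6) ∧
      (∀ n : ℕ, RkS 𝓘 (↑M₂ : Set (ℕ × ℕ)) n → RkS 𝓘 (Tset d) n) ∧
      (∀ n : ℕ, RkS 𝓘 (↑M₃ : Set (ℕ × ℕ)) n → RkS 𝓘 (Tset d) n) := by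
  obtain ⟨hv, hvu, hvd, hbig, hB1, hB2, hr2, hr3⟩ := S
  obtain ⟨c1, c2, c3, c4, c5, c6, c7⟩ := hCX
  have hvR : (0 : ℝ) < v := by exact_mod_cast hv
  have hTri : Tri 1 (d + 1) = Tfin d := by
    unfold Tri Tfin
    simp only [one_mul]
  obtain ⟨T, h, V, hT, hTc, hV, hM, hMb⟩ := hM1 v d hv hvd
  have hdB : d ≤ B := by
    have : 1 * (d + 1) ≤ v * (d + 1) := Nat.mul_le_mul_right _ hv
    omega
  obtain ⟨A₁, hA₁⟩ : ∃ A, A = cY v (Tri 1 (d + 1)) := ⟨_, rfl⟩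
  obtain ⟨M₁, hM₁⟩ : ∃ A, A = cX A₁ := ⟨_, rfl⟩
  obtain ⟨A₂, hA₂⟩ : ∃ A, A = cY u M₁ := ⟨_, rfl⟩
  obtain ⟨M₂, hM₂⟩ : ∃ A, A = cX A₂ := ⟨_, rfl⟩
  rw [← hA₁, ← hM₁] at hM hMb
  have r0 : ∀ p ∈ Tri 1 (d + 1), p.2 ≤ B := by
    rintro ⟨i, l⟩ hp
    rw [mem_Tri one_pos] at hp
    simp only
    omega
  have r1 : ∀ p ∈ A₁, p.2 ≤ B := by
    rintro ⟨i, q⟩ hp
    rw [hA₁] at hp
    exact row_le_of_mem_cY r0 hp
  have k1 : ∀ p ∈ A₁, p.1 ≤ B := by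
    rintro ⟨i, q⟩ hp
    rw [hA₁] at hp
    obtain ⟨l, h1, h2⟩ := exists_row (mem_cY hp)
    rw [mem_Tri one_pos] at h2
    simp only
    have h3 : i + v * q - v * l + v * l = i + v * q := Nat.sub_add_cancel (by omega)
    obtain ⟨i', hi'⟩ : ∃ i', i' = i + v * q - v * l := ⟨_, rfl⟩
    rw [← hi'] at h2 h3
    have h4 : i' ≤ v * i' := Nat.le_mul_of_pos_left _ hv
    have h5 : v * (i' + l) ≤ v * d := Nat.mul_le_mul_left _ (by omega)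
    have h6 : v * (i' + l) = v * i' + v * l := Nat.mul_add _ _ _
    have h7 : v * (d + 1) = v * d + v := Nat.mul_succ _ _
    omega
  have r1' : ∀ p ∈ M₁, p.2 ≤ B := by
    rw [hM₁]
    exact c5 B A₁ r1
  have r2 : ∀ p ∈ A₂, p.2 ≤ B := by
    rintro ⟨i, q⟩ hp
    rw [hA₂] at hp
    exact row_le_of_mem_cY r1' hp
  have k2 : ∀ p ∈ A₂, p.1 ≤ B := by
    rintro ⟨i, q⟩ hp
    rw [hA₂] at hp
    obtain ⟨l, h1, h2⟩ := exists_row (mem_cY hp)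
    have h3 : i + u * q - u * l + u * l = i + u * q := Nat.sub_add_cancel (by omega)
    obtain ⟨i', hi'⟩ : ∃ i', i' = i + u * q - u * l := ⟨_, rfl⟩
    rw [← hi'] at h2 h3
    have h4 := hMb _ h2
    simp only at h4 ⊢
    have h5 : u * (i' + v * v * l) ≤ u * (v * (d + 1)) := Nat.mul_le_mul_left _ h4
    have h6 : v * v * i' ≤ u * i' := Nat.mul_le_mul_right _ hvu
    have h7 : v * (v * i' + u * v * l) ≤ v * (u * (d + 1)) := by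
      calc v * (v * i' + u * v * l) = v * v * i' + u * (v * v * l) := by ring
        _ ≤ u * i' + u * (v * v * l) := Nat.add_le_add_right h6 _
        _ = u * (i' + v * v * l) := by ring
        _ ≤ u * (v * (d + 1)) := h5
        _ = v * (u * (d + 1)) := by ring
    have h8 : v * i' + u * v * l ≤ u * (d + 1) := Nat.le_of_mul_le_mul_left h7 hv
    have h9 : v * i ≤ v * (i' + u * l) := Nat.mul_le_mul_left _ (by omega)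
    have h10 : v * i ≤ v * B := by
      calc v * i ≤ v * (i' + u * l) := h9
        _ = v * i' + u * v * l := by ring
        _ ≤ v * B := h8.trans hB2
    exact Nat.le_of_mul_le_mul_left h10 hv
  have r3 : ∀ p ∈ M₂, p.2 ≤ B := by
    rw [hM₂]
    exact c5 B A₂ r2
  have r4 : ∀ p ∈ cY ρ M₂, p.2 ≤ B := by
    rintro ⟨i, q⟩ hp
    exact row_le_of_mem_cY r3 hp
  have himp : ∀ n : ℕ, RkS 𝓘 (↑M₂ : Set (ℕ × ℕ)) n → RkS 𝓘 (Tset d) n := by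
    intro n h
    have e1 : RkS 𝓘 (↑A₂ : Set (ℕ × ℕ)) n := by
      refine RkS.compressX h𝓘 B hK ?_ h
      rw [hM₂]
      exact c7 B A₂ k2
    have e2 : RkS 𝓘 (↑M₁ : Set (ℕ × ℕ)) n := by
      refine RkS.compressY h𝓘 u B hK ?_ e1
      rw [hA₂]
      exact domY_cY r1'
    have e3 : RkS 𝓘 (↑A₁ : Set (ℕ × ℕ)) n := by
      refine RkS.compressX h𝓘 B hK ?_ e2
      rw [hM₁]
      exact c7 B A₁ k1
    have e4 : RkS 𝓘 (↑(Tri 1 (d + 1)) : Set (ℕ × ℕ)) n := by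
      refine RkS.compressY h𝓘 v B hK ?_ e3
      rw [hA₁]
      exact domY_cY r0
    rwa [hTri, coe_Tfin] at e4
  have hVR : 2 * (V : ℝ) + v * v = v * (2 * d + 3) := by exact_mod_cast hV
  have hg : ((v * v : ℕ) : ℝ) = (v : ℝ) * v := by push_cast; ring
  have hm2 := hM2 u (v * v) V h T (Nat.mul_pos hv hv) hvu hT hTc (by
    rw [hg]
    linarith)
  rw [← hM, ← hA₂, ← hM₂, hg] at hm2
  have es : (u : ℝ) ^ 2 / ((v : ℝ) * v) = ((u : ℝ) / v) ^ 2 := by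
    rw [div_pow, pow_two (v : ℝ)]
  have eV : (u : ℝ) / ((v : ℝ) * v) * (V - u / 2 + (v : ℝ) * v / 2) =
      (u : ℝ) / v * (2 * d + 3 - (u : ℝ) / v) / 2 := by
    have : (V : ℝ) = (v * (2 * d + 3) - v * v) / 2 := by linarith
    rw [this]
    field_simp
    ring
  rw [es, eV] at hm2
  obtain ⟨m1, m2⟩ := hm2
  refine ⟨M₂, cY ρ M₂, r3, r4, ?_, fun p hp => m1 p ?_, fun p hp => ?_, himp, fun n h => himp n ?_⟩
  · rw [card_cY, hM₂, c2, hA₂, card_cY, hM₁, c2, hA₁, card_cY, hTri]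
  · rw [← pow_two (v : ℝ)]
    exact hp
  · have := m2 ρ hr2 hr3 p hp
    rw [← pow_two (v : ℝ)] at this
    exact this
  · exact RkS.compressY h𝓘 ρ B hK (domY_cY r3) h

theorem upper_rankR (hCX : P_CX) (hM1 : P_M1) (hM2 : P_M2) {𝓘 : Set (Ideal K[X][X])}
    (h𝓘 : Stable 𝓘) {u v d B ρ : ℕ} (S : Shp u v d B ρ) (hu : 0 < u)
    (hK : ∀ k : ℕ, 0 < k → k ≤ B → (k : K) ≠ 0)
    {W : Finset (ℕ × ℕ)} (hbase : RkS 𝓘 (↑W : Set (ℕ × ℕ)) W.card)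
    {δ : ℝ} (hδ : δ = (u : ℝ) / v) {σ : ℝ} (hσ : ReachR δ σ)
    (hW : ∀ p : ℕ × ℕ, (p.1 : ℝ) + σ * p.2 ≤
      (2 * (d : ℝ) + 3 - δ + (5 * (v : ℝ) ^ 2 / 4 + 12) / δ) / 2 * Real.sqrt σ → p ∈ W) :
    RkS 𝓘 (Tset d) (Tfin d).card := by
  obtain ⟨M₂, M₃, r2, r3, hc, -, hup, -, himp⟩ := shapesR hCX hM1 hM2 h𝓘 S hK
  rw [← hδ] at hup
  have hvR : (0 : ℝ) < v := by exact_mod_cast S.hv
  have hδ0 : 0 < δ := by
    rw [hδ]
    have : (0 : ℝ) < u := by exact_mod_cast hu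
    positivity
  refine himp _ ?_
  rw [← hc]
  obtain ⟨M', h3, h4, h5, h6⟩ := reachR_chain h𝓘 hδ0 hK r3 hup hσ
  refine h6 (hbase.subset ?_)
  have hσ0 : 0 < σ := hσ.pos hδ0
  have hs0 : 0 < Real.sqrt σ := Real.sqrt_pos.2 hσ0
  have hss : Real.sqrt σ * Real.sqrt σ = σ := Real.mul_self_sqrt hσ0.le
  rintro ⟨i, l⟩ hp
  have h7 := h5 _ hp
  simp only at h7
  refine hW _ ?_
  simp only
  have h9 : (δ / Real.sqrt σ * (i : ℝ) + δ * Real.sqrt σ * (l : ℝ)) * (Real.sqrt σ / δ) =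
      i + σ * l := by
    field_simp
    rw [pow_two, hss]
    ring
  rw [← h9]
  have h11 : (2 * (d : ℝ) + 3 - δ + (5 * (v : ℝ) ^ 2 / 4 + 12) / δ) / 2 * Real.sqrt σ =
      (δ * (2 * d + 3 - δ) / 2 + 5 * (v : ℝ) ^ 2 / 8 + 6) * (Real.sqrt σ / δ) := by
    field_simp
    ring
  rw [h11]
  exact mul_le_mul_of_nonneg_right h7 (by positivity)

theorem lower_rankR (hCX : P_CX) (hM1 : P_M1) (hM2 : P_M2) {𝓘 : Set (Ideal K[X][X])}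
    (h𝓘 : Stable 𝓘) {u v d B ρ : ℕ} (S : Shp u v d B ρ) (hu : 0 < u)
    (hK : ∀ k : ℕ, 0 < k → k ≤ B → (k : K) ≠ 0)
    {W : Finset (ℕ × ℕ)} (hbase : RkS 𝓘 (↑W : Set (ℕ × ℕ)) W.card)
    {δ : ℝ} (hδ : δ = (u : ℝ) / v) {σ : ℝ} (hσ : ReachR δ σ)
    (hW : ∀ p ∈ W, (p.1 : ℝ) + σ * p.2 ≤
      (2 * (d : ℝ) + 3 + δ - 2 * Real.sqrt σ - (v : ℝ) ^ 2 / δ) * Real.sqrt σ / 2) :
    RkS 𝓘 (Tset d) W.card := by
  obtain ⟨M₂, M₃, r2, r3, -, hlo, -, himp, -⟩ := shapesR hCX hM1 hM2 h𝓘 S hK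
  rw [← hδ] at hlo
  have hvR : (0 : ℝ) < v := by exact_mod_cast S.hv
  have hδ0 : 0 < δ := by
    rw [hδ]
    have : (0 : ℝ) < u := by exact_mod_cast hu
    positivity
  refine himp _ ?_
  obtain ⟨M', h3, h5, h6⟩ := reachR_lower h𝓘 hδ0 hK r2 (n := W.card) hlo hσ
  refine h6 (hbase.mono ?_)
  have hσ0 : 0 < σ := hσ.pos hδ0
  have hs0 : 0 < Real.sqrt σ := Real.sqrt_pos.2 hσ0
  have hss : Real.sqrt σ * Real.sqrt σ = σ := Real.mul_self_sqrt hσ0.le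
  rintro ⟨i, l⟩ hp
  rw [Finset.mem_coe] at hp
  have key := hW _ hp
  refine h5 _ ?_
  simp only at key ⊢
  have e1 : δ / Real.sqrt σ * (i : ℝ) + δ * Real.sqrt σ * (l : ℝ) =
      (δ / Real.sqrt σ) * (i + σ * l) := by
    have e0 : δ / Real.sqrt σ * (Real.sqrt σ * Real.sqrt σ * l) = δ * Real.sqrt σ * l := by
      field_simp
    rw [hss] at e0
    rw [mul_add, e0]
  have e2 : δ * (2 * d + 3 - δ) / 2 - (v : ℝ) ^ 2 / 2 - δ * (Real.sqrt σ - δ) =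
      (δ / Real.sqrt σ) *
      ((2 * (d : ℝ) + 3 + δ - 2 * Real.sqrt σ - (v : ℝ) ^ 2 / δ) * Real.sqrt σ / 2) := by
    field_simp
    ring
  rw [e1, e2]
  exact mul_le_mul_of_nonneg_left key (by positivity)

end Pool.Agent.H932R6
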