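import Mathlib
import Pool.Agent.H932R6.RanksR

set_option autoImplicit false

/-!
# Maximal rank away from the critical degree, with an arbitrarily small window
-/

namespace Pool.Agent.H932R6

open Polynomial Pool.Agent.H932R2 Pool.Agent.H932R3 Pool.Agent.H932R4

variable {K : Type*} [Field K] [Infinite K]

theorem win_upperR (hCX : P_CX) (hM1 : P_M1) (hM2 : P_M2) {n m : ℕ} (hn : 0 < n)
    {𝒞 : Set (Fin n → K)} {x : Fin n → K} (hx : x ∈ 𝒞)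
    (h𝒞 : AffInv 𝒞) {w : Fin n → ℕ} (hw : ∀ a, w a = m ∨ w a = m + 1) {u v d B ρ : ℕ} {δ σ : ℝ}
    (hu : 0 < u) (S : Shp u v d B ρ) (hδ : δ = (u : ℝ) / v) (hσ : ReachR δ σ)
    (h3 : |σ - n| ≤ 1) (h4 : ((m + 1 : ℕ) : ℝ) * |σ - n| ≤ Real.sqrt σ / (16 * δ))
    (hd : 2 * (d : ℝ) + 3 + (Real.sqrt n - δ + (2 * (v : ℝ) ^ 2 + 15) / δ)
      ≤ Real.sqrt n + 2 * (∑ a, (w a : ℝ)) / Real.sqrt n)
    (hK : ∀ k : ℕ, 0 < k → k ≤ B → (k : K) ≠ 0) :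
    RkS (wFam 𝒞 w) (Tset d) (Tfin d).card := by
  have hnR : (0 : ℝ) < n := by exact_mod_cast hn
  have hvR : (0 : ℝ) < v := by exact_mod_cast S.hv
  have huR : (0 : ℝ) < u := by exact_mod_cast hu
  have hδ0 : 0 < δ := by
    rw [hδ]
    positivity
  have hσ0 : 0 < σ := hσ.pos hδ0
  have hs0 : 0 < Real.sqrt n := Real.sqrt_pos.2 hnR
  have hτ0 : 0 < Real.sqrt σ := Real.sqrt_pos.2 hσ0
  have hss : Real.sqrt n * Real.sqrt n = n := Real.mul_self_sqrt hnR.le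
  have hττ : Real.sqrt σ * Real.sqrt σ = σ := Real.mul_self_sqrt hσ0.le
  push_cast at h4
  have hS0 : 0 ≤ ∑ a, (w a : ℝ) := Finset.sum_nonneg fun _ _ => Nat.cast_nonneg _
  have hcc : (5 * (v : ℝ) ^ 2 / 4 + 12) / δ + 3 / δ ≤ (2 * (v : ℝ) ^ 2 + 15) / δ := by
    rw [← add_div]
    refine div_le_div_of_nonneg_right ?_ hδ0.le
    have : 0 ≤ (v : ℝ) ^ 2 := sq_nonneg _
    linarith
  have key := win_ineq_upper (g := |σ - n|) (m := m) (δ := δ)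
    (d := (d : ℝ) + (5 * (v : ℝ) ^ 2 / 4 + 12) / δ / 2)
    (X := (2 * (d : ℝ) + 3 - δ + (5 * (v : ℝ) ^ 2 / 4 + 12) / δ) / 2 * Real.sqrt σ) hs0 hτ0 hδ0
    (by rw [hττ, hss]) hS0 (by rw [hss]; exact sum_near_le hw) (Nat.cast_nonneg m) h4
    (by linarith) (by ring)
  obtain ⟨m', hm1, ⟨a₀, ha⟩, hm2⟩ : ∃ m', (∀ a, m' ≤ w a) ∧ (∃ a₀, w a₀ = m') ∧ m' ≤ m + 1 := by
    by_cases h : ∃ a, w a = m
    · exact ⟨m, fun a => by rcases hw a with h' | h' <;> omega, h, by omega⟩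
    · push Not at h
      have hall : ∀ a, w a = m + 1 := fun a => (hw a).resolve_left (h a)
      exact ⟨m + 1, fun a => (hall a).ge, ⟨⟨0, hn⟩, hall _⟩, le_rfl⟩
  have hm2' : (m' : ℝ) ≤ m + 1 := by exact_mod_cast hm2
  have habs1 := le_abs_self (σ - n)
  have habs2 := neg_abs_le (σ - n)
  have habs0 := abs_nonneg (σ - n)
  have hm0 : (0 : ℝ) ≤ m := Nat.cast_nonneg m
  have hm'0 : (0 : ℝ) ≤ m' := Nat.cast_nonneg m'
  refine upper_rankR hCX hM1 hM2 (wFam_stable h𝒞 w) S hu hK (W := Ww w) (base_Ww hx w) hδ hσ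
    (Ww_upper hm1 ha (by linarith) ?_ ?_)
  · have : 0 ≤ ((m : ℝ) + 1) * |σ - n| := by positivity
    linarith
  · have h5 : (n - σ) * m' ≤ |σ - n| * m' := mul_le_mul_of_nonneg_right (by linarith) hm'0
    have h6 : |σ - n| * m' ≤ |σ - n| * (m + 1) := mul_le_mul_of_nonneg_left hm2' habs0
    linarith

theorem win_lowerR (hCX : P_CX) (hM1 : P_M1) (hM2 : P_M2) {n m : ℕ} (hn : 81 ≤ n)
    {𝒞 : Set (Fin n → K)} {x : Fin n → K} (hx : x ∈ 𝒞)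
    (h𝒞 : AffInv 𝒞) {w : Fin n → ℕ} (hw : ∀ a, w a = m ∨ w a = m + 1) {u v d B ρ : ℕ} {δ σ : ℝ}
    (hu : 0 < u) (S : Shp u v d B ρ) (hδ : δ = (u : ℝ) / v) (hδ9 : 9 ≤ δ) (hσ : ReachR δ σ)
    (h3 : |σ - n| ≤ 1) (h4 : ((m + 1 : ℕ) : ℝ) * |σ - n| ≤ Real.sqrt σ / (16 * δ))
    (hd : Real.sqrt n + 2 * (∑ a, (w a : ℝ)) / Real.sqrt n +
      (Real.sqrt n - δ + (2 * (v : ℝ) ^ 2 + 15) / δ) ≤ 2 * (d : ℝ) + 3)
    (hK : ∀ k : ℕ, 0 < k → k ≤ B → (k : K) ≠ 0) :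
    RkS (wFam 𝒞 w) (Tset d) (∑ a, (w a + 1).choose 2) := by
  have hnR : (81 : ℝ) ≤ n := by exact_mod_cast hn
  have hvR : (0 : ℝ) < v := by exact_mod_cast S.hv
  have huR : (0 : ℝ) < u := by exact_mod_cast hu
  have hδ0 : 0 < δ := by linarith
  have hσ0 : 0 < σ := hσ.pos hδ0
  have hs9 : 9 ≤ Real.sqrt n := Real.le_sqrt_of_sq_le (by norm_num; linarith)
  have hτ0 : 0 < Real.sqrt σ := Real.sqrt_pos.2 hσ0
  have hss : Real.sqrt n * Real.sqrt n = n := Real.mul_self_sqrt (by linarith)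
  have hττ : Real.sqrt σ * Real.sqrt σ = σ := Real.mul_self_sqrt hσ0.le
  push_cast at h4
  have hS0 : 0 ≤ ∑ a, (w a : ℝ) := Finset.sum_nonneg fun _ _ => Nat.cast_nonneg _
  have hcc : ((v : ℝ) ^ 2 - 2) / δ + 3 / δ ≤ (2 * (v : ℝ) ^ 2 + 15) / δ := by
    rw [← add_div]
    refine div_le_div_of_nonneg_right ?_ hδ0.le
    have : 0 ≤ (v : ℝ) ^ 2 := sq_nonneg _
    linarith
  have e2 : (v : ℝ) ^ 2 / δ = ((v : ℝ) ^ 2 - 2) / δ + 2 / δ := by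
    rw [← add_div]
    ring
  have key := win_ineq_lower (g := |σ - n|) (m := m) (δ := δ)
    (d := (d : ℝ) - ((v : ℝ) ^ 2 - 2) / δ / 2)
    (Y := (2 * (d : ℝ) + 3 + δ - 2 * Real.sqrt σ - (v : ℝ) ^ 2 / δ) * Real.sqrt σ / 2) hs9 hτ0
    hδ9 (by rw [hττ, hss]) h3 hS0 (by rw [hss]; exact sum_near_le hw) (Nat.cast_nonneg m) h4
    (by linarith) (by rw [e2]; ring)
  have habs1 := le_abs_self (σ - n)
  have habs0 := abs_nonneg (σ - n)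
  have hm0 : (0 : ℝ) ≤ m := Nat.cast_nonneg m
  rw [← card_Ww]
  refine lower_rankR hCX hM1 hM2 (wFam_stable h𝒞 w) S hu hK (W := Ww w) (base_Ww hx w) hδ hσ
    (Ww_lower hw ?_ ?_)
  · have : 0 ≤ ((m : ℝ) + 1) * |σ - n| := by positivity
    linarith
  · have h5 : (σ - n) * m ≤ |σ - n| * (m + 1) := by
      calc (σ - n) * m ≤ |σ - n| * m := mul_le_mul_of_nonneg_right habs1 hm0
        _ ≤ |σ - n| * (m + 1) := mul_le_mul_of_nonneg_left (by linarith) habs0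
    linarith

end Pool.Agent.H932R6
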