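import Mathlib
import Pool.Agent.H932R6.Stubs

set_option autoImplicit false

/-!
# The third block (task BL3 of helper932)
-/

namespace Pool.Agent.H932R6.BL3h

open Polynomial Pool.Agent.H932R2 Pool.Agent.H932R3 Pool.Agent.H932R4

theorem pick {B : ℕ} {x R Q U V p T : ℝ} (H : Num x R Q U V) (hx : x = B) (hp : Q ≤ p)
    (hpr : p + 8 * x ^ 6 ≤ R) (hT1 : -(6.9 * (R * U)) ≤ T) (hT2 : T ≤ -(4.7 * (R * U))) :
    ∃ β : ℕ, β ≤ B ^ 6 ∧ 1 ≤ β ∧ -(4.7 * (R * U)) ≤ T + Eb β p ∧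
      T + Eb β p ≤ -(3.9 * (R * U)) := by
  obtain ⟨x1, xR, Rx, Q0, QR, QR2, U0, V0, UV, a6, a8, a12, a18, a41, up3, up4, lo3, lo4⟩ := H
  clear up4 lo4
  have hx0 : 0 < x := by linarith
  have hp0 : 0 < p := by linarith
  have hp1 : 1 ≤ p := by linarith
  have hRU : 0 < R * U := by
    have : 0 < R := by linarith
    positivity
  have h12U : x ^ 12 * U ≤ 0.000001 * (R * U) := by
    calc x ^ 12 * U ≤ (0.000001 * R) * U := mul_le_mul_of_nonneg_right (by linarith) U0.le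
      _ = 0.000001 * (R * U) := by ring
  have h12U0 : 0 < x ^ 12 * U := by positivity
  have hB1 : 1 ≤ B := by
    have : (1 : ℝ) ≤ B := by rw [← hx]; linarith
    exact_mod_cast this
  obtain ⟨β1, hβ1, h1a, h1b⟩ := greedy_le (f := fun β : ℕ => Eb β p)
    (q := 50 * x ^ 12 * U) (L := -T - 3.9 * (R * U)) (by positivity) (B ^ 6) (by
      show Eb 0 p ≤ _
      rw [Eb_zero]
      linarith) (by
      have h1 := (Eb_bounds (β := B ^ 6) (Nat.one_le_pow _ _ (by omega)) hp0).1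
      refine le_trans ?_ h1
      push_cast
      rw [← hx]
      have h2 : gb (x ^ 6) = 16 * x ^ 18 - 4 * x ^ 6 := by rw [gb_eq]; ring
      rw [h2]
      refine le_trans ?_ (lo3 _ _ (by linarith) (by positivity) (by linarith))
      have h3 : (4.7 * R) * U ≤ (16 * x ^ 18 - 4 * x ^ 6) * U :=
        mul_le_mul_of_nonneg_right (by linarith) U0.le
      linarith) (by
      intro i hi
      refine (Eb_step (N := B ^ 6) (by omega) hp1).trans ?_
      push_cast
      rw [← hx]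
      refine (up3 _ _ (by positivity) hp).trans ?_
      have h1 : 384 * (x ^ 6) ^ 4 / p ≤ 768 * x ^ 6 := by
        rw [div_le_iff₀ hp0]
        have : x ^ 18 ≤ 2 * p := by linarith
        calc 384 * (x ^ 6) ^ 4 = 384 * x ^ 6 * x ^ 18 := by ring
          _ ≤ 384 * x ^ 6 * (2 * p) := mul_le_mul_of_nonneg_left this (by positivity)
          _ = 768 * x ^ 6 * p := by ring
      have h2 : (x ^ 6) ^ 2 = x ^ 12 := by ring
      rw [h2]
      exact mul_le_mul_of_nonneg_right (by linarith) U0.le)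
  have hβ1pos : 1 ≤ β1 := by
    by_contra hcon
    have : β1 = 0 := by omega
    rw [this, Eb_zero] at h1a
    linarith
  exact ⟨β1, hβ1, hβ1pos, by linarith, by linarith⟩

end Pool.Agent.H932R6.BL3h

namespace Pool.Agent.H932R6

open Polynomial Pool.Agent.H932R2 Pool.Agent.H932R3 Pool.Agent.H932R4

theorem T_BL3 : P_BL3 := by
  intro δ r P E B p T C hB hBr hrB hPr hp hm hr h hT1 hT2
  have hP0 := C.P0
  have hr0 := C.r0
  have hBR : (1000 : ℝ) ≤ B := by exact_mod_cast hB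
  have H := num_of (x := (B : ℝ)) (R := (r : ℝ)) (Q := (P : ℝ)) hBR (by exact_mod_cast hBr)
    (by exact_mod_cast hrB) hP0 (by exact_mod_cast C.pr) hPr
  have hR2 : ∀ c : ℝ, c / (r : ℝ) ^ 2 = c * (r * (1 / (r : ℝ) ^ 3)) := by
    intro c
    field_simp
  obtain ⟨β, hb, hb1, h1, h2⟩ := BL3h.pick (p := (p : ℝ)) (T := T) H rfl (by exact_mod_cast hp)
    (by exact_mod_cast hr) (by rw [← hR2]; exact hT1) (by rw [← hR2]; exact hT2)
  rw [← hR2] at h1 h2
  have n18 : 4 * B ^ 6 ≤ P := by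
    have h1 := H.QR2
    have h2 : (4 * (B : ℝ) ^ 6) ≤ P := by
      linarith [H.a8, H.a12, H.a18, H.xR, pow_nonneg (show (0 : ℝ) ≤ B by linarith) 6]
    exact_mod_cast h2
  have hr221 : (221 : ℝ) ≤ r := by
    linarith [H.a6, H.a8, H.a12, H.a18, H.xR, H.a41]
  have hTb : |T| ≤ 1 / (32 * (r : ℝ)) := by
    have h3 : 6.9 / (r : ℝ) ^ 2 ≤ 1 / (32 * (r : ℝ)) := by
      rw [div_le_div_iff₀ (by positivity) (by positivity)]
      nlinarith
    have h4 : 0 < 4.7 / (r : ℝ) ^ 2 := by positivity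
    rw [abs_le]
    constructor <;> linarith
  refine ⟨p + 8 * β, T + Eb β p, by omega, by omega, by omega, ?_, h1, h2⟩
  exact RS.stepE C.hδ C.hP C.sm hp (by omega) hm hTb hb1 (by omega) h

end Pool.Agent.H932R6
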