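import Mathlib
import Pool.Agent.H932R6.Stubs

set_option autoImplicit false

namespace Pool.Agent.H932R6

open Polynomial Pool.Agent.H932R2 Pool.Agent.H932R3 Pool.Agent.H932R4

theorem T_CLEAN : P_CLEAN := by
  intro M ρ h σ V hκ2 hκ3 hM p hp
  obtain ⟨i, q⟩ := p
  have hq := mem_cY hp
  obtain ⟨c, hc⟩ : ∃ c : ℕ, c = i + ρ * q := ⟨_, rfl⟩
  rw [← hc] at hq
  obtain ⟨κ, hκ⟩ : ∃ κ : ℝ, κ = σ - ρ := ⟨_, rfl⟩
  rw [← hκ] at hκ2 hκ3
  have hκ0 : 0 < κ := by linarith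
  have hrow : ∀ l ∈ lineRows ρ M c, ((c : ℝ) + κ * l ≤ V) ∨ ((l = h ∨ l = h + 1) ∧ (c : ℝ) ≤ V) := by
    intro l hl
    rw [mem_lineRows] at hl
    obtain ⟨h1, h2⟩ := hl
    have h3 : ((c - ρ * l : ℕ) : ℝ) = (c : ℝ) - ρ * l := by
      rw [Nat.cast_sub h1]; push_cast; ring
    rcases hM _ h2 with h4 | ⟨h4, h5⟩
    · left
      simp only at h4
      rw [h3] at h4
      rw [hκ]
      linarith
    · right
      simp only at h4 h5
      rw [h3] at h5
      exact ⟨h4, by linarith⟩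
  have hcV : (c : ℝ) ≤ V := by
    have hne : (lineRows ρ M c).Nonempty := Finset.card_pos.1 (by omega)
    obtain ⟨l, hl⟩ := hne
    rcases hrow l hl with h1 | h1
    · have : 0 ≤ κ * (l : ℝ) := by positivity
      linarith
    · exact h1.2
  have hsub : lineRows ρ M c ⊆ Finset.range (⌊(V - c) / κ⌋₊ + 1) ∪ {h, h + 1} := by
    intro l hl
    rw [Finset.mem_union]
    rcases hrow l hl with h1 | h1
    · left
      rw [Finset.mem_range, Nat.lt_succ_iff]
      apply Nat.le_floor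
      rw [le_div_iff₀ hκ0]
      linarith
    · right
      rw [Finset.mem_insert, Finset.mem_singleton]
      exact h1.1
  have hcard : (lineRows ρ M c).card ≤ ⌊(V - c) / κ⌋₊ + 1 + 2 := by
    refine (Finset.card_le_card hsub).trans ((Finset.card_union_le _ _).trans ?_)
    rw [Finset.card_range]
    exact Nat.add_le_add_left Finset.card_le_two _
  have hfl : (⌊(V - c) / κ⌋₊ : ℝ) ≤ (V - c) / κ :=
    Nat.floor_le (div_nonneg (by linarith) hκ0.le)
  have hqr : (q : ℝ) ≤ (V - c) / κ + 2 := by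
    have h1 : q ≤ ⌊(V - c) / κ⌋₊ + 2 := by omega
    have h2 : (q : ℝ) ≤ (⌊(V - c) / κ⌋₊ : ℝ) + 2 := by exact_mod_cast h1
    linarith
  have hmul : κ * q ≤ (V - c) + 2 * κ := by
    have h1 := mul_le_mul_of_nonneg_left hqr hκ0.le
    rw [mul_add, mul_div_cancel₀ _ hκ0.ne'] at h1
    linarith
  have hcr : (c : ℝ) = i + ρ * q := by rw [hc]; push_cast; ring
  show (i : ℝ) + σ * q ≤ V + 6
  have hσ : σ = κ + ρ := by rw [hκ]; ring
  rw [hσ]
  nlinarith

end Pool.Agent.H932R6
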