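import Mathlib
import Pool.Agent.H932R6.Stubs

set_option autoImplicit false

namespace Pool.Agent.H932R6

open Polynomial Pool.Agent.H932R2 Pool.Agent.H932R3 Pool.Agent.H932R4

namespace CXh

theorem mem_rowOf {M : Finset (ℕ × ℕ)} {l : ℕ} {p : ℕ × ℕ} :
    p ∈ rowOf M l ↔ p ∈ M ∧ p.2 = l := by
  unfold rowOf
  rw [Finset.mem_filter]

theorem mem_cX (M : Finset (ℕ × ℕ)) (i l : ℕ) :
    ((i, l) : ℕ × ℕ) ∈ cX M ↔ i < (rowOf M l).card := by
  unfold cX
  rw [mem_rowsF]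
  refine ⟨fun h => h.2, fun h => ⟨?_, h⟩⟩
  have h1 : (rowOf M l).Nonempty := Finset.card_pos.1 (by omega)
  obtain ⟨p, hp⟩ := h1
  rw [mem_rowOf] at hp
  have h2 := Finset.le_sup (f := Prod.snd) hp.1
  rw [hp.2] at h2
  omega

theorem card_cX (M : Finset (ℕ × ℕ)) : (cX M).card = M.card := by
  unfold cX
  rw [card_rowsF]
  refine (Finset.card_eq_sum_card_fiberwise (f := Prod.snd) fun p hp => ?_).symm
  rw [Finset.mem_coe, Finset.mem_range, Nat.lt_succ_iff]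
  exact Finset.le_sup (f := Prod.snd) hp

theorem rowOf_mono {M M' : Finset (ℕ × ℕ)} (h : M ⊆ M') (l : ℕ) : rowOf M l ⊆ rowOf M' l := by
  intro p hp
  rw [mem_rowOf] at hp ⊢
  exact ⟨h hp.1, hp.2⟩

theorem row_inj {M : Finset (ℕ × ℕ)} {l : ℕ} {p q : ℕ × ℕ} (hp : p ∈ rowOf M l)
    (hq : q ∈ rowOf M l) (h : p.1 = q.1) : p = q := by
  rw [mem_rowOf] at hp hq
  exact Prod.ext h (hp.2.trans hq.2.symm)

end CXh

open CXh in
theorem T_CX : P_CX := by
  refine ⟨mem_cX, card_cX, ?_, ?_, ?_, ?_, ?_⟩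
  · rintro M M' h ⟨i, l⟩ hp
    rw [mem_cX] at hp ⊢
    exact hp.trans_le (Finset.card_le_card (rowOf_mono h l))
  · rintro ρ M M' h ⟨i, q⟩ hp
    refine mem_cY_of ((mem_cY hp).trans_le (Finset.card_le_card fun l hl => ?_))
    rw [mem_lineRows] at hl ⊢
    exact ⟨hl.1, h hl.2⟩
  · rintro B M hM ⟨i, l⟩ hp
    rw [mem_cX] at hp
    have h1 : (rowOf M l).Nonempty := Finset.card_pos.1 (by omega)
    obtain ⟨p, hp'⟩ := h1
    rw [mem_rowOf] at hp'
    have h2 := hM p hp'.1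
    rw [hp'.2] at h2
    exact h2
  · rintro B M hM ⟨i, l⟩ hp
    rw [mem_cX] at hp
    have h1 : (rowOf M l).card ≤ (Finset.range (B + 1)).card := by
      refine Finset.card_le_card_of_injOn Prod.fst (fun p hp' => ?_) fun p hp' q hq' h => ?_
      · rw [Finset.mem_coe, Finset.mem_range, Nat.lt_succ_iff]
        exact hM p (mem_rowOf.1 hp').1
      · exact row_inj hp' hq' h
    rw [Finset.card_range] at h1
    show i ≤ B
    omega
  · rintro B M hM ⟨i, l⟩ hp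
    have h1 : i + 1 ≤ (rowOf M l).card := (mem_cX M i l).1 (Finset.mem_coe.1 hp)
    refine ⟨fun a => ((rowOf M l).equivFin.symm (Fin.castLE h1 a) : ℕ × ℕ).1,
      fun a b hab => ?_, fun a => ?_⟩
    · exact Fin.castLE_injective h1 ((rowOf M l).equivFin.symm.injective
        (Subtype.val_injective (row_inj ((rowOf M l).equivFin.symm (Fin.castLE h1 a)).2
          ((rowOf M l).equivFin.symm (Fin.castLE h1 b)).2 hab)))
    · have h2 := mem_rowOf.1 ((rowOf M l).equivFin.symm (Fin.castLE h1 a)).2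
      refine ⟨hM _ h2.1, ?_⟩
      have h3 : ((((rowOf M l).equivFin.symm (Fin.castLE h1 a) : ℕ × ℕ).1, l) : ℕ × ℕ)
          = ((rowOf M l).equivFin.symm (Fin.castLE h1 a) : ℕ × ℕ) := Prod.ext rfl h2.2.symm
      show ((((rowOf M l).equivFin.symm (Fin.castLE h1 a) : ℕ × ℕ).1, l) : ℕ × ℕ) ∈
        (↑M : Set (ℕ × ℕ))
      rw [h3]
      exact Finset.mem_coe.2 h2.1

end Pool.Agent.H932R6
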