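import Mathlib
import Pool.Agent.H932R6.Stubs

set_option autoImplicit false

/-!
# Estimates for the first block (task F1)
-/

namespace Pool.Agent.H932R6

open Polynomial Pool.Agent.H932R2 Pool.Agent.H932R3 Pool.Agent.H932R4

namespace F1h

theorem logcomb (x s : ℝ) (hx : 0 < x) (hs : 0 < s) :
    2 * s / (x + s + 2) ^ 2 ≤
        (Real.log (x + 2) - Real.log x) - (Real.log (x + s + 2) - Real.log (x + s)) ∧
      (Real.log (x + 2) - Real.log x) - (Real.log (x + s + 2) - Real.log (x + s)) ≤
        2 * s / x ^ 2 := by
  have h1 : (Real.log (x + 2) - Real.log x) - (Real.log (x + s + 2) - Real.log (x + s)) =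
      Real.log (((x + 2) * (x + s)) / (x * (x + s + 2))) := by
    rw [Real.log_div (by positivity) (by positivity), Real.log_mul (by positivity) (by positivity),
      Real.log_mul (by positivity) (by positivity)]
    ring
  rw [h1]
  have hy : 0 < ((x + 2) * (x + s)) / (x * (x + s + 2)) := by positivity
  constructor
  · have h2 := Real.one_sub_inv_le_log_of_pos hy
    refine le_trans ?_ h2
    have h3 : 1 - (((x + 2) * (x + s)) / (x * (x + s + 2)))⁻¹ = 2 * s / ((x + 2) * (x + s)) := by
      field_simp
      ring
    rw [h3]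
    apply div_le_div_of_nonneg_left (by positivity) (by positivity)
    nlinarith [mul_pos hx hs]
  · have h2 := Real.log_le_sub_one_of_pos hy
    refine le_trans h2 ?_
    have h3 : ((x + 2) * (x + s)) / (x * (x + s + 2)) - 1 = 2 * s / (x * (x + s + 2)) := by
      field_simp
      ring
    rw [h3]
    apply div_le_div_of_nonneg_left (by positivity) (by positivity)
    nlinarith [mul_pos hx hs]

end F1h

theorem T_F1 : P_F1 := by
  intro p hp
  refine ⟨?_, ?_⟩
  · simp [f1, Ls]
  · intro j
    have hj : (0 : ℝ) ≤ j := Nat.cast_nonneg j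
    have h := F1h.logcomb (p + 2 * j + 3) (2 * j + 2) (by linarith) (by linarith)
    have e : f1 p (j + 1) - f1 p j =
        (Real.log (p + 2 * j + 3 + 2) - Real.log (p + 2 * j + 3)) -
          (Real.log (p + 2 * j + 3 + (2 * j + 2) + 2) -
            Real.log (p + 2 * j + 3 + (2 * j + 2))) := by
      unfold f1 Ls
      rw [Finset.sum_range_succ _ (j + 1)]
      push_cast
      ring_nf
    rw [e]
    refine ⟨le_trans (le_of_eq ?_) h.1, le_trans h.2 ?_⟩
    · ring_nf
    · have e2 : 2 * (2 * (j : ℝ) + 2) = 4 * (j + 1) := by ring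
      rw [e2]
      apply div_le_div_of_nonneg_left (by positivity) (by positivity)
      apply pow_le_pow_left₀ (by linarith)
      linarith

end Pool.Agent.H932R6
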