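import Mathlib
import Pool.Agent.H932R6.Stubs

set_option autoImplicit false

/-! Task F2: estimates for the second block (helper913). -/

namespace Pool.Agent.H932R6

open Polynomial Pool.Agent.H932R2 Pool.Agent.H932R3 Pool.Agent.H932R4

namespace F2h

theorem dD (x s : ℝ) (hx : 0 < x) (hs : 0 ≤ s) :
    s / (x + s + 1) ^ 2 ≤ (Real.log (x + 1) - Real.log x) -
      (Real.log (x + s + 1) - Real.log (x + s)) ∧
    (Real.log (x + 1) - Real.log x) - (Real.log (x + s + 1) - Real.log (x + s)) ≤ s / x ^ 2 := by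
  have hu : 0 < (x + 1) * (x + s) := by positivity
  have hv : 0 < x * (x + s + 1) := by positivity
  have h1 : (Real.log (x + 1) - Real.log x) - (Real.log (x + s + 1) - Real.log (x + s)) =
      Real.log ((x + 1) * (x + s)) - Real.log (x * (x + s + 1)) := by
    rw [Real.log_mul (by positivity) (by positivity), Real.log_mul (by positivity) (by positivity)]
    ring
  rw [h1]
  constructor
  · have h2 : Real.log (x * (x + s + 1)) - Real.log ((x + 1) * (x + s)) ≤
        x * (x + s + 1) / ((x + 1) * (x + s)) - 1 := by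
      rw [← Real.log_div hv.ne' hu.ne']
      exact Real.log_le_sub_one_of_pos (by positivity)
    have h3 : x * (x + s + 1) / ((x + 1) * (x + s)) - 1 = -(s / ((x + 1) * (x + s))) := by
      field_simp
      ring
    have h4 : s / (x + s + 1) ^ 2 ≤ s / ((x + 1) * (x + s)) := by
      apply div_le_div_of_nonneg_left hs hu
      nlinarith [mul_nonneg hs hs]
    linarith
  · have h2 : Real.log ((x + 1) * (x + s)) - Real.log (x * (x + s + 1)) ≤
        (x + 1) * (x + s) / (x * (x + s + 1)) - 1 := by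
      rw [← Real.log_div hu.ne' hv.ne']
      exact Real.log_le_sub_one_of_pos (by positivity)
    have h3 : (x + 1) * (x + s) / (x * (x + s + 1)) - 1 = s / (x * (x + s + 1)) := by
      field_simp
      ring
    have h4 : s / (x * (x + s + 1)) ≤ s / x ^ 2 := by
      apply div_le_div_of_nonneg_left hs (by positivity)
      nlinarith
    linarith

theorem inv_sq (x y : ℝ) (hx : 0 < x) (hy : 0 ≤ y) :
    1 / x ^ 2 - 1 / (x + y) ^ 2 ≤ 2 * y / x ^ 3 := by
  have h1 : 1 / x ^ 2 - 1 / (x + y) ^ 2 = (2 * x * y + y ^ 2) / (x ^ 2 * (x + y) ^ 2) := by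
    field_simp
    ring
  rw [h1, div_le_div_iff₀ (by positivity) (by positivity)]
  have h2 : (2 * x * y + y ^ 2) * x ^ 3 ≤ 2 * y * (x ^ 2 * (x * (x + y))) := by
    nlinarith [mul_nonneg hy (pow_pos hx 3).le, mul_nonneg (mul_nonneg hy hy) (pow_pos hx 3).le]
  have h3 : 2 * y * (x ^ 2 * (x * (x + y))) ≤ 2 * y * (x ^ 2 * (x + y) ^ 2) := by
    apply mul_le_mul_of_nonneg_left _ (by positivity)
    apply mul_le_mul_of_nonneg_left _ (by positivity)
    nlinarith
  linarith

end F2h

theorem T_F2 : P_F2 := by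
  intro p hp
  have hp0 : 0 < p := by linarith
  refine ⟨?_, fun α hα => ?_⟩
  · unfold f2 f1
    norm_num
    congr 1
    ring
  have ha : (1 : ℝ) ≤ (α : ℝ) := by exact_mod_cast hα
  set a : ℝ := (α : ℝ) with hadef
  have hstep : f2 p (α + 1) - f2 p α =
      ((Real.log (p + 3 * a + 2 + 1) - Real.log (p + 3 * a + 2)) -
        (Real.log (p + 3 * a + 2 + (a + 3) + 1) - Real.log (p + 3 * a + 2 + (a + 3)))) +
      ((Real.log (p + 3 * a + 3 + 1) - Real.log (p + 3 * a + 3)) -
        (Real.log (p + 3 * a + 3 + (a + 3) + 1) - Real.log (p + 3 * a + 3 + (a + 3)))) -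
      ((Real.log (p + a + 1) - Real.log (p + a)) -
        (Real.log (p + a + (2 * a + 4) + 1) - Real.log (p + a + (2 * a + 4)))) := by
    unfold f2 Ls
    rw [Finset.sum_range_succ _ (α + 1)]
    push_cast
    have e1 : p + 3 * (a + 1) + 2 = p + 3 * a + 5 := by ring
    have e2 : p + (a + 1) = p + a + 1 := by ring
    have e3 : p + 4 * (a + 1) + 3 = p + 4 * a + 7 := by ring
    have e4 : p + 4 * (a + 1) + 1 = p + 4 * a + 5 := by ring
    have e5 : p + 3 * a + 2 + 1 = p + 3 * a + 3 := by ring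
    have e6 : p + 3 * a + 2 + (a + 3) + 1 = p + 4 * a + 6 := by ring
    have e7 : p + 3 * a + 2 + (a + 3) = p + 4 * a + 5 := by ring
    have e8 : p + 3 * a + 3 + 1 = p + 3 * a + 4 := by ring
    have e9 : p + 3 * a + 3 + (a + 3) + 1 = p + 4 * a + 7 := by ring
    have e10 : p + 3 * a + 3 + (a + 3) = p + 4 * a + 6 := by ring
    have e11 : p + a + (2 * a + 4) + 1 = p + 3 * a + 5 := by ring
    have e12 : p + a + (2 * a + 4) = p + 3 * a + 4 := by ring
    simp only [← hadef]
    rw [e6, e7, e9, e10, e11, e12, e5, e8]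
    simp only [e1, e2, e3, e4]
    ring
  obtain ⟨A1, A2⟩ := F2h.dD (p + 3 * a + 2) (a + 3) (by positivity) (by positivity)
  obtain ⟨B1, B2⟩ := F2h.dD (p + 3 * a + 3) (a + 3) (by positivity) (by positivity)
  obtain ⟨C1, C2⟩ := F2h.dD (p + a) (2 * a + 4) (by positivity) (by positivity)
  rw [hstep]
  have hp3 : 0 < p ^ 3 := by positivity
  constructor
  · -- lower bound
    have hA : (a + 3) / (p + 4 * a + 7) ^ 2 ≤ (a + 3) / (p + 3 * a + 2 + (a + 3) + 1) ^ 2 := by
      apply div_le_div_of_nonneg_left (by positivity) (by positivity)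
      apply pow_le_pow_left₀ (by positivity)
      linarith
    have hB : (a + 3) / (p + 4 * a + 7) ^ 2 ≤ (a + 3) / (p + 3 * a + 3 + (a + 3) + 1) ^ 2 := by
      apply div_le_div_of_nonneg_left (by positivity) (by positivity)
      apply pow_le_pow_left₀ (by positivity)
      linarith
    have h1 := F2h.inv_sq p (4 * a + 7) hp0 (by positivity)
    have h2 := F2h.inv_sq (p + a) (3 * a + 7) (by positivity) (by positivity)
    rw [show p + a + (3 * a + 7) = p + 4 * a + 7 by ring] at h2
    rw [show p + (4 * a + 7) = p + 4 * a + 7 by ring] at h1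
    have h3 : 2 * (3 * a + 7) / (p + a) ^ 3 ≤ 2 * (3 * a + 7) / p ^ 3 := by
      apply div_le_div_of_nonneg_left (by positivity) (by positivity)
      apply pow_le_pow_left₀ (by positivity)
      linarith
    have h4 : (2 * a + 4) * (1 / (p + a) ^ 2 - 1 / (p + 4 * a + 7) ^ 2) ≤
        (2 * a + 4) * (2 * (3 * a + 7) / p ^ 3) :=
      mul_le_mul_of_nonneg_left (h2.trans h3) (by positivity)
    have h5 : 2 * (2 * (4 * a + 7) / p ^ 3) + (2 * a + 4) * (2 * (3 * a + 7) / p ^ 3) ≤
        200 * a ^ 2 / p ^ 3 := by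
      have : 2 * (2 * (4 * a + 7) / p ^ 3) + (2 * a + 4) * (2 * (3 * a + 7) / p ^ 3) =
          (2 * (2 * (4 * a + 7)) + (2 * a + 4) * (2 * (3 * a + 7))) / p ^ 3 := by ring
      rw [this]
      apply div_le_div_of_nonneg_right _ hp3.le
      nlinarith
    have e1 : (a + 3) / (p + 4 * a + 7) ^ 2 + (a + 3) / (p + 4 * a + 7) ^ 2 -
        (2 * a + 4) / (p + a) ^ 2 = 2 * (1 / (p + 4 * a + 7) ^ 2) -
        (2 * a + 4) * (1 / (p + a) ^ 2 - 1 / (p + 4 * a + 7) ^ 2) := by ring
    have e2 : 2 / p ^ 2 = 2 * (1 / p ^ 2) := by ring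
    rw [e2]
    linarith
  · have hA : (a + 3) / (p + 3 * a + 3) ^ 2 ≤ (a + 3) / (p + 3 * a + 2) ^ 2 := by
      apply div_le_div_of_nonneg_left (by positivity) (by positivity)
      apply pow_le_pow_left₀ (by positivity)
      linarith
    have h1 := F2h.inv_sq (p + 3 * a + 2) 3 (by positivity) (by norm_num)
    rw [show p + 3 * a + 2 + 3 = p + a + (2 * a + 4) + 1 by ring] at h1
    have h3 : (2 : ℝ) * 3 / (p + 3 * a + 2) ^ 3 ≤ 2 * 3 / p ^ 3 := by
      apply div_le_div_of_nonneg_left (by positivity) (by positivity)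
      apply pow_le_pow_left₀ (by positivity)
      linarith
    have h4 : (2 * a + 4) * (1 / (p + 3 * a + 2) ^ 2 - 1 / (p + a + (2 * a + 4) + 1) ^ 2) ≤
        (2 * a + 4) * (2 * 3 / p ^ 3) :=
      mul_le_mul_of_nonneg_left (h1.trans h3) (by positivity)
    have h5 : (2 * a + 4) * (2 * 3 / p ^ 3) ≤ 200 * a ^ 2 / p ^ 3 := by
      have : (2 * a + 4) * (2 * 3 / p ^ 3) = ((2 * a + 4) * (2 * 3)) / p ^ 3 := by ring
      rw [this]
      apply div_le_div_of_nonneg_right _ hp3.le
      nlinarith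
    have h6 : 1 / (p + 3 * a + 2) ^ 2 ≤ 1 / p ^ 2 := by
      apply div_le_div_of_nonneg_left (by positivity) (by positivity)
      apply pow_le_pow_left₀ (by positivity)
      linarith
    have e1 : (a + 3) / (p + 3 * a + 2) ^ 2 + (a + 3) / (p + 3 * a + 2) ^ 2 -
        (2 * a + 4) / (p + a + (2 * a + 4) + 1) ^ 2 = 2 * (1 / (p + 3 * a + 2) ^ 2) +
        (2 * a + 4) * (1 / (p + 3 * a + 2) ^ 2 - 1 / (p + a + (2 * a + 4) + 1) ^ 2) := by ring
    have e2 : 2 / p ^ 2 = 2 * (1 / p ^ 2) := by ring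
    rw [e2]
    linarith

end Pool.Agent.H932R6
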