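import Mathlib
import Pool.Agent.H932R6.Stubs

set_option autoImplicit false

namespace Pool.Agent.H932R6

open Polynomial Pool.Agent.H932R2 Pool.Agent.H932R3 Pool.Agent.H932R4

namespace FFh

/-- The sum without the minimum. -/
def GG (g X : ℕ) : ℕ := ∑ j ∈ Finset.range X, (X - g * j)

theorem ext_sum {g X N : ℕ} (hg : 0 < g) (hN : X ≤ N) :
    ∑ j ∈ Finset.range N, (X - g * j) = GG g X := by
  unfold GG
  symm
  apply Finset.sum_subset
  · intro j hj
    simp only [Finset.mem_range] at hj ⊢
    omega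
  · intro j _ hj
    simp only [Finset.mem_range, not_lt] at hj
    have : j ≤ g * j := Nat.le_mul_of_pos_left j hg
    omega

theorem FF_add {u g X : ℕ} (hg : 0 < g) : FF u g X + GG g (X - u) = GG g X := by
  rw [← ext_sum (g := g) (X := X - u) (N := X) hg (Nat.sub_le _ _)]
  unfold FF GG
  rw [← Finset.sum_add_distrib]
  apply Finset.sum_congr rfl
  intro j _
  generalize g * j = a
  omega

theorem GG_step {g X : ℕ} (hg : 0 < g) : GG g (X + g) = X + g + GG g X := by
  obtain ⟨N, hN⟩ : ∃ N, X + g = N + 1 := ⟨X + g - 1, by omega⟩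
  have h1 : GG g (X + g) = ∑ j ∈ Finset.range (N + 1), (X + g - g * j) := by
    unfold GG
    rw [hN]
  rw [h1, Finset.sum_range_succ']
  have h2 : ∑ j ∈ Finset.range N, (X + g - g * (j + 1)) = ∑ j ∈ Finset.range N, (X - g * j) := by
    apply Finset.sum_congr rfl
    intro j _
    rw [Nat.mul_add, Nat.mul_one]
    omega
  rw [h2, ext_sum hg (by omega)]
  simp
  omega

theorem GG_small {g X : ℕ} (hX : X < g) : GG g X = X := by
  unfold GG
  rcases X with _ | X
  · simp
  · rw [Finset.sum_range_succ']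
    have h2 : ∑ j ∈ Finset.range X, (X + 1 - g * (j + 1)) = 0 := by
      apply Finset.sum_eq_zero
      intro j _
      rw [Nat.mul_add, Nat.mul_one]
      omega
    rw [h2]
    simp

theorem GG_formula (g : ℕ) (hg : 0 < g) (X : ℕ) : ∃ r s : ℕ, r + s = g ∧
    (g = 1 → r * s = 0) ∧ 2 * g * GG g X = X ^ 2 + g * X + r * s := by
  induction X using Nat.strong_induction_on with
  | _ X ih =>
    rcases lt_or_ge X g with h | h
    · refine ⟨X, g - X, by omega, ?_, ?_⟩
      · intro h1
        have : X = 0 := by omega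
        rw [this]; simp
      · rw [GG_small h]
        obtain ⟨y, rfl⟩ : ∃ y, g = X + y := ⟨g - X, by omega⟩
        rw [Nat.add_sub_cancel_left]
        ring
    · obtain ⟨Y, rfl⟩ : ∃ Y, X = Y + g := ⟨X - g, by omega⟩
      obtain ⟨r, s, h1, h2, h3⟩ := ih Y (by omega)
      refine ⟨r, s, h1, h2, ?_⟩
      rw [GG_step hg, Nat.mul_add, h3]
      ring

theorem GG_one (X : ℕ) : 2 * GG 1 X = X * (X + 1) := by
  obtain ⟨r, s, _, h2, h3⟩ := GG_formula 1 one_pos X
  rw [h2 rfl] at h3
  linarith [h3]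

theorem GG_bounds (g X : ℕ) (hg : 0 < g) :
    ((X : ℝ) ^ 2 + g * X) / (2 * g) ≤ GG g X ∧
    (GG g X : ℝ) ≤ ((X : ℝ) ^ 2 + g * X) / (2 * g) + g / 8 := by
  obtain ⟨r, s, h1, _, h3⟩ := GG_formula g hg X
  have hgR : (0 : ℝ) < g := by exact_mod_cast hg
  have h1' : (r : ℝ) + s = g := by exact_mod_cast h1
  have h3' : 2 * (g : ℝ) * GG g X = (X : ℝ) ^ 2 + g * X + r * s := by exact_mod_cast h3
  have hG : (GG g X : ℝ) = ((X : ℝ) ^ 2 + g * X + r * s) / (2 * g) := by
    rw [eq_div_iff (by positivity), ← h3']; ring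
  have hrs0 : (0 : ℝ) ≤ (r : ℝ) * s := by positivity
  have hrs : (r : ℝ) * s ≤ g ^ 2 / 4 := by
    rw [← h1']; nlinarith [sq_nonneg ((r : ℝ) - s)]
  rw [hG]
  constructor
  · apply div_le_div_of_nonneg_right _ (by positivity)
    linarith
  · rw [div_le_iff₀ (by positivity), add_mul, div_mul_cancel₀ _ (by positivity)]
    nlinarith

end FFh

open FFh in
theorem T_FF : P_FF := by
  refine ⟨?_, ?_, ?_, ?_, ?_⟩
  · intro u X hu
    obtain ⟨y, rfl⟩ : ∃ y, X = u + y := ⟨X - u, by omega⟩
    have h := FF_add (u := u) (g := 1) (X := u + y) one_pos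
    rw [Nat.add_sub_cancel_left] at h
    have h1 := GG_one (u + y)
    have h2 := GG_one y
    have h3 : 2 * (u * (u - 1) / 2) = u * (u - 1) := by
      apply Nat.mul_div_cancel'
      rcases u with _ | u
      · simp
      · rw [Nat.add_sub_cancel]
        exact (mul_comm (u + 1) u) ▸ (Nat.even_mul_succ_self u).two_dvd
    have h4 : u * (u - 1) + u = u * u := by
      rcases u with _ | u
      · simp
      · rw [Nat.add_sub_cancel]; ring
    have h5 : 2 * FF u 1 (u + y) + y * (y + 1) = (u + y) * (u + y + 1) := by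
      rw [← h1, ← h2, ← h]; ring
    have h6 : 2 * (FF u 1 (u + y) + u * (u - 1) / 2) = 2 * (u * (u + y)) := by
      rw [Nat.mul_add, h3]
      nlinarith
    omega
  · intro u X hX
    have h := FF_add (u := u) (g := 1) (X := X) one_pos
    have h0 : X - u = 0 := by omega
    rw [h0] at h
    have h1 : GG 1 0 = 0 := by simp [GG]
    rw [h1, Nat.add_zero] at h
    rw [h]
    exact GG_one X
  · intro u g X hg hgu
    have hgR : (0 : ℝ) < g := by exact_mod_cast hg
    rcases le_total u X with hX | hX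
    · obtain ⟨y, rfl⟩ : ∃ y, X = u + y := ⟨X - u, by omega⟩
      have h := FF_add (u := u) (g := g) (X := u + y) hg
      rw [Nat.add_sub_cancel_left] at h
      have h' : (FF u g (u + y) : ℝ) + GG g y = GG g (u + y) := by exact_mod_cast h
      have h1 := (GG_bounds g (u + y) hg).1
      have h2 := (GG_bounds g y hg).2
      push_cast at h1 h2 ⊢
      have h3 : (((u : ℝ) + y) ^ 2 + g * (u + y)) / (2 * g) - ((y : ℝ) ^ 2 + g * y) / (2 * g)
          = (u : ℝ) / g * (u + y - u / 2 + g / 2) := by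
        field_simp
        ring
      linarith
    · have h := FF_add (u := u) (g := g) (X := X) hg
      have h0 : X - u = 0 := by omega
      rw [h0] at h
      have h1 : GG g 0 = 0 := by simp [GG]
      rw [h1, Nat.add_zero] at h
      rw [h]
      have h2 := (GG_bounds g X hg).1
      have h3 : ((X : ℝ) ^ 2 + g * X) / (2 * g) - ((u : ℝ) / g * (X - u / 2 + g / 2) - g / 8)
          = ((u : ℝ) - X - g / 2) ^ 2 / (2 * g) := by
        field_simp
        ring
      have h4 : (0 : ℝ) ≤ ((u : ℝ) - X - g / 2) ^ 2 / (2 * g) := by positivity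
      linarith
  · intro u g X hg hgu hX
    have hgR : (0 : ℝ) < g := by exact_mod_cast hg
    obtain ⟨y, rfl⟩ : ∃ y, X = u + y := ⟨X - u, by omega⟩
    have h := FF_add (u := u) (g := g) (X := u + y) hg
    rw [Nat.add_sub_cancel_left] at h
    have h' : (FF u g (u + y) : ℝ) + GG g y = GG g (u + y) := by exact_mod_cast h
    have h1 := (GG_bounds g (u + y) hg).2
    have h2 := (GG_bounds g y hg).1
    push_cast at h1 h2 ⊢
    have h3 : (((u : ℝ) + y) ^ 2 + g * (u + y)) / (2 * g) - ((y : ℝ) ^ 2 + g * y) / (2 * g)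
        = (u : ℝ) / g * (u + y - u / 2 + g / 2) := by
      field_simp
      ring
    linarith
  · intro u g X hg hgu hX
    have hgR : (0 : ℝ) < g := by exact_mod_cast hg
    have h := FF_add (u := u) (g := g) (X := X) hg
    have h0 : X - u = 0 := by omega
    rw [h0] at h
    have h1 : GG g 0 = 0 := by simp [GG]
    rw [h1, Nat.add_zero] at h
    rw [h]
    have h2 := (GG_bounds g X hg).2
    have hXR : (X : ℝ) ≤ u := by exact_mod_cast hX
    have h3 : (u : ℝ) / g * (X - u / 2 + g / 2) + (u - X) ^ 2 / (2 * g)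
        - ((X : ℝ) ^ 2 + g * X) / (2 * g) = ((u : ℝ) - X) / 2 := by
      field_simp
      ring
    linarith

end Pool.Agent.H932R6
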