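import Mathlib
import Pool.Agent.H932R6.Stubs

/-! Task GV: small good denominators. -/

set_option autoImplicit false

namespace Pool.Agent.H932R6

open Polynomial Pool.Agent.H932R2 Pool.Agent.H932R3 Pool.Agent.H932R4

namespace GVh

/-- fifth root of `s^2` -/
theorem exists_root (s : ℕ) : ∃ t : ℕ, t ^ 5 ≤ s ^ 2 ∧ s ^ 2 < (t + 1) ^ 5 := by
  have hex : ∃ t : ℕ, s ^ 2 < (t + 1) ^ 5 := by
    refine ⟨s ^ 2, ?_⟩
    calc s ^ 2 < s ^ 2 + 1 := Nat.lt_succ_self _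
      _ = (s ^ 2 + 1) ^ 1 := (pow_one _).symm
      _ ≤ (s ^ 2 + 1) ^ 5 := Nat.pow_le_pow_right (by omega) (by norm_num)
  classical
  refine ⟨Nat.find hex, ?_, Nat.find_spec hex⟩
  rcases Nat.eq_zero_or_pos (Nat.find hex) with h | h
  · rw [h]; positivity
  · have := Nat.find_min hex (Nat.sub_lt h one_pos)
    have h' : Nat.find hex - 1 + 1 = Nat.find hex := by omega
    rw [h'] at this
    exact not_lt.1 this

/-- pairwise coprimality -/
theorem cop {P X i j : ℕ} (hj : j < P) (hij : i < j) :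
    Nat.Coprime ((i + 1) * (P.factorial * X) + 1) ((j + 1) * (P.factorial * X) + 1) := by
  apply Nat.coprime_mul_succ
  exact Dvd.dvd.mul_right (Nat.dvd_factorial (by omega) (by omega)) _

theorem cop' {P X i j : ℕ} (hi : i < P) (hj : j < P) (hij : i ≠ j) :
    Nat.Coprime ((i + 1) * (P.factorial * X) + 1) ((j + 1) * (P.factorial * X) + 1) := by
  rcases lt_or_gt_of_ne hij with h | h
  · exact cop hj h
  · exact (cop hi h).symm

/-- three distinct indices with the same `(k, c)` -/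
theorem pigeon (P K C s : ℕ) (v : ℕ → ℕ) (hP : K * (2 * C + 1) * 2 < P)
    (hbad : ∀ i < P, ¬ GoodV s K C (v i)) :
    ∃ i j l : ℕ, i < P ∧ j < P ∧ l < P ∧ i ≠ j ∧ i ≠ l ∧ j ≠ l ∧ ∃ (k : ℕ) (c : ℤ), 1 ≤ k ∧ k ≤ K ∧
      |c| < C ∧ (v i : ℤ) ∣ (s : ℤ) * k - c ∧ (v j : ℤ) ∣ (s : ℤ) * k - c ∧
      (v l : ℤ) ∣ (s : ℤ) * k - c := by
  classical
  have h1 : ∀ i, i < P → ∃ (k : ℕ) (c : ℤ), 1 ≤ k ∧ k ≤ K ∧ |c| < C ∧ (v i : ℤ) ∣ (s : ℤ) * k - c := by
    intro i hi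
    have h2 := hbad i hi
    unfold GoodV at h2
    push Not at h2
    obtain ⟨k, hk1, hk2, z, hz⟩ := h2
    refine ⟨k, (s : ℤ) * k - 2 * (v i) * z, hk1, hk2, hz, 2 * z, ?_⟩
    ring
  choose! k c h2 h3 h4 h5 using h1
  have hmaps : ∀ i ∈ Finset.range P, (k i, c i) ∈ (Finset.Icc 1 K) ×ˢ (Finset.Icc (-(C : ℤ)) C) := by
    intro i hi
    have hi' := Finset.mem_range.1 hi
    rw [Finset.mem_product, Finset.mem_Icc, Finset.mem_Icc]
    have := abs_lt.1 (h4 i hi')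
    exact ⟨⟨h2 i hi', h3 i hi'⟩, this.1.le, this.2.le⟩
  have hcard : ((Finset.Icc 1 K) ×ˢ (Finset.Icc (-(C : ℤ)) C)).card * 2 < (Finset.range P).card := by
    rw [Finset.card_product, Nat.card_Icc, Int.card_Icc, Finset.card_range]
    have : ((C : ℤ) + 1 - -(C : ℤ)).toNat = 2 * C + 1 := by omega
    rw [this]
    simpa using hP
  obtain ⟨y, -, hy⟩ := Finset.exists_lt_card_fiber_of_mul_lt_card_of_maps_to hmaps hcard
  obtain ⟨i, hi, j, hj, l, hl, hij, hil, hjl⟩ := Finset.two_lt_card.1 hy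
  rw [Finset.mem_filter, Finset.mem_range] at hi hj hl
  have ej : k j = k i ∧ c j = c i := by
    have := hj.2.trans hi.2.symm
    exact Prod.mk.inj this
  have el : k l = k i ∧ c l = c i := by
    have := hl.2.trans hi.2.symm
    exact Prod.mk.inj this
  refine ⟨i, j, l, hi.1, hj.1, hl.1, hij, hil, hjl, k i, c i, h2 i hi.1, h3 i hi.1, h4 i hi.1,
    h5 i hi.1, ?_, ?_⟩
  · have := h5 j hj.1
    rwa [ej.1, ej.2] at this
  · have := h5 l hl.1
    rwa [el.1, el.2] at this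

end GVh

open GVh in
theorem T_GV : P_GV := by
  intro K C V0 ε hε
  set P : ℕ := K * (2 * C + 1) * 2 + 1 with hPdef
  set F : ℕ := P.factorial with hF
  have hF1 : 1 ≤ F := Nat.factorial_pos P
  have hP1 : 1 ≤ P := by omega
  obtain ⟨W, hW⟩ := exists_nat_ge (4 * (P : ℝ) ^ 2 * (F : ℝ) ^ 2 / ε)
  set Q : ℕ := K + C + 1 with hQ
  set T0 : ℕ := V0 + W ^ 2 + 32 * Q ^ 2 + 1 with hT0
  refine ⟨T0 ^ 5 + C + 1, fun s hs => ?_⟩
  obtain ⟨t, ht1, ht2⟩ := GVh.exists_root s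
  have hs1 : 1 ≤ s := by omega
  have htT : T0 ≤ t := by
    by_contra hlt
    push Not at hlt
    have h1 : (t + 1) ^ 5 ≤ T0 ^ 5 := Nat.pow_le_pow_left hlt 5
    have h2 : s ≤ s ^ 2 := by nlinarith
    omega
  have ht0 : 1 ≤ t := by omega
  set v : ℕ → ℕ := fun i => (i + 1) * (F * t) + 1 with hv
  have hFt : t ≤ F * t := Nat.le_mul_of_pos_left t hF1
  have hvt : ∀ i, t ≤ v i := by
    intro i
    have : F * t ≤ (i + 1) * (F * t) := Nat.le_mul_of_pos_left _ (by omega)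
    simp only [hv]
    omega
  have hvle : ∀ i, i < P → v i ≤ 2 * P * F * t := by
    intro i hi
    have h1 : (i + 1) * (F * t) ≤ P * (F * t) := Nat.mul_le_mul_right _ (by omega)
    have h2 : 1 ≤ P * (F * t) := Nat.mul_pos (by omega) (by omega)
    have h3 : 2 * P * F * t = P * (F * t) + P * (F * t) := by ring
    simp only [hv]
    omega
  -- size
  have hsize : ∀ i, i < P → ((v i : ℕ) : ℝ) ^ 2 ≤ ε * s := by
    intro i hi
    have h1 : t ^ 2 * W ≤ s := by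
      have h2 : (t ^ 2 * W) ^ 2 ≤ s ^ 2 := by
        calc (t ^ 2 * W) ^ 2 = t ^ 4 * W ^ 2 := by ring
          _ ≤ t ^ 4 * t := Nat.mul_le_mul_left _ (by omega)
          _ = t ^ 5 := by ring
          _ ≤ s ^ 2 := ht1
      exact (Nat.pow_le_pow_iff_left (by norm_num)).1 h2
    have h3 : ((v i : ℕ) : ℝ) ≤ 2 * P * F * t := by exact_mod_cast hvle i hi
    have h4 : ((v i : ℕ) : ℝ) ^ 2 ≤ (2 * P * F * t) ^ 2 := pow_le_pow_left₀ (by positivity) h3 2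
    have h5 : 4 * (P : ℝ) ^ 2 * (F : ℝ) ^ 2 ≤ ε * W := by
      rw [div_le_iff₀ hε] at hW
      linarith
    have h6 : ((t : ℝ) ^ 2 * W) ≤ s := by exact_mod_cast h1
    calc ((v i : ℕ) : ℝ) ^ 2 ≤ (2 * P * F * t) ^ 2 := h4
      _ = (4 * (P : ℝ) ^ 2 * (F : ℝ) ^ 2) * (t : ℝ) ^ 2 := by ring
      _ ≤ (ε * W) * (t : ℝ) ^ 2 := mul_le_mul_of_nonneg_right h5 (by positivity)
      _ = ε * ((t : ℝ) ^ 2 * W) := by ring
      _ ≤ ε * s := mul_le_mul_of_nonneg_left h6 hε.le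
  by_contra hno
  push Not at hno
  have hbad : ∀ i < P, ¬ GoodV s K C (v i) := fun i hi =>
    hno (v i) (by have := hvt i; omega) (hsize i hi)
  obtain ⟨i, j, l, hi, hj, hl, hij, hil, hjl, k, c, hk1, hk2, hc, d1, d2, d3⟩ :=
    pigeon P K C s v (by omega) hbad
  have c1 : IsCoprime (v i : ℤ) (v j : ℤ) := Nat.isCoprime_iff_coprime.2 (cop' hi hj hij)
  have c2 : IsCoprime (v i : ℤ) (v l : ℤ) := Nat.isCoprime_iff_coprime.2 (cop' hi hl hil)
  have c3 : IsCoprime (v j : ℤ) (v l : ℤ) := Nat.isCoprime_iff_coprime.2 (cop' hj hl hjl)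
  have hdvd : (v i : ℤ) * v j * v l ∣ (s : ℤ) * k - c :=
    (IsCoprime.mul_left c2 c3).mul_dvd (c1.mul_dvd d1 d2) d3
  have hc' := abs_lt.1 hc
  have hsC : (C : ℤ) < s := by exact_mod_cast (by omega : C < s)
  have hk1' : (1 : ℤ) ≤ k := by exact_mod_cast hk1
  have hk2' : (k : ℤ) ≤ K := by exact_mod_cast hk2
  have hs1' : (1 : ℤ) ≤ s := by exact_mod_cast hs1
  have hpos : 0 < (s : ℤ) * k - c := by
    have h7 : (s : ℤ) * 1 ≤ s * k := mul_le_mul_of_nonneg_left hk1' (by linarith)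
    have h8 := hc'.2
    linarith
  have hle := Int.le_of_dvd hpos hdvd
  have hub : (s : ℤ) * k - c ≤ s * Q := by
    have : (Q : ℤ) = K + C + 1 := by simp [hQ]
    rw [this]
    have h7 : (s : ℤ) * k ≤ s * K := mul_le_mul_of_nonneg_left hk2' (by linarith)
    have h8 : 1 * (C : ℤ) ≤ s * C := mul_le_mul_of_nonneg_right hs1' (Int.natCast_nonneg C)
    have h9 := hc'.1
    have h10 : (s : ℤ) * (K + C + 1) = s * K + s * C + s := by ring
    rw [h10]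
    linarith
  have ht3 : (t : ℤ) ^ 3 ≤ (v i : ℤ) * v j * v l := by
    have a1 : (t : ℤ) ≤ v i := by exact_mod_cast hvt i
    have a2 : (t : ℤ) ≤ v j := by exact_mod_cast hvt j
    have a3 : (t : ℤ) ≤ v l := by exact_mod_cast hvt l
    have a0 : (0 : ℤ) ≤ t := Int.natCast_nonneg t
    calc (t : ℤ) ^ 3 = t * t * t := by ring
      _ ≤ (v i : ℤ) * v j * v l := mul_le_mul (mul_le_mul a1 a2 a0 (by linarith)) a3 a0 (by positivity)
  have hfin : t ^ 3 ≤ s * Q := by exact_mod_cast (ht3.trans hle).trans hub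
  -- contradiction
  have b1 : s ^ 2 < 32 * t ^ 5 := by
    calc s ^ 2 < (t + 1) ^ 5 := ht2
      _ ≤ (2 * t) ^ 5 := Nat.pow_le_pow_left (by omega) 5
      _ = 32 * t ^ 5 := by ring
  have b2 : t ^ 6 ≤ s ^ 2 * Q ^ 2 := by
    calc t ^ 6 = (t ^ 3) ^ 2 := by ring
      _ ≤ (s * Q) ^ 2 := Nat.pow_le_pow_left hfin 2
      _ = s ^ 2 * Q ^ 2 := by ring
  have b3 : s ^ 2 * Q ^ 2 < t ^ 5 * (32 * Q ^ 2) := by
    have hQ0 : 0 < Q ^ 2 := by positivity
    calc s ^ 2 * Q ^ 2 < 32 * t ^ 5 * Q ^ 2 := Nat.mul_lt_mul_of_pos_right b1 hQ0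
      _ = t ^ 5 * (32 * Q ^ 2) := by ring
  have b4 : t ^ 5 * (32 * Q ^ 2) ≤ t ^ 5 * t := Nat.mul_le_mul_left _ (by omega)
  have b5 : t ^ 5 * t = t ^ 6 := by ring
  omega

end Pool.Agent.H932R6
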