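import Mathlib
import Pool.Agent.H932R6.Stubs

set_option autoImplicit false

/-!
# The first shape
-/

namespace Pool.Agent.H932R6

open Polynomial Pool.Agent.H932R2 Pool.Agent.H932R3 Pool.Agent.H932R4

theorem M1h.FF_zero (v : ℕ) : FF v 1 0 = 0 := by
  simp [FF]

theorem T_M1 (hCX : P_CX) (hTRI : P_TRI) (hFF : P_FF) : P_M1 := by
  intro v d hv hvd
  obtain ⟨hF1, hF2, -⟩ := hFF
  have hmem : ∀ i q : ℕ, ((i, q) : ℕ × ℕ) ∈ cX (cY v (Tri 1 (d + 1))) ↔
      i < FF v 1 (d + 1 - v * q) := by
    intro i q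
    rw [hCX.1, hTRI v 1 (d + 1) q one_pos hv]
  -- the number `w = v (v - 1) / 2`
  obtain ⟨w, hw⟩ : ∃ w, v * (v - 1) / 2 = w := ⟨_, rfl⟩
  have hw2 : 2 * w + v = v * v := by
    have h1 : 2 * (v * (v - 1) / 2) = v * (v - 1) :=
      Nat.mul_div_cancel' (Nat.even_mul_pred_self v).two_dvd
    rw [hw] at h1
    rw [h1]
    obtain ⟨k, rfl⟩ : ∃ k, v = k + 1 := ⟨v - 1, by omega⟩
    rw [Nat.add_sub_cancel]
    ring
  have hwle : w ≤ v * (d + 1) := by
    have : v * v ≤ v * (d + 1) := Nat.mul_le_mul_left v (by nlinarith)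
    omega
  obtain ⟨V, hV⟩ : ∃ V, V + w = v * (d + 1) := ⟨v * (d + 1) - w, by omega⟩
  -- large rows
  have hbig : ∀ q : ℕ, v * (q + 1) ≤ d + 1 → FF v 1 (d + 1 - v * q) + v * v * q = V := by
    intro q hq
    obtain ⟨X, hX⟩ : ∃ X, d + 1 - v * q = X := ⟨_, rfl⟩
    have hX2 : X + v * q = d + 1 := by
      have : v * q ≤ v * (q + 1) := Nat.mul_le_mul_left v (by omega)
      omega
    have hX3 : v ≤ X := by
      have : v * (q + 1) = v * q + v := by ring
      omega
    have h1 := hF1 v X hX3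
    rw [hw] at h1
    rw [hX]
    have h2 : v * (d + 1) = v * X + v * v * q := by rw [← hX2]; ring
    omega
  -- small rows
  have hsmall : ∀ q X : ℕ, X + v * q = d + 1 → X < v →
      2 * FF v 1 (d + 1 - v * q) = X * (X + 1) := by
    intro q X hX hXv
    have : d + 1 - v * q = X := by omega
    rw [this]
    exact hF2 v X hXv.le
  have hzero : ∀ i q : ℕ, ((i, q) : ℕ × ℕ) ∈ cX (cY v (Tri 1 (d + 1))) → v * q < d + 1 := by
    intro i q h
    rw [hmem] at h
    by_contra hc
    have : d + 1 - v * q = 0 := by omega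
    rw [this, M1h.FF_zero] at h
    omega
  obtain ⟨h, hh⟩ : ∃ h, (d + 1) / v = h := ⟨_, rfl⟩
  obtain ⟨r, hr⟩ : ∃ r, (d + 1) % v = r := ⟨_, rfl⟩
  have hrh : r + v * h = d + 1 := by
    rw [← hh, ← hr]
    exact Nat.mod_add_div _ _
  have hrv : r < v := by
    rw [← hr]
    exact Nat.mod_lt _ hv
  -- the elements outside of the triangle are in row `h`
  have hrow : ∀ i q : ℕ, ((i, q) : ℕ × ℕ) ∈ cX (cY v (Tri 1 (d + 1))) →
      ¬ i + v * v * q < V → q = h := by
    intro i q h1 h2
    have h3 := hzero i q h1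
    rw [hmem] at h1
    have h4 : ¬ v * (q + 1) ≤ d + 1 := by
      intro h5
      have := hbig q h5
      omega
    have h5 : q ≤ h := by
      by_contra hc
      have : v * (h + 1) ≤ v * q := Nat.mul_le_mul_left v (by omega)
      have e : v * (h + 1) = v * h + v := by ring
      omega
    have h6 : h ≤ q := by
      by_contra hc
      have : v * (q + 1) ≤ v * h := Nat.mul_le_mul_left v (by omega)
      omega
    omega
  refine ⟨(cX (cY v (Tri 1 (d + 1)))) \ Tri (v * v) V, h, V, ?_, ?_, ?_, ?_, ?_⟩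
  · rintro ⟨i, q⟩ hp
    rw [Finset.mem_sdiff, mem_Tri (Nat.mul_pos hv hv)] at hp
    exact hrow i q hp.1 hp.2
  · -- the size
    have hsub : (cX (cY v (Tri 1 (d + 1)))) \ Tri (v * v) V ⊆
        (Finset.Ico (V - v * v * h) (FF v 1 (d + 1 - v * h))).image fun i => (i, h) := by
      rintro ⟨i, q⟩ hp
      rw [Finset.mem_sdiff, mem_Tri (Nat.mul_pos hv hv)] at hp
      have hq := hrow i q hp.1 hp.2
      subst hq
      rw [Finset.mem_image]
      refine ⟨i, ?_, rfl⟩
      rw [Finset.mem_Ico]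
      refine ⟨by omega, (hmem i q).1 hp.1⟩
    have hc : ((cX (cY v (Tri 1 (d + 1)))) \ Tri (v * v) V).card ≤
        FF v 1 (d + 1 - v * h) - (V - v * v * h) := by
      refine (Finset.card_le_card hsub).trans (Finset.card_image_le.trans ?_)
      rw [Nat.card_Ico]
    have hF := hsmall h r hrh hrv
    obtain ⟨s, rfl⟩ : ∃ s, v = r + 1 + s := ⟨v - r - 1, by omega⟩
    by_cases hVh : (r + 1 + s) * (r + 1 + s) * h ≤ V
    · obtain ⟨t, ht⟩ : ∃ t, V = (r + 1 + s) * (r + 1 + s) * h + t := Nat.exists_eq_add_of_le hVh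
      have e1 : V - (r + 1 + s) * (r + 1 + s) * h = t := by omega
      rw [e1] at hc
      -- 2 (F - t) = (v - r) (v - r - 1)
      have h7 : (r + 1 + s) * (d + 1) = (r + 1 + s) * r + (r + 1 + s) * (r + 1 + s) * h := by
        rw [← hrh]; ring
      have h8 : t + w = (r + 1 + s) * r := by omega
      have h9 : 2 * FF (r + 1 + s) 1 (d + 1 - (r + 1 + s) * h) ≤
          2 * t + (r + 1 + s) * (r + 1 + s) := by
        rw [hF]
        nlinarith
      omega
    · have h9 : 2 * FF (r + 1 + s) 1 (d + 1 - (r + 1 + s) * h) ≤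
          (r + 1 + s) * (r + 1 + s) := by
        rw [hF]
        nlinarith
      omega
  · have : v * (2 * d + 3) = 2 * (v * (d + 1)) + v := by ring
    omega
  · rw [Finset.union_sdiff_of_subset]
    rintro ⟨i, q⟩ hp
    rw [mem_Tri (Nat.mul_pos hv hv)] at hp
    rw [hmem]
    by_cases hq : v * (q + 1) ≤ d + 1
    · have := hbig q hq
      omega
    · by_cases hq2 : v * q < d + 1
      · obtain ⟨X, hX⟩ : ∃ X, X + v * q = d + 1 := ⟨d + 1 - v * q, by omega⟩
        have hXv : X < v := by
          have : v * (q + 1) = v * q + v := by ring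
          omega
        have hF := hsmall q X hX hXv
        obtain ⟨s, rfl⟩ : ∃ s, v = X + 1 + s := ⟨v - X - 1, by omega⟩
        have h7 : (X + 1 + s) * (d + 1) =
            (X + 1 + s) * X + (X + 1 + s) * (X + 1 + s) * q := by
          rw [← hX]; ring
        have h8 : i + w < (X + 1 + s) * X := by omega
        by_contra hc
        have h9 : 2 * FF (X + 1 + s) 1 (d + 1 - (X + 1 + s) * q) ≤ 2 * i := by omega
        rw [hF] at h9
        nlinarith
      · exfalso
        have h7 : v * (d + 1) ≤ v * (v * q) := Nat.mul_le_mul_left v (by omega)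
        have e : v * (v * q) = v * v * q := by ring
        omega
  · rintro ⟨i, q⟩ hp
    have h3 := hzero i q hp
    rw [hmem] at hp
    show i + v * v * q ≤ v * (d + 1)
    by_cases hq : v * (q + 1) ≤ d + 1
    · have := hbig q hq
      omega
    · obtain ⟨X, hX⟩ : ∃ X, X + v * q = d + 1 := ⟨d + 1 - v * q, by omega⟩
      have hXv : X < v := by
        have : v * (q + 1) = v * q + v := by ring
        omega
      have hF := hsmall q X hX hXv
      have h7 : v * (d + 1) = v * X + v * v * q := by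
        rw [← hX]; ring
      have h8 : X * (X + 1) ≤ 2 * (v * X) := by nlinarith
      omega

end Pool.Agent.H932R6
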