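import Mathlib
import Pool.Agent.H932R6.Stubs

set_option autoImplicit false

/-! Task M2 (helper504): the second and the third shape. -/

namespace Pool.Agent.H932R6

open Polynomial Pool.Agent.H932R2 Pool.Agent.H932R3 Pool.Agent.H932R4

theorem T_M2 (hCX : P_CX) (hTRI : P_TRI) (hUN : P_UN) (hFF : P_FF) (hCL : P_CLEAN) : P_M2 := by
  intro u g V h T hg hgu hT hTc hV
  have hgR : (0 : ℝ) < g := by exact_mod_cast hg
  have hguR : (g : ℝ) ≤ u := by exact_mod_cast hgu
  have huR : (0 : ℝ) < u := lt_of_lt_of_le hgR hguR
  have hu : 0 < u := lt_of_lt_of_le hg hgu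
  have hTcR : (T.card : ℝ) ≤ g / 2 := by
    have : (2 * T.card : ℝ) ≤ g := by exact_mod_cast hTc
    linarith
  obtain ⟨hc1, _, hc3, hc4, _⟩ := hCX
  obtain ⟨_, _, hf3, hf4, hf5⟩ := hFF
  obtain ⟨σ, hσ⟩ : ∃ σ : ℝ, σ = (u : ℝ) ^ 2 / g := ⟨_, rfl⟩
  obtain ⟨c, hc⟩ : ∃ c : ℝ, c = (u : ℝ) / g := ⟨_, rfl⟩
  have hcpos : 0 < c := by rw [hc]; positivity
  have hσc : σ = c * u := by rw [hσ, hc]; ring
  have hcg : c * g = u := by rw [hc]; field_simp
  have hσpos : 0 < σ := by rw [hσc]; positivity
  rw [← hσ] at hV
  rw [← hσ, ← hc]
  refine ⟨?_, ?_⟩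
  · rintro ⟨i, q⟩ hp
    simp only at hp
    have hsub : cX (cY u (Tri g V)) ⊆ cX (cY u (Tri g V ∪ T)) :=
      hc3 _ _ (hc4 u _ _ Finset.subset_union_left)
    apply hsub
    rw [hc1, hTRI u g V q hg hgu]
    have hq : u * q ≤ V := by
      by_contra hcon
      push Not at hcon
      have h1 : (V : ℝ) < u * q := by exact_mod_cast hcon
      have hi : (0 : ℝ) ≤ i := Nat.cast_nonneg i
      have h2 : c * ((V : ℝ) - u * q) < 0 := by
        apply mul_neg_of_pos_of_neg hcpos
        linarith
      have h3 : c * ((g : ℝ) - u) ≤ 0 := by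
        apply mul_nonpos_of_nonneg_of_nonpos hcpos.le
        linarith
      rw [hσc] at hp
      nlinarith
    have hX : ((V - u * q : ℕ) : ℝ) = (V : ℝ) - u * q := by
      rw [Nat.cast_sub hq]
      push_cast
      ring
    have h3 := hf3 u g (V - u * q) hg hgu
    rw [← hc, hX] at h3
    have h4 : (i : ℝ) < (FF u g (V - u * q) : ℝ) := by
      rw [hσc] at hp
      nlinarith
    exact_mod_cast h4
  · intro ρ hρ1 hρ2 p hp
    have key := hCL (cX (cY u (Tri g V ∪ T))) ρ (V / u) σ
      (c * ((V : ℝ) - u / 2 + g / 2) + 5 * g / 8) hρ1 hρ2 ?_ p hp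
    · exact key
    · rintro ⟨i, q⟩ hiq
      rw [hc1] at hiq
      simp only
      obtain ⟨hu1, hu2⟩ := hUN u h (Tri g V) T hT
      have h1 := hu1 q
      rw [hTRI u g V q hg hgu] at h1
      have h2 : (i : ℝ) + 1 ≤ (FF u g (V - u * q) : ℝ) + T.card := by
        have : i + 1 ≤ FF u g (V - u * q) + T.card := by omega
        exact_mod_cast this
      by_cases ha : u * (q + 1) ≤ V
      · left
        have hq : u * q ≤ V := le_trans (Nat.mul_le_mul_left u (Nat.le_succ q)) ha
        have hX : ((V - u * q : ℕ) : ℝ) = (V : ℝ) - u * q := by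
          rw [Nat.cast_sub hq]
          push_cast
          ring
        have h4 := hf4 u g (V - u * q) hg hgu (by
          have : u * (q + 1) = u * q + u := by ring
          omega)
        rw [← hc, hX] at h4
        rw [hσc]
        nlinarith
      · push Not at ha
        right
        have hκ : 0 ≤ σ - 2 := by
          have : (0 : ℝ) ≤ ρ := Nat.cast_nonneg ρ
          linarith
        -- the hypothesis on `V`
        have hVu : 3 / 4 * σ + g + 1 ≤ (V : ℝ) / u := by
          rw [le_div_iff₀ huR]
          linarith
        by_cases hb : u * q ≤ V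
        · have hqd : q = V / u := by
            symm
            apply Nat.div_eq_of_lt_le
            · rw [mul_comm]; exact hb
            · rw [mul_comm]; exact ha
          refine ⟨Or.inl hqd, ?_⟩
          have hX : ((V - u * q : ℕ) : ℝ) = (V : ℝ) - u * q := by
            rw [Nat.cast_sub hb]
            push_cast
            ring
          have hXu : V - u * q ≤ u := by
            have : u * (q + 1) = u * q + u := by ring
            omega
          have h5 := hf5 u g (V - u * q) hg hgu hXu
          have hX0 : (0 : ℝ) ≤ ((V - u * q : ℕ) : ℝ) := Nat.cast_nonneg _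
          have hX1 : ((V - u * q : ℕ) : ℝ) ≤ u := by exact_mod_cast hXu
          have h6 : ((u : ℝ) - ((V - u * q : ℕ) : ℝ)) ^ 2 / (2 * g) ≤ σ / 2 := by
            have h7 : ((u : ℝ) - ((V - u * q : ℕ) : ℝ)) ^ 2 ≤ (u : ℝ) ^ 2 := by nlinarith
            calc ((u : ℝ) - ((V - u * q : ℕ) : ℝ)) ^ 2 / (2 * g) ≤ (u : ℝ) ^ 2 / (2 * g) := by
                  gcongr
              _ = σ / 2 := by rw [hσ]; ring
          rw [← hc] at h5
          have h8 : (FF u g (V - u * q) : ℝ) ≤
              c * (((V : ℝ) - u * q) - u / 2 + g / 2) + σ / 2 + g / 8 := by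
            rw [← hX]
            linarith
          -- `q ≥ σ / 4`
          have h9 : σ / 4 ≤ (q : ℝ) := by
            have : (V : ℝ) < u * (q + 1) := by exact_mod_cast ha
            have h10 : (V : ℝ) / u < q + 1 := by
              rw [div_lt_iff₀ huR]
              linarith
            linarith
          have h11 : (ρ : ℝ) * q ≤ (σ - 2) * q := by
            apply mul_le_mul_of_nonneg_right _ (Nat.cast_nonneg q)
            linarith
          have h12 : c * (((V : ℝ) - u * q) - u / 2 + g / 2) =
              c * ((V : ℝ) - u / 2 + g / 2) - σ * q := by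
            rw [hσc]
            ring
          rw [h12] at h8
          nlinarith
        · push Not at hb
          have hF0 : ∀ Q : ℕ, V < u * Q → FF u g (V - u * Q) = 0 := by
            intro Q hQ
            have : V - u * Q = 0 := by omega
            rw [this]
            simp [FF]
          have h3 : (i : ℝ) + 1 ≤ g / 2 := by
            rw [hF0 q hb] at h2
            push_cast at h2
            linarith
          have hVd : V / u < q := by
            rw [Nat.div_lt_iff_lt_mul hu, mul_comm]
            exact hb
          have hqle : q ≤ V / u + 1 := by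
            by_contra hcon
            push Not at hcon
            obtain ⟨q', rfl⟩ : ∃ q', q = q' + 1 :=
              ⟨q - 1, (Nat.sub_add_cancel (by
                exact le_trans (Nat.le_add_left 1 (V / u)) hcon.le)).symm⟩
            have hne : (rowOf (cY u (Tri g V ∪ T)) (q' + 1)).Nonempty := by
              rw [← Finset.card_pos]
              omega
            have hne' := hu2 q' hne
            rw [← Finset.card_pos, hTRI u g V q' hg hgu, hF0 q' (by
              have : V / u < q' := by omega
              rw [Nat.div_lt_iff_lt_mul hu] at this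
              rw [mul_comm]
              exact this)] at hne'
            exact absurd hne' (lt_irrefl 0)
          have hqd : q = V / u + 1 := by omega
          refine ⟨Or.inr hqd, ?_⟩
          have hqR : (q : ℝ) ≤ (V : ℝ) / u + 1 := by
            have h4 : ((V / u : ℕ) : ℝ) ≤ (V : ℝ) / u := Nat.cast_div_le
            rw [hqd]
            push_cast
            linarith
          have h11 : (ρ : ℝ) * q ≤ (σ - 2) * ((V : ℝ) / u + 1) := by
            calc (ρ : ℝ) * q ≤ (σ - 2) * q := by
                  apply mul_le_mul_of_nonneg_right _ (Nat.cast_nonneg q)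
                  linarith
              _ ≤ (σ - 2) * ((V : ℝ) / u + 1) := mul_le_mul_of_nonneg_left hqR hκ
          have h12 : σ * ((V : ℝ) / u) = c * V := by
            rw [hσc]
            field_simp
          have h13 : c * ((V : ℝ) - u / 2 + g / 2) = c * V - σ / 2 + u / 2 := by
            rw [hσc]
            have : c * ((V : ℝ) - u / 2 + g / 2) = c * V - c * u / 2 + c * g / 2 := by ring
            rw [this, hcg]
          rw [h13]
          nlinarith

end Pool.Agent.H932R6
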