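import Mathlib
import Pool.Agent.H932R6.Stubs

set_option autoImplicit false

namespace Pool.Agent.H932R6

open Polynomial Pool.Agent.H932R2 Pool.Agent.H932R3 Pool.Agent.H932R4

set_option maxHeartbeats 4000000 in
theorem T_NT (hSW : P_SW) (hGV : P_GV) : P_NT := by
  intro ε η hε hε1 hη hη1
  obtain ⟨K, hK⟩ := exists_nat_ge (max (16 / η) 1)
  have hKη : 16 / η ≤ K := (le_max_left _ _).trans hK
  have hK1 : (1 : ℝ) ≤ K := (le_max_right _ _).trans hK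
  have hK1' : 1 ≤ K := by exact_mod_cast hK1
  obtain ⟨C, hC⟩ := exists_nat_ge (16 * K / ε)
  obtain ⟨V0, hV0⟩ := exists_nat_ge (max (max (32 * K / η) (32 * K / ε)) K)
  have hV1 : 32 * K / η ≤ V0 := ((le_max_left _ _).trans (le_max_left _ _)).trans hV0
  have hV2 : 32 * K / ε ≤ V0 := ((le_max_right _ _).trans (le_max_left _ _)).trans hV0
  have hV3 : (K : ℝ) ≤ V0 := (le_max_right _ _).trans hV0
  obtain ⟨S, hS⟩ := hGV K C V0 ε hε
  refine ⟨(S + 2) ^ 2, fun n hn => ?_⟩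
  have hsq : ((S : ℝ) + 2) ≤ Real.sqrt n := by
    apply Real.le_sqrt_of_sq_le
    exact_mod_cast hn
  have hS0 : (0 : ℝ) ≤ S := Nat.cast_nonneg S
  obtain ⟨R, hR⟩ : ∃ R : ℝ, R = Real.sqrt n := ⟨_, rfl⟩
  rw [← hR] at hsq
  have hR0 : 0 ≤ R := by linarith
  have hRsq : R ^ 2 = n := by rw [hR]; exact Real.sq_sqrt (Nat.cast_nonneg n)
  have hfl1 : (⌊R⌋₊ : ℝ) ≤ R := Nat.floor_le hR0
  have hfl2 : R < (⌊R⌋₊ : ℝ) + 1 := Nat.lt_floor_add_one R
  have hfl3 : S + 2 ≤ ⌊R⌋₊ := Nat.le_floor (by push_cast; linarith)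
  obtain ⟨s, hs⟩ : ∃ s : ℕ, s = ⌊R⌋₊ - 1 := ⟨_, rfl⟩
  have hs1 : (s : ℝ) = ⌊R⌋₊ - 1 := by
    rw [hs, Nat.cast_sub (by omega)]
    push_cast; ring
  have hSs : S ≤ s := by omega
  obtain ⟨v, hv0, hv1, hv2⟩ := hS s hSs
  have hv0r : (V0 : ℝ) ≤ v := by exact_mod_cast hv0
  have hvpos : (0 : ℝ) < v := by linarith
  have hvpos' : 0 < v := by exact_mod_cast hvpos
  have hs0 : (0 : ℝ) ≤ s := Nat.cast_nonneg s
  have hRs1 : 1 ≤ R - s := by rw [hs1]; linarith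
  have hRs2 : R - s < 2 := by rw [hs1]; linarith
  -- Dirichlet
  obtain ⟨k, hk0, hkK, hkc⟩ := Real.exists_nat_abs_mul_sub_round_le ((s : ℝ) / (2 * v)) hK1'
  obtain ⟨z0, hz0⟩ : ∃ z0 : ℤ, z0 = round ((k : ℝ) * ((s : ℝ) / (2 * v))) := ⟨_, rfl⟩
  rw [← hz0] at hkc
  have hk0r : (1 : ℝ) ≤ k := by exact_mod_cast hk0
  have hkKr : (k : ℝ) ≤ K := by exact_mod_cast hkK
  obtain ⟨c, hcdef⟩ : ∃ c : ℝ, c = (s : ℝ) * k - 2 * v * z0 := ⟨_, rfl⟩
  have hcC : (C : ℝ) ≤ |c| := by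
    have h1 := hv2 k hk0 hkK z0
    rw [hcdef]
    exact_mod_cast h1
  have hc2 : c / (2 * v) = (k : ℝ) * ((s : ℝ) / (2 * v)) - z0 := by
    rw [hcdef]
    field_simp
  have hc3 : |c / (2 * v)| ≤ 1 / ((K : ℝ) + 1) := by rw [hc2]; exact hkc
  -- the progression
  obtain ⟨b0, hb0⟩ : ∃ b0 : ℕ, b0 = ⌈(v : ℝ) * (R - ε - s)⌉₊ := ⟨_, rfl⟩
  have hb1 : (v : ℝ) * (R - ε - s) ≤ b0 := by rw [hb0]; exact Nat.le_ceil _
  have hbn : 0 ≤ (v : ℝ) * (R - ε - s) := mul_nonneg hvpos.le (by linarith)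
  have hb2 : (b0 : ℝ) ≤ (v : ℝ) * (R - ε - s) + 1 := by
    rw [hb0]; exact (Nat.ceil_lt_add_one hbn).le
  have hεv : 32 * K ≤ ε * v := by
    have h1 : 32 * K / ε ≤ v := hV2.trans hv0r
    rw [div_le_iff₀ hε] at h1
    linarith
  have hηv : 32 * K ≤ η * v := by
    have h1 : 32 * K / η ≤ v := hV1.trans hv0r
    rw [div_le_iff₀ hη] at h1
    linarith
  have hJn : 0 ≤ (ε * v / 2 - 1) / k := div_nonneg (by linarith) (by linarith)
  obtain ⟨J, hJ⟩ : ∃ J : ℕ, J = ⌊(ε * v / 2 - 1) / k⌋₊ := ⟨_, rfl⟩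
  have hJ1 : (J : ℝ) ≤ (ε * v / 2 - 1) / k := by rw [hJ]; exact Nat.floor_le hJn
  have hJ2 : (ε * v / 2 - 1) / k < (J : ℝ) + 1 := by rw [hJ]; exact Nat.lt_floor_add_one _
  have hkpos : (0 : ℝ) < k := by linarith
  have hkJ : (k : ℝ) * J ≤ ε * v / 2 - 1 := by
    rw [le_div_iff₀ hkpos] at hJ1
    linarith
  have hkJ2 : ε * v / 4 ≤ (k : ℝ) * J := by
    rw [div_lt_iff₀ hkpos] at hJ2
    nlinarith
  -- the function
  obtain ⟨G, hG⟩ : ∃ G : ℕ → ℝ, ∀ j, G j =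
    (((s : ℝ) + ((b0 : ℝ) + k * j) / v) ^ 2 - n) / 4 - z0 * j := ⟨fun j =>
      (((s : ℝ) + ((b0 : ℝ) + k * j) / v) ^ 2 - n) / 4 - z0 * j, fun _ => rfl⟩
  have hbj : ∀ j : ℕ, j ≤ J → (b0 : ℝ) + k * j ≤ v * (R - ε / 2 - s) := by
    intro j hj
    have h1 : (j : ℝ) ≤ J := by exact_mod_cast hj
    have h2 : (k : ℝ) * j ≤ k * J := mul_le_mul_of_nonneg_left h1 hkpos.le
    have e : (v : ℝ) * (R - ε / 2 - s) = v * (R - ε - s) + ε * v / 2 := by ring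
    linarith
  have hbj2 : ∀ j : ℕ, j ≤ J → (b0 : ℝ) + k * j ≤ 2 * v := by
    intro j hj
    have h1 := hbj j hj
    have h2 : (v : ℝ) * (R - ε / 2 - s) ≤ v * 2 :=
      mul_le_mul_of_nonneg_left (by linarith) hvpos.le
    linarith
  have hb0n : (0 : ℝ) ≤ b0 := Nat.cast_nonneg b0
  have hinc : ∀ j, G (j + 1) - G j = c / (2 * v) +
      (2 * ((b0 : ℝ) + k * j) * k + k ^ 2) / (4 * v ^ 2) := by
    intro j
    rw [hG, hG, hcdef]
    push_cast
    field_simp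
    ring
  have hdiff : G J - G 0 = J * (c / (2 * v)) +
      (((b0 : ℝ) + k * J) ^ 2 - (b0 : ℝ) ^ 2) / (4 * v ^ 2) := by
    rw [hG, hG, hcdef]
    push_cast
    field_simp
    ring
  have hKv : (K : ℝ) ≤ v := hV3.trans hv0r
  have hsmall : ∀ j < J, |G (j + 1) - G j| ≤ η / 8 := by
    intro j hj
    rw [hinc]
    have h1 : (b0 : ℝ) + k * j ≤ 2 * v := hbj2 j hj.le
    have h0 : 0 ≤ (b0 : ℝ) + k * j := by positivity
    have h2 : 0 ≤ (2 * ((b0 : ℝ) + k * j) * k + k ^ 2) / (4 * v ^ 2) := by positivity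
    have h3 : (2 * ((b0 : ℝ) + k * j) * k + k ^ 2) / (4 * v ^ 2) ≤ 2 * K / v := by
      rw [div_le_div_iff₀ (by positivity) hvpos]
      have h4 : 2 * ((b0 : ℝ) + k * j) * k + k ^ 2 ≤ 2 * (2 * v) * K + v * K := by
        have a1 : ((b0 : ℝ) + k * j) * k ≤ (2 * v) * K := mul_le_mul h1 hkKr hkpos.le (by positivity)
        have a2 : (k : ℝ) ^ 2 ≤ v * K := by
          rw [pow_two]
          exact mul_le_mul (hkKr.trans hKv) hkKr hkpos.le hvpos.le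
        linarith
      calc (2 * ((b0 : ℝ) + k * j) * k + k ^ 2) * v ≤ (2 * (2 * v) * K + v * K) * v :=
            mul_le_mul_of_nonneg_right h4 hvpos.le
        _ = 5 * K * v ^ 2 := by ring
        _ ≤ 2 * K * (4 * v ^ 2) := by nlinarith [sq_nonneg (v : ℝ)]
    have h5 : 2 * (K : ℝ) / v ≤ η / 16 := by
      rw [div_le_div_iff₀ hvpos (by norm_num)]
      linarith
    have h6 : 1 / ((K : ℝ) + 1) ≤ η / 16 := by
      rw [div_le_div_iff₀ (by linarith) (by norm_num)]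
      rw [div_le_iff₀ hη] at hKη
      nlinarith
    calc |c / (2 * v) + (2 * ((b0 : ℝ) + k * j) * k + k ^ 2) / (4 * v ^ 2)|
        ≤ |c / (2 * v)| + |(2 * ((b0 : ℝ) + k * j) * k + k ^ 2) / (4 * v ^ 2)| := abs_add_le _ _
      _ ≤ η / 16 + η / 16 := by
        rw [abs_of_nonneg h2]
        linarith
      _ = η / 8 := by ring
  have hlarge : 1 + η / 8 ≤ |G J - G 0| := by
    rw [hdiff]
    have hJ0 : (0 : ℝ) ≤ J := Nat.cast_nonneg J
    have h2 : 0 ≤ (((b0 : ℝ) + k * J) ^ 2 - (b0 : ℝ) ^ 2) / (4 * v ^ 2) := by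
      apply div_nonneg _ (by positivity)
      have : 0 ≤ (k : ℝ) * J := by positivity
      nlinarith
    have h3 : (((b0 : ℝ) + k * J) ^ 2 - (b0 : ℝ) ^ 2) / (4 * v ^ 2) ≤ 1 / 2 := by
      rw [div_le_div_iff₀ (by positivity) (by norm_num)]
      have hkJ0 : 0 ≤ (k : ℝ) * J := by positivity
      have a1 := hbj2 J le_rfl
      have a3 : (k : ℝ) * J ≤ v / 2 := by
        have : ε * v ≤ 1 * v := mul_le_mul_of_nonneg_right hε1 hvpos.le
        linarith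
      have a2 : ((b0 : ℝ) + k * J) ^ 2 - (b0 : ℝ) ^ 2 ≤ (v / 2) * (4 * v) := by
        have e : ((b0 : ℝ) + k * J) ^ 2 - (b0 : ℝ) ^ 2 = (k * J) * (((b0 : ℝ) + k * J) + b0) := by
          ring
        rw [e]
        refine mul_le_mul a3 ?_ (by positivity) (by positivity)
        linarith
      nlinarith
    have h4 : 2 ≤ |(J : ℝ) * (c / (2 * v))| := by
      rw [abs_mul, abs_of_nonneg hJ0, abs_div, abs_of_pos (by positivity : (0 : ℝ) < 2 * v)]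
      rw [mul_div_assoc', le_div_iff₀ (by positivity)]
      have a1 : 16 * K ≤ ε * C := by
        rw [div_le_iff₀ hε] at hC
        linarith
      have a2 : (C : ℝ) ≤ |c| := hcC
      have a3 : ε * v / 4 * C ≤ (k : ℝ) * J * |c| :=
        mul_le_mul hkJ2 a2 (Nat.cast_nonneg C) (by positivity)
      have a4 : 4 * K * v ≤ (k : ℝ) * (J * |c|) := by
        have : ε * v / 4 * C = (ε * C) * v / 4 := by ring
        have : 16 * K * v ≤ (ε * C) * v := mul_le_mul_of_nonneg_right a1 hvpos.le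
        nlinarith
      have a5 : (k : ℝ) * (J * |c|) ≤ K * (J * |c|) :=
        mul_le_mul_of_nonneg_right hkKr (by positivity)
      have a6 : (K : ℝ) * (4 * v) ≤ K * (J * |c|) := by linarith
      have a7 := le_of_mul_le_mul_left a6 (by linarith)
      linarith
    have h5 : |(J : ℝ) * (c / (2 * v))| -
        |(((b0 : ℝ) + k * J) ^ 2 - (b0 : ℝ) ^ 2) / (4 * v ^ 2)| ≤
        |(J : ℝ) * (c / (2 * v)) + (((b0 : ℝ) + k * J) ^ 2 - (b0 : ℝ) ^ 2) / (4 * v ^ 2)| := by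
      have := abs_sub_abs_le_abs_sub ((J : ℝ) * (c / (2 * v)))
        (-((((b0 : ℝ) + k * J) ^ 2 - (b0 : ℝ) ^ 2) / (4 * v ^ 2)))
      rw [abs_neg, sub_neg_eq_add] at this
      exact this
    rw [abs_of_nonneg h2] at h5
    linarith
  obtain ⟨j, hjJ, z, hz1, hz2⟩ := hSW G J (η / 8) (by positivity) hsmall hlarge (-(η / 4))
  obtain ⟨a, ha⟩ : ∃ a : ℤ, a = n + 4 * (z + z0 * j) := ⟨_, rfl⟩
  obtain ⟨u, hu⟩ : ∃ u : ℕ, u = v * s + (b0 + k * j) := ⟨_, rfl⟩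
  have huv : (u : ℝ) / v = s + ((b0 : ℝ) + k * j) / v := by
    rw [hu]
    push_cast
    field_simp
  have hval : ((u : ℝ) / v) ^ 2 - a = 4 * (G j - z) := by
    rw [huv, hG, ha]
    push_cast
    ring
  have ha0 : 0 ≤ a := by
    have h1 : (0 : ℝ) ≤ a := by
      have := sq_nonneg ((u : ℝ) / v)
      linarith
    exact_mod_cast h1
  have haN : ((a.toNat : ℕ) : ℝ) = a := by
    have h1 : ((a.toNat : ℕ) : ℤ) = a := Int.toNat_of_nonneg ha0
    exact_mod_cast h1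
  refine ⟨u, v, a.toNat, hvpos', ?_, by omega, ?_, ?_, ?_, ?_⟩
  · rw [← hR]
    refine hv1.trans ?_
    exact mul_le_mul_of_nonneg_left (by linarith) hε.le
  · rw [← hR, huv]
    have h1 : R - ε - s ≤ ((b0 : ℝ) + k * j) / v := by
      rw [le_div_iff₀ hvpos]
      have : 0 ≤ (k : ℝ) * j := by positivity
      linarith
    linarith
  · rw [← hR, huv]
    have h1 : ((b0 : ℝ) + k * j) / v ≤ R - ε / 2 - s := by
      rw [div_le_iff₀ hvpos]
      have := hbj j hjJ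
      linarith
    linarith
  · rw [haN]; linarith
  · rw [haN]; linarith

end Pool.Agent.H932R6
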