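import Mathlib
import Pool.Agent.H932R6.Stubs

set_option autoImplicit false

namespace Pool.Agent.H932R6

open Polynomial Pool.Agent.H932R2 Pool.Agent.H932R3 Pool.Agent.H932R4

theorem T_STG : P_STG := by
  intro δ r P hδ hP hsm p hp hpr hmod T hT h
  obtain ⟨σ, hσ, hlog⟩ := h
  obtain ⟨h1, h2⟩ := hσ.pos hδ |> fun _ => RS.bound hδ hP hsm hp hpr hmod hT hσ hlog
  have hσ0 := hσ.pos hδ
  have hp15 : (15 : ℝ) ≤ p := by exact_mod_cast (show 15 ≤ p by omega)
  constructor
  · intro j
    have hj0 : (0:ℝ) ≤ j := Nat.cast_nonneg j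
    have h3 := ReachR.step σ (p + 1) hσ (by push_cast; linarith)
    have h4 := ReachR.step _ (p + 2 * j + 3) h3 (by
      push_cast
      rw [div_le_iff₀ hσ0]
      have h5 : ((p : ℝ) + 2 * j + 3) * (p - 1 / 4) ≤ (p + 2 * j + 3) * σ :=
        mul_le_mul_of_nonneg_left h1 (by positivity)
      nlinarith [mul_nonneg hj0 (by linarith : (0:ℝ) ≤ p - 1 / 4)])
    have h5 := bet_sum p (j + 1)
    have h6 : p + 4 * (j + 1) = p + 2 * j + 3 + (2 * j + 1) := by ring
    refine ⟨_, h4, ?_⟩
    push_cast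
    rw [Real.log_div (by positivity) (by positivity), Real.log_div (by positivity) (by positivity),
      Real.log_pow, Real.log_pow, hlog, h5]
    unfold f1 Ls
    push_cast
    ring
  · intro α hα hαp
    have hαR : (1:ℝ) ≤ α := by exact_mod_cast hα
    have hαpR : (α:ℝ) ^ 2 ≤ p := by exact_mod_cast hαp
    have h3 := ReachR.step σ (p + α) hσ (by push_cast; linarith)
    have h4 := ReachR.step _ (p + 3 * α + 2) h3 (by
      push_cast
      rw [div_le_iff₀ hσ0]
      have h5 : ((p : ℝ) + 3 * α + 2) * (p - 1 / 4) ≤ (p + 3 * α + 2) * σ :=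
        mul_le_mul_of_nonneg_left h1 (by positivity)
      nlinarith [mul_nonneg (by linarith : (0:ℝ) ≤ α - 1) (by linarith : (0:ℝ) ≤ (p:ℝ) - 15)])
    have h5 := bet_sum p (α + 1)
    refine ⟨_, h4, ?_⟩
    push_cast
    rw [Real.log_div (by positivity) (by positivity), Real.log_div (by positivity) (by positivity),
      Real.log_pow, Real.log_pow, hlog, h5]
    unfold f2 Ls
    push_cast
    ring

end Pool.Agent.H932R6
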