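import Mathlib
import Pool.Agent.H932R6.Stubs

/-!
# The sweep lemma
-/

set_option autoImplicit false

namespace Pool.Agent.H932R6

open Polynomial Pool.Agent.H932R2 Pool.Agent.H932R3 Pool.Agent.H932R4

theorem T_SW : P_SW := by
  classical
  intro G J lam hlam hstep htot A
  rcases le_or_gt (G 0 + 1 + lam) (G J) with hJ | hJ
  · -- upward sweep
    set z : ℤ := ⌈G 0 - A⌉ with hz
    have h1 : G 0 - A ≤ z := Int.le_ceil _
    have h2 : (z : ℝ) < G 0 - A + 1 := Int.ceil_lt_add_one _
    have hex : ∃ j, A + z ≤ G j := ⟨J, by linarith⟩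
    have h3 := Nat.find_spec hex
    have h4 : Nat.find hex ≤ J := Nat.find_min' hex (by linarith)
    refine ⟨Nat.find hex, h4, z, by linarith, ?_⟩
    rcases Nat.eq_zero_or_pos (Nat.find hex) with h0 | h0
    · rw [h0]
      linarith
    · have h5 : ¬ (A + z ≤ G (Nat.find hex - 1)) := Nat.find_min hex (by omega)
      have h6 := hstep (Nat.find hex - 1) (by omega)
      rw [show Nat.find hex - 1 + 1 = Nat.find hex by omega] at h6
      have h7 := (abs_le.1 h6).2
      push Not at h5
      linarith
  · -- downward sweep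
    have hJ' : G J ≤ G 0 - 1 - lam := by
      rcases le_abs.1 htot with h | h
      · linarith
      · linarith
    set z : ℤ := ⌊G 0 - A - lam⌋ with hz
    have h1 : (z : ℝ) ≤ G 0 - A - lam := Int.floor_le _
    have h2 : G 0 - A - lam < z + 1 := Int.lt_floor_add_one _
    have hex : ∃ j, G j ≤ A + z + lam := ⟨J, by linarith⟩
    have h3 := Nat.find_spec hex
    have h4 : Nat.find hex ≤ J := Nat.find_min' hex (by linarith)
    refine ⟨Nat.find hex, h4, z, ?_, by linarith⟩
    rcases Nat.eq_zero_or_pos (Nat.find hex) with h0 | h0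
    · rw [h0]
      linarith
    · have h5 : ¬ (G (Nat.find hex - 1) ≤ A + z + lam) := Nat.find_min hex (by omega)
      have h6 := hstep (Nat.find hex - 1) (by omega)
      rw [show Nat.find hex - 1 + 1 = Nat.find hex by omega] at h6
      have h7 := (abs_le.1 h6).1
      push Not at h5
      linarith

end Pool.Agent.H932R6
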