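import Mathlib
import Pool.Agent.H932R6.Stubs

set_option autoImplicit false

/-! # TRI: rows of the compressed triangle -/

namespace Pool.Agent.H932R6

open Polynomial Pool.Agent.H932R2 Pool.Agent.H932R3 Pool.Agent.H932R4

namespace TRIh

/-- membership in the compressed triangle -/
theorem mem_iff (u g V i q : ℕ) (hg : 0 < g) (hgu : g ≤ u) :
    ((i, q) : ℕ × ℕ) ∈ cY u (Tri g V) ↔ i % u + g * (i / u) + u * q < V := by
  obtain ⟨d, rfl⟩ := Nat.exists_eq_add_of_le hgu
  have hu : 0 < g + d := by omega
  set u := g + d with hud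
  have hdm : u * (i / u) + i % u = i := Nat.div_add_mod i u
  have hdm' : g * (i / u) + d * (i / u) + i % u = i := by rw [← Nat.add_mul]; exact hdm
  have hmodlt : i % u < u := Nat.mod_lt _ hu
  have hul : ∀ l, u * l = g * l + d * l := fun l => by rw [hud, Nat.add_mul]
  -- the rows on the line
  have hle : ∀ l, u * l ≤ i + u * q ↔ l ≤ i / u + q := by
    intro l
    constructor
    · intro h
      by_contra hlt
      have h1 : i / u + q + 1 ≤ l := by omega
      have h2 := Nat.mul_le_mul_left u h1
      rw [Nat.mul_add, Nat.mul_add, Nat.mul_one] at h2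
      omega
    · intro h
      have h2 := Nat.mul_le_mul_left u h
      rw [Nat.mul_add] at h2
      omega
  have hmem : ∀ l, l ∈ lineRows u (Tri g V) (i + u * q) ↔
      l ≤ i / u + q ∧ i + u * q < V + d * l := by
    intro l
    rw [mem_lineRows, mem_Tri hg, hle]
    constructor
    · rintro ⟨h1, h2⟩
      have h3 := (hle l).2 h1
      rw [hul l] at h2 h3
      exact ⟨h1, by omega⟩
    · rintro ⟨h1, h2⟩
      have h3 := (hle l).2 h1
      rw [hul l] at h3 ⊢
      exact ⟨h1, by omega⟩
  have hkey : ((i, q) : ℕ × ℕ) ∈ cY u (Tri g V) ↔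
      q < (lineRows u (Tri g V) (i + u * q)).card := ⟨mem_cY, fun h => mem_cY_of h⟩
  rw [hkey]
  constructor
  · intro h
    by_contra hno
    have hsub : lineRows u (Tri g V) (i + u * q) ⊆ Finset.Ioc (i / u) (i / u + q) := by
      intro l hl
      obtain ⟨h1, h2⟩ := (hmem l).1 hl
      rw [Finset.mem_Ioc]
      refine ⟨?_, h1⟩
      by_contra hlt
      have h3 : d * l ≤ d * (i / u) := Nat.mul_le_mul_left d (by omega)
      omega
    have h4 := Finset.card_le_card hsub
    rw [Nat.card_Ioc] at h4
    omega
  · intro h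
    have hsub : Finset.Icc (i / u) (i / u + q) ⊆ lineRows u (Tri g V) (i + u * q) := by
      intro l hl
      rw [Finset.mem_Icc] at hl
      refine (hmem l).2 ⟨hl.2, ?_⟩
      have h3 : d * (i / u) ≤ d * l := Nat.mul_le_mul_left d hl.1
      omega
    have h4 := Finset.card_le_card hsub
    rw [Nat.card_Icc] at h4
    omega

end TRIh

theorem T_TRI : P_TRI := by
  intro u g V q hg hgu
  have hu : 0 < u := by omega
  have hF : FF u g (V - u * q) = ((Finset.range (V - u * q)).sigma fun j =>
      Finset.range (min u (V - u * q - g * j))).card := by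
    rw [Finset.card_sigma]
    simp only [Finset.card_range]
    rfl
  rw [hF]
  symm
  refine Finset.card_bij (fun x _ => (u * x.1 + x.2, q)) ?_ ?_ ?_
  · rintro ⟨j, b⟩ hx
    rw [Finset.mem_sigma, Finset.mem_range, Finset.mem_range] at hx
    simp only at hx
    unfold rowOf
    rw [Finset.mem_filter]
    refine ⟨?_, rfl⟩
    rw [TRIh.mem_iff u g V _ q hg hgu]
    have hb : b < u := by omega
    have h1 : (u * j + b) / u = j := by
      rw [Nat.mul_add_div hu, Nat.div_eq_of_lt hb, Nat.add_zero]
    have h2 : (u * j + b) % u = b := by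
      rw [Nat.mul_add_mod, Nat.mod_eq_of_lt hb]
    simp only
    rw [h1, h2]
    omega
  · rintro ⟨j, b⟩ hx ⟨j', b'⟩ hx' h
    rw [Finset.mem_sigma, Finset.mem_range, Finset.mem_range] at hx hx'
    simp only at hx hx'
    simp only [Prod.mk.injEq, and_true] at h
    have hb : b < u := by omega
    have hb' : b' < u := by omega
    have h1 : (u * j + b) / u = j := by
      rw [Nat.mul_add_div hu, Nat.div_eq_of_lt hb, Nat.add_zero]
    have h1' : (u * j' + b') / u = j' := by
      rw [Nat.mul_add_div hu, Nat.div_eq_of_lt hb', Nat.add_zero]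
    have h3 : j = j' := by rw [← h1, ← h1', h]
    subst h3
    have h4 : b = b' := by omega
    rw [h4]
  · rintro ⟨i, q'⟩ hx
    unfold rowOf at hx
    rw [Finset.mem_filter] at hx
    obtain ⟨h1, h2⟩ := hx
    simp only at h2
    subst h2
    rw [TRIh.mem_iff u g V _ q' hg hgu] at h1
    have h3 : i / u ≤ g * (i / u) := Nat.le_mul_of_pos_left _ hg
    have h4 := Nat.mod_lt i hu
    refine ⟨⟨i / u, i % u⟩, ?_, ?_⟩
    · rw [Finset.mem_sigma, Finset.mem_range, Finset.mem_range]
      simp only
      omega
    · simp only [Prod.mk.injEq, and_true]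
      exact Nat.div_add_mod i u

end Pool.Agent.H932R6
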