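import Mathlib
import Pool.Agent.H932R6.Stubs

set_option autoImplicit false

/-!
# Adding a set contained in one row
-/

namespace Pool.Agent.H932R6

open Polynomial Pool.Agent.H932R2 Pool.Agent.H932R3 Pool.Agent.H932R4

namespace UNh

/-- the elements of the compressed set -/
theorem mem_of {ρ : ℕ} {M : Finset (ℕ × ℕ)} {i q : ℕ}
    (h : q < (lineRows ρ M (i + ρ * q)).card) : (i, q) ∈ cY ρ M := by
  unfold cY
  rw [Finset.mem_image]
  refine ⟨⟨i + ρ * q, q⟩, ?_, ?_⟩
  · rw [Finset.mem_sigma]
    simp only [Finset.mem_range]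
    refine ⟨?_, h⟩
    obtain ⟨l, h1, h2⟩ := exists_row h
    have h3 := Finset.le_sup (f := fun p : ℕ × ℕ => p.1 + ρ * p.2) h2
    simp only at h3
    have h4 : i + ρ * q - ρ * l + ρ * l = i + ρ * q := Nat.sub_add_cancel (by omega)
    omega
  · simp only [Prod.mk.injEq, and_true]
    omega

theorem mem_iff {ρ : ℕ} {M : Finset (ℕ × ℕ)} {i q : ℕ} :
    (i, q) ∈ cY ρ M ↔ q < (lineRows ρ M (i + ρ * q)).card :=
  ⟨mem_cY, mem_of⟩

theorem sub_insert {u h : ℕ} {A T : Finset (ℕ × ℕ)} (hT : ∀ p ∈ T, p.2 = h) (n : ℕ) :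
    lineRows u (A ∪ T) n ⊆ insert h (lineRows u A n) := by
  intro l hl
  rw [mem_lineRows, Finset.mem_union] at hl
  rw [Finset.mem_insert, mem_lineRows]
  rcases hl.2 with h1 | h1
  · exact Or.inr ⟨hl.1, h1⟩
  · exact Or.inl (hT _ h1)

theorem card_le {u h : ℕ} {A T : Finset (ℕ × ℕ)} (hT : ∀ p ∈ T, p.2 = h) (n : ℕ) :
    (lineRows u (A ∪ T) n).card ≤ (lineRows u A n).card + 1 :=
  (Finset.card_le_card (sub_insert hT n)).trans (Finset.card_insert_le _ _)

theorem in_T {u h : ℕ} {A T : Finset (ℕ × ℕ)} (hT : ∀ p ∈ T, p.2 = h) (n : ℕ)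
    (hc : (lineRows u A n).card < (lineRows u (A ∪ T) n).card) :
    u * h ≤ n ∧ (n - u * h, h) ∈ T := by
  by_contra hno
  have hsub : lineRows u (A ∪ T) n ⊆ lineRows u A n := by
    intro l hl
    rw [mem_lineRows, Finset.mem_union] at hl
    rw [mem_lineRows]
    rcases hl.2 with h1 | h1
    · exact ⟨hl.1, h1⟩
    · exfalso
      have h2 : l = h := hT _ h1
      subst h2
      exact hno ⟨hl.1, h1⟩
  have := Finset.card_le_card hsub
  omega

end UNh

open UNh in
theorem T_UN : P_UN := by
  intro u h A T hT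
  constructor
  · intro q
    have hsub : rowOf (cY u (A ∪ T)) q ⊆ rowOf (cY u A) q ∪
        ((rowOf (cY u (A ∪ T)) q).filter
          (fun p => (lineRows u A (p.1 + u * q)).card < (lineRows u (A ∪ T) (p.1 + u * q)).card)) := by
      rintro ⟨i, q'⟩ hp
      rw [Finset.mem_union, Finset.mem_filter]
      by_cases hc : (lineRows u A (i + u * q)).card < (lineRows u (A ∪ T) (i + u * q)).card
      · exact Or.inr ⟨hp, hc⟩
      · left
        unfold rowOf at hp ⊢
        rw [Finset.mem_filter] at hp ⊢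
        obtain ⟨h1, h2⟩ := hp
        simp only at h2
        subst h2
        refine ⟨?_, rfl⟩
        rw [mem_iff] at h1 ⊢
        omega
    refine (Finset.card_le_card hsub).trans ((Finset.card_union_le _ _).trans ?_)
    apply Nat.add_le_add_left
    apply Finset.card_le_card_of_injOn (fun p => (p.1 + u * q - u * h, h))
    · rintro ⟨i, q'⟩ hp
      rw [Finset.mem_coe, Finset.mem_filter] at hp
      exact (in_T hT _ hp.2).2
    · rintro ⟨i, q'⟩ hp ⟨i', q''⟩ hp' he
      rw [Finset.mem_coe, Finset.mem_filter] at hp hp'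
      have h1 := (in_T hT _ hp.2).1
      have h2 := (in_T hT _ hp'.2).1
      simp only [Prod.mk.injEq, and_true] at he h1 h2
      have h3 : q' = q := by
        have := hp.1
        unfold rowOf at this
        rw [Finset.mem_filter] at this
        exact this.2
      have h4 : q'' = q := by
        have := hp'.1
        unfold rowOf at this
        rw [Finset.mem_filter] at this
        exact this.2
      rw [Prod.mk.injEq]
      constructor
      · omega
      · rw [h3, h4]
  · rintro q ⟨⟨i, q'⟩, hp⟩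
    unfold rowOf at hp
    rw [Finset.mem_filter] at hp
    obtain ⟨h1, h2⟩ := hp
    simp only at h2
    subst h2
    rw [mem_iff] at h1
    have h3 := card_le (u := u) (A := A) hT (i + u * (q + 1))
    refine ⟨(i + u, q), ?_⟩
    unfold rowOf
    rw [Finset.mem_filter]
    refine ⟨?_, rfl⟩
    rw [mem_iff]
    have h4 : i + u + u * q = i + u * (q + 1) := by ring
    rw [h4]
    omega

end Pool.Agent.H932R6
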