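import Mathlib
import Pool.Agent.H932R6.Stubs

set_option autoImplicit false

/-!
# Reachable slopes very close to an integer, started at a real number
-/

namespace Pool.Agent.H932R6

open Pool.Agent.H932R3 Pool.Agent.H932R4

/-- The context. -/
theorem ctx_ofR {δ : ℝ} {r a E : ℕ} (hδ0 : 0 < δ) (hδδ : a ≤ r) (ha : (r - a) ^ 2 ≤ 81 * r)
    (hr : 2000000000 + (18 * E) ^ 2 + 4096 * (E + 3) ≤ r) :
    CtxR δ r a E ∧ 100 * (r : ℝ) ^ 4 ≤ 101 * ((a : ℕ) : ℝ) ^ 4 ∧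
      (r : ℝ) ≤ 2 * ((a : ℕ) : ℝ) := by
  obtain ⟨s, hs⟩ : ∃ s, s = Real.sqrt r := ⟨_, rfl⟩
  have hrR : (2000000000 : ℝ) + (18 * E) ^ 2 + 4096 * (E + 3) ≤ r := by exact_mod_cast hr
  have hE0 : (0 : ℝ) ≤ E := Nat.cast_nonneg E
  have hr0 : (0 : ℝ) < r := by
    have : 0 ≤ (18 * (E : ℝ)) ^ 2 := by positivity
    linarith
  have hss : s * s = r := by rw [hs]; exact Real.mul_self_sqrt hr0.le
  have hs0 : 0 < s := by rw [hs]; exact Real.sqrt_pos.2 hr0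
  have hs1 : 18 * (E : ℝ) ≤ s := by
    rw [hs]
    apply Real.le_sqrt_of_sq_le
    linarith
  have hr8 : (2000000000 : ℝ) ≤ r := by
    have : 0 ≤ (18 * (E : ℝ)) ^ 2 := by positivity
    linarith
  have hs2 : 40000 ≤ s := by
    rw [hs]
    apply Real.le_sqrt_of_sq_le
    have h : (40000 : ℝ) ^ 2 = 1600000000 := by norm_num
    rw [h]
    linarith
  obtain ⟨X, hX⟩ : ∃ X : ℝ, X = ((a : ℕ) : ℝ) := ⟨_, rfl⟩
  have hXr : X ≤ r := by rw [hX]; exact_mod_cast hδδ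
  have hXl : r - 9 * s ≤ X := by
    have h1 : ((r - a : ℕ) : ℝ) ^ 2 ≤ 81 * r := by exact_mod_cast ha
    rw [Nat.cast_sub hδδ, ← hX] at h1
    have h2 : (r : ℝ) - X ≤ 9 * s := by
      refine abs_le_of_sq_le_sq' ?_ (by positivity) |>.2
      calc ((r : ℝ) - X) ^ 2 ≤ 81 * r := h1
        _ = (9 * s) ^ 2 := by rw [← hss]; ring
    linarith
  have hX0 : 0 < X := by nlinarith
  have hratio : 1 - 9 / s ≤ X / r := by
    rw [le_div_iff₀ hr0]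
    have : (1 - 9 / s) * r = r - 9 * s := by
      rw [← hss]
      field_simp
    linarith
  have h9s : 9 / s ≤ 1 := by
    rw [div_le_one hs0]
    linarith
  have hpow : ∀ e : ℕ, (1 - e * (9 / s)) * (r : ℝ) ^ e ≤ X ^ e := by
    intro e
    have h1 := one_add_mul_le_pow (show -2 ≤ -(9 / s) by linarith) e
    have h2 : (1 + -(9 / s)) ^ e ≤ (X / r) ^ e := pow_le_pow_left₀ (by linarith) (by linarith) e
    rw [div_pow] at h2
    have h3 : 1 + (e : ℝ) * -(9 / s) ≤ X ^ e / (r : ℝ) ^ e := h1.trans h2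
    rw [le_div_iff₀ (by positivity)] at h3
    calc (1 - e * (9 / s)) * (r : ℝ) ^ e = (1 + (e : ℝ) * -(9 / s)) * (r : ℝ) ^ e := by ring
      _ ≤ X ^ e := h3
  have hhalf : (r : ℝ) ≤ 2 * X := by nlinarith
  have hX15 : 15 ≤ a := by
    have : (15 : ℝ) ≤ X := by nlinarith
    rw [hX] at this
    exact_mod_cast this
  refine ⟨⟨?_, hX15, ?_, hδδ, ?_, ?_⟩, ?_, by rw [← hX]; exact hhalf⟩
  · exact hδ0
  · intro p hp hpr hmod
    obtain ⟨hg1, hg2⟩ := gam_le (p := p) (by omega) ((r - p) / 4)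
    have hrr : p + 4 * ((r - p) / 4) = r := by omega
    rw [hrr] at hg1 hg2
    rw [abs_of_nonneg hg1]
    refine hg2.trans ?_
    have hpP : X ≤ p := by rw [hX]; exact_mod_cast hp
    have h1 : 0 ≤ 1 / (4 * ((p : ℝ) + 4 * (((r - p) / 4 : ℕ) : ℝ) - 2) ^ 2) := by positivity
    have h2 : 1 / (4 * ((p : ℝ) - 2) ^ 2) ≤ 1 / (32 * (r : ℝ)) := by
      refine div_le_div_of_nonneg_left (by norm_num) (by positivity) ?_
      have h3 : ((r : ℝ) / 4) ^ 2 ≤ ((p : ℝ) - 2) ^ 2 :=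
        pow_le_pow_left₀ (by linarith) (by linarith) 2
      nlinarith
    linarith
  · intro e he
    rw [← hX]
    have h1 := hpow e
    have h2 : (e : ℝ) ≤ E := by exact_mod_cast he
    have h3 : (e : ℝ) * (9 / s) ≤ 1 / 2 := by
      rw [← mul_div_assoc, div_le_iff₀ hs0]
      linarith
    have h4 : 0 < (r : ℝ) ^ e := by positivity
    nlinarith
  · rw [← hX, div_le_div_iff₀ (by positivity) (by positivity), one_mul]
    have h1 : (r / 2 : ℝ) ^ 2 ≤ X ^ 2 := pow_le_pow_left₀ (by positivity) (by linarith) 2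
    have h2 : 4096 * ((E : ℝ) + 3) ≤ r := by
      have : 0 ≤ (18 * (E : ℝ)) ^ 2 := by positivity
      linarith
    have h3 : (5 + 4 * ((E : ℝ) + 1)) * 128 ≤ r := by linarith
    have h4 : (5 + 4 * ((E : ℝ) + 1)) * 128 * r ≤ r * r := mul_le_mul_of_nonneg_right h3 hr0.le
    linarith
  · rw [← hX]
    have h1 := hpow 4
    have h3 : ((4 : ℕ) : ℝ) * (9 / s) ≤ 1 / 101 := by
      rw [← mul_div_assoc, div_le_iff₀ hs0]
      push_cast
      linarith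
    have h4 : 0 < (r : ℝ) ^ 4 := by positivity
    nlinarith


/-- The correction, with all the numerical data. -/
theorem short_auxR (h12 : P_BL12) (h3 : P_BL3) {K E B r a N : ℕ} {δ : ℝ} (hE : E = K + 10)
    (hB1 : B ^ 18 ≤ r) (hrB : r ≤ 2 * B ^ 18)
    (hB1000 : 1000 ≤ B) (hshi : shi (K + 1) + 10 ≤ B) (hK : K + 4 ≤ B) (C : CtxR δ r a E)
    (hPr : 100 * (r : ℝ) ^ 4 ≤ 101 * (a : ℝ) ^ 4)
    (hhalf : (r : ℝ) ≤ 2 * (a : ℝ)) (hmod : a % 4 = r % 4) (hy1 : δ ^ 2 ≤ a)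
    (hy2 : (a : ℝ) - δ ^ 2 ≤ 1 / 1000) (hyN : (a : ℝ) * (a - δ ^ 2) ≤ (N : ℝ) ^ 2)
    (hN : 1000000 * N ^ 2 ≤ a) (hN1 : 1 ≤ N)
    (hgap : a + 16 * N + 100 + 8 * B ^ 6 + (lenL K + 70) * B ^ 8 ≤ r)
    (hZ : 8 * nL (CL (K + 1)) * 2 ^ (K + 4) ≤ r) :
    ∃ σ, ReachR δ σ ∧ 0 < (r : ℝ) - σ ∧ (r : ℝ) - σ ≤ 1 / (r : ℝ) ^ K := by
  have hB8 : 1 ≤ B ^ 8 := Nat.one_le_pow _ _ (by omega)
  have hB8' : B ≤ B ^ 8 := by
    calc B = B ^ 1 := (pow_one _).symm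
      _ ≤ B ^ 8 := Nat.pow_le_pow_right (by omega) (by norm_num)
  have e1 : (lenL K + 70) * B ^ 8 = lenL K * B ^ 8 + 70 * B ^ 8 := by ring
  rw [e1] at hgap
  have hrP : r ≤ 2 * a := by
    have h1 : (r : ℝ) ≤ ((2 * a : ℕ) : ℝ) := by
      push_cast
      exact hhalf
    exact_mod_cast h1
  obtain ⟨p0, Ts, hp0, hp0', hm0, hRR0, hTl, hTu⟩ := h12 δ r a E N C hmod hPr hy1 hy2 hyN hN hN1
    (by omega)
  obtain ⟨p1, T0, hp1, hp1', hm1, hRR, hT0l, hT0u⟩ := h3 δ r a E B p0 Ts C hB1000 hB1 hrB hPr hp0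
    hm0 (by omega) hRR0 hTl hTu
  have hm2 : (lenL K * B ^ 8) % 4 = 0 := by
    rw [Nat.mul_mod, lenL_mod K]
    simp
  have hshi1 : shi 1 ≤ shi (K + 1) := shi_mono (by omega)
  obtain ⟨b, hb⟩ : ∃ b, b = B ^ 8 := ⟨_, rfl⟩
  obtain ⟨l, hl⟩ : ∃ l, l = lenL K * B ^ 8 := ⟨_, rfl⟩
  rw [← hl] at hgap hm2
  rw [← hb] at hgap hB8 hB8'
  obtain ⟨T1, hRR1, hT1l, hT1u⟩ := initialR C (B := B) (by omega) hB1 hrB hPr (by omega) hm1
    (by rw [← hb]; omega) hT0l hT0u hRR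
  rw [← hb] at hRR1
  have hst := secondR C (q := p1 + 48 * b) (by omega) hB1000 hB1 hPr hhalf (p := p1 + 32 * b)
    (by omega) (by omega) (by omega) (by rw [← hb]; omega) (by omega) hT1l hT1u hRR1
  have hst1 := StR.lvl23 C (k := 0) (B := B) (p := p1 + 48 * b) (q := p1 + 56 * b)
    (by omega) (by show shi 1 + 10 ≤ B; omega) (by omega) (by omega) (by omega)
    (by rw [← hb]; omega) (by omega) hst
  have hst2 := StR.levels C (B := B) (by omega) (by omega) (p := p1 + 56 * b) (by omega)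
    (by omega) hst1 K (by omega) (by omega) (by omega) (by rw [← hl]; omega)
  rw [← hl] at hst2
  exact finishR C hhalf hZ (by omega) (p := p1 + 56 * b + l) (by omega) (by omega) (by omega) hst2

/-- The numerical data of the first block. -/
theorem short_num {a r : ℕ} {c η : ℝ} (hc : 0 < c) (hη : 0 < η) (hη1 : η ≤ 1 / 10000000)
    (hηc : 1024 * η ≤ c ^ 2) (haR : 100000000 ≤ (a : ℝ)) (har : (a : ℝ) ≤ r) :
    ∃ N : ℕ, 1 ≤ N ∧ η * a ≤ (N : ℝ) ^ 2 ∧ 1000000 * (N : ℝ) ^ 2 ≤ a ∧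
      16 * (N : ℝ) ≤ c / 2 * Real.sqrt r + 16 := by
  have ha0 : (0 : ℝ) < a := by linarith
  have hηa : 0 < η * (a : ℝ) := mul_pos hη ha0
  obtain ⟨x, hx⟩ : ∃ x, x = Real.sqrt (η * a) := ⟨_, rfl⟩
  have hsq : x ^ 2 = η * a := by rw [hx]; exact Real.sq_sqrt hηa.le
  have hsq0 : 0 < x := by rw [hx]; exact Real.sqrt_pos.2 hηa
  have hN1 : x ≤ (⌈x⌉₊ : ℝ) := Nat.le_ceil _
  have hN2 : (⌈x⌉₊ : ℝ) < x + 1 := Nat.ceil_lt_add_one hsq0.le
  have hs0 : 0 ≤ Real.sqrt r := Real.sqrt_nonneg _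
  refine ⟨⌈x⌉₊, Nat.one_le_iff_ne_zero.2 (Nat.ceil_pos.2 hsq0).ne', ?_, ?_, ?_⟩
  · rw [← hsq]
    exact pow_le_pow_left₀ hsq0.le hN1 2
  · have h1 : (⌈x⌉₊ : ℝ) ^ 2 ≤ (x + 1) ^ 2 :=
      pow_le_pow_left₀ (Nat.cast_nonneg _) hN2.le 2
    have h2 : (x + 1) ^ 2 ≤ 2 * (η * a) + 2 := by
      rw [← hsq]
      have : 0 ≤ (x - 1) ^ 2 := sq_nonneg _
      have e : (x + 1) ^ 2 = 2 * x ^ 2 + 2 - (x - 1) ^ 2 := by ring
      linarith
    have h4 : η * a ≤ 1 / 10000000 * a := mul_le_mul_of_nonneg_right hη1 ha0.le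
    linarith
  · have h1 : x ≤ c / 32 * Real.sqrt r := by
      rw [hx, Real.sqrt_le_left (mul_nonneg (by linarith) hs0), mul_pow,
        Real.sq_sqrt (Nat.cast_nonneg _)]
      have h2 : η ≤ (c / 32) ^ 2 := by
        have : (c / 32) ^ 2 = c ^ 2 / 1024 := by ring
        rw [this]
        linarith
      exact mul_le_mul h2 har ha0.le (sq_nonneg _)
    linarith

/-- The gap. -/
theorem short_gap {a r B N l Cc : ℕ} {c : ℝ} (hc : 0 < c) (hB1 : 1 ≤ B)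
    (hCB : (Cc : ℝ) ≤ B) (hCc : 2 * ((l : ℝ) + 400) / c ≤ Cc)
    (hB : B ^ 18 ≤ r) (hN : 16 * (N : ℝ) ≤ c / 2 * Real.sqrt r + 16)
    (hroom : (a : ℝ) + c * Real.sqrt r ≤ r) :
    a + 16 * N + 100 + 8 * B ^ 6 + (l + 70) * B ^ 8 ≤ r := by
  have hB9 : (B : ℝ) ^ 9 ≤ Real.sqrt r := by
    apply Real.le_sqrt_of_sq_le
    have h1 : ((B : ℝ) ^ 9) ^ 2 = ((B ^ 18 : ℕ) : ℝ) := by push_cast; ring
    rw [h1]
    exact Nat.cast_le.2 hB
  have hB1R : (1 : ℝ) ≤ B := by exact_mod_cast hB1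
  obtain ⟨y, hy⟩ : ∃ y, y = (B : ℝ) ^ 8 := ⟨_, rfl⟩
  have h7 : (1 : ℝ) ≤ y := by rw [hy]; exact one_le_pow₀ hB1R
  have h1 : ((l : ℝ) + 400) * y ≤ c / 2 * Real.sqrt r := by
    have h4 : 2 * ((l : ℝ) + 400) ≤ B * c := by
      rw [← div_le_iff₀ hc]
      exact hCc.trans hCB
    have h5 : ((l : ℝ) + 400) * y ≤ (B * c / 2) * y :=
      mul_le_mul_of_nonneg_right (by linarith) (by linarith)
    calc ((l : ℝ) + 400) * y ≤ (B * c / 2) * y := h5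
      _ = c / 2 * (B : ℝ) ^ 9 := by rw [hy]; ring
      _ ≤ c / 2 * Real.sqrt r := mul_le_mul_of_nonneg_left hB9 (by linarith)
  have h6 : (B : ℝ) ^ 6 ≤ y := by rw [hy]; exact pow_le_pow_right₀ hB1R (by norm_num)
  have h8 : (a : ℝ) + 16 * N + 100 + 8 * (B : ℝ) ^ 6 + ((l : ℝ) + 70) * y ≤ r := by
    have e1 : ((l : ℝ) + 400) * y = ((l : ℝ) + 70) * y + 330 * y := by ring
    have e2 : c * Real.sqrt r = c / 2 * Real.sqrt r + c / 2 * Real.sqrt r := by ring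
    linarith
  rw [hy] at h8
  exact_mod_cast h8

/-- **Reachable slopes very close to every large integer, started at a real number whose square is
just below an integer.** -/
theorem exists_shortR (h12 : P_BL12) (h3 : P_BL3) (K : ℕ) {c η : ℝ} (hc : 0 < c) (hη : 0 < η)
    (hη1 : η ≤ 1 / 10000000) (hηc : 1024 * η ≤ c ^ 2) :
    ∃ N : ℕ, ∀ (r a : ℕ) (δ : ℝ), N ≤ r → 0 < δ → a % 4 = r % 4 → (r - a) ^ 2 ≤ 81 * r →
      δ ^ 2 ≤ a → (a : ℝ) - δ ^ 2 ≤ η → (a : ℝ) + c * Real.sqrt r ≤ r →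
      ∃ σ, ReachR δ σ ∧ 0 < (r : ℝ) - σ ∧ (r : ℝ) - σ ≤ 1 / (r : ℝ) ^ K := by
  obtain ⟨Z, hZ⟩ : ∃ Z, Z = 8 * nL (CL (K + 1)) * 2 ^ (K + 4) := ⟨_, rfl⟩
  obtain ⟨W, hW⟩ : ∃ W, W = 2000000000 + (18 * (K + 10)) ^ 2 + 4096 * (K + 10 + 3) := ⟨_, rfl⟩
  obtain ⟨Cc, hCc⟩ : ∃ Cc : ℕ, 2 * ((lenL K : ℝ) + 400) / c ≤ Cc := exists_nat_ge _
  have hW0 : 2000000000 ≤ W := by
    rw [hW, add_assoc]
    exact Nat.le_add_right _ _
  obtain ⟨B0, hB0⟩ : ∃ B0, B0 = Cc + shi (K + 1) + K + Z + W := ⟨_, rfl⟩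
  refine ⟨(B0 + 1) ^ 18, fun r a δ hr hδ0 hmod ha hy1 hy2 hroom => ?_⟩
  obtain ⟨B, hB1, hB2⟩ := exists_root r
  have hBB0 : B0 ≤ B := by
    by_contra hcon
    have h0 : B + 1 ≤ B0 + 1 := Nat.succ_le_succ (not_le.1 hcon).le
    have h1 : (B + 1) ^ 18 ≤ (B0 + 1) ^ 18 := Nat.pow_le_pow_left h0 18
    exact absurd (lt_of_lt_of_le hB2 (h1.trans hr)) (lt_irrefl _)
  clear hr
  have hWB0 : W ≤ B0 := by rw [hB0]; exact Nat.le_add_left _ _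
  have hZB0 : Z ≤ B0 := by rw [hB0]; omega
  have hCB0 : Cc ≤ B0 := by rw [hB0]; omega
  have hsB0 : shi (K + 1) + 10 ≤ B0 := by rw [hB0]; omega
  have hKB0 : K + 4 ≤ B0 := by rw [hB0]; omega
  clear hB0
  have hBr : B ≤ r := by
    calc B = B ^ 1 := (pow_one _).symm
      _ ≤ B ^ 18 := Nat.pow_le_pow_right (le_trans (by norm_num) (hW0.trans (hWB0.trans hBB0)))
        (by norm_num)
      _ ≤ r := hB1
  have h1000 : 1000 ≤ B := le_trans (by norm_num) (hW0.trans (hWB0.trans hBB0))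
  have hWr : W ≤ r := (hWB0.trans hBB0).trans hBr
  have hs0 : 0 ≤ Real.sqrt r := Real.sqrt_nonneg _
  have harR : (a : ℝ) ≤ r := by
    have : 0 ≤ c * Real.sqrt r := mul_nonneg hc.le hs0
    linarith
  have har : a ≤ r := by exact_mod_cast harR
  obtain ⟨C, hPr, hhalf⟩ := ctx_ofR (r := r) (E := K + 10) hδ0 har ha (by
    rw [← hW]
    exact hWr)
  have hrB : r ≤ 2 * B ^ 18 := hB2.le.trans (root_double (le_trans (by norm_num) h1000))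
  have hrR : (2000000000 : ℝ) ≤ r := by
    have h1 : ((2000000000 : ℕ) : ℝ) ≤ (r : ℝ) := Nat.cast_le.2 (hW0.trans hWr)
    rwa [Nat.cast_ofNat] at h1
  obtain ⟨N, hNpos, hNsq1, hNsq2, hroomN⟩ := short_num hc hη hη1 hηc (a := a) (r := r)
    (by linarith) harR
  have hgap := short_gap (l := lenL K) hc (le_trans (by norm_num) h1000)
    (Nat.cast_le.2 (hCB0.trans hBB0)) hCc hB1 hroomN hroom
  refine short_auxR h12 h3 (N := N) rfl hB1 hrB h1000 (hsB0.trans hBB0) (hKB0.trans hBB0) C hPr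
    hhalf hmod hy1 (hy2.trans (hη1.trans (by norm_num))) ?_ ?_ hNpos hgap (by
      rw [← hZ]
      exact (hZB0.trans hBB0).trans hBr)
  · calc (a : ℝ) * (a - δ ^ 2) ≤ a * η := mul_le_mul_of_nonneg_left hy2 (Nat.cast_nonneg _)
      _ = η * a := mul_comm _ _
      _ ≤ _ := hNsq1
  · exact_mod_cast hNsq2

end Pool.Agent.H932R6
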