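import Mathlib
import Pool.Agent.H932R6.CritR
import Pool.Agent.H932R6.ShortE

set_option autoImplicit false

/-!
# All degrees except at most one
-/

namespace Pool.Agent.H932R6

open Polynomial Pool.Agent.H932R2 Pool.Agent.H932R3 Pool.Agent.H932R4

/-- Degrees at distance at least `ε / 2` from the critical one. -/
def WinE (n : ℕ) (S ε : ℝ) (d : ℕ) : Prop :=
  ε ≤ |2 * (d : ℝ) + 3 - Real.sqrt n - 2 * S / Real.sqrt n|

/-- The data needed for the ranks. -/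
structure WDR (n k : ℕ) (ε : ℝ) (u v : ℕ) (δ σ : ℝ) : Prop where
  hv : 0 < v
  hu : 0 < u
  hs : 64 ≤ Real.sqrt n
  hvv : (v : ℝ) ^ 2 ≤ Real.sqrt n / 8
  hδ : δ = (u : ℝ) / v
  hσ : ReachR δ σ
  h3 : |σ - n| ≤ 1
  h4 : ∀ M : ℕ, M ≤ n ^ k → (M : ℝ) * |σ - n| ≤ Real.sqrt σ / (16 * δ)
  hle : δ ≤ Real.sqrt n
  hge : Real.sqrt n - 1 ≤ δ
  hwin : Real.sqrt n - δ + (2 * (v : ℝ) ^ 2 + 15) / δ ≤ ε

/-- Elementary inequalities. -/
theorem num_T {s S m T : ℝ} (hs64 : 64 ≤ s) (hS1 : s * s * m ≤ S) (hS2 : S ≤ s * s * (m + 1))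
    (hT : T = s + 2 * S / s) (hm : s * s - 6 * s + 10 < m) :
    T ≤ s + 2 * s * (m + 1) ∧ 2 * (s * s * s) - 12 * (s * s) + 21 * s ≤ T ∧
      64 * (s * s) ≤ s * s * s ∧ 64 * s ≤ s * s := by
  have hs0 : 0 < s := by linarith
  have hT1 : s + 2 * s * m ≤ T := by
    have : 2 * s * m ≤ 2 * S / s := by
      rw [le_div_iff₀ hs0]
      have e : 2 * s * m * s = 2 * (s * s * m) := by ring
      linarith
    linarith
  have hT2 : T ≤ s + 2 * s * (m + 1) := by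
    have : 2 * S / s ≤ 2 * s * (m + 1) := by
      rw [div_le_iff₀ hs0]
      have e : 2 * s * (m + 1) * s = 2 * (s * s * (m + 1)) := by ring
      linarith
    linarith
  refine ⟨hT2, ?_, ?_, mul_le_mul_of_nonneg_right hs64 hs0.le⟩
  · have h5 : 2 * s * (s * s - 6 * s + 10) ≤ 2 * s * m :=
      mul_le_mul_of_nonneg_left hm.le (by positivity)
    have e5 : 2 * s * (s * s - 6 * s + 10) = 2 * (s * s * s) - 12 * (s * s) + 20 * s := by ring
    linarith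
  · have h1 : 64 * (s * s) ≤ s * (s * s) := mul_le_mul_of_nonneg_right hs64 (by positivity)
    linarith

theorem num_room {s e δ a η : ℝ} (he0 : 0 < e) (he8 : e ≤ 1 / 8) (hη : η ≤ e ^ 2)
    (hse : 60 ≤ e * s) (hs0 : 0 < s) (hδ0 : 0 < δ) (hl : s - e ≤ δ) (hu : δ ≤ s - e / 2)
    (hal : a - η ≤ δ ^ 2) (hau : δ ^ 2 ≤ a) : a + e / 2 * s ≤ s * s ∧ s * s - a ≤ 9 * s := by
  have hδsq1 : (s - e) ^ 2 ≤ δ ^ 2 := pow_le_pow_left₀ (by nlinarith) hl 2
  have hδsq2 : δ ^ 2 ≤ (s - e / 2) ^ 2 := pow_le_pow_left₀ hδ0.le hu 2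
  have e1 : (s - e) ^ 2 = s * s - 2 * (e * s) + e ^ 2 := by ring
  have e2 : (s - e / 2) ^ 2 = s * s - e * s + e ^ 2 / 4 := by ring
  have e3 : e / 2 * s = e * s / 2 := by ring
  have h4 : e * s ≤ 1 / 8 * s := mul_le_mul_of_nonneg_right he8 hs0.le
  have h5 : e ^ 2 ≤ 1 := by nlinarith
  have h6 : 0 ≤ e ^ 2 := sq_nonneg e
  rw [e3]
  constructor <;> linarith

theorem exists_WDR (h12 : P_BL12) (hb3 : P_BL3) (hNT : P_NT) (k : ℕ) {ε : ℝ} (hε : 0 < ε)
    (hε1 : ε ≤ 1) : ∃ N : ℕ, 100 ≤ N ∧ ∀ n : ℕ, N ≤ n →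
      ∃ (u v : ℕ) (δ σ : ℝ), WDR n k ε u v δ σ := by
  obtain ⟨e, he⟩ : ∃ e, e = ε / 8 := ⟨_, rfl⟩
  have he0 : 0 < e := by rw [he]; positivity
  have he8 : e ≤ 1 / 8 := by rw [he]; linarith
  have he2 : e ^ 2 ≤ 1 := by nlinarith
  obtain ⟨η, hη⟩ : ∃ η, η = e ^ 2 / 100000000 := ⟨_, rfl⟩
  have hη0 : 0 < η := by rw [hη]; positivity
  have hη1 : η ≤ 1 / 10000000 := by rw [hη]; linarith
  obtain ⟨N1, hN1⟩ := hNT e η he0 (by linarith) hη0 (by linarith)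
  obtain ⟨N2, hN2⟩ := exists_shortR h12 hb3 (k + 1) (c := e / 2) (η := η) (by positivity) hη0 hη1
    (by rw [hη]; nlinarith)
  obtain ⟨N3, hN3⟩ : ∃ N3 : ℕ, (64 + 60 / e) ^ 2 ≤ N3 := exists_nat_ge _
  refine ⟨N1 + N2 + N3 + 100, by omega, fun n hn => ?_⟩
  have hn3 : (N3 : ℝ) ≤ n := by exact_mod_cast (show N3 ≤ n by omega)
  have hn0 : (0 : ℝ) < n := by exact_mod_cast (show 0 < n by omega)
  obtain ⟨s, hs⟩ : ∃ s, s = Real.sqrt n := ⟨_, rfl⟩
  have hss : s * s = n := by rw [hs]; exact Real.mul_self_sqrt hn0.le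
  have h60 : 0 < 60 / e := by positivity
  have hs64 : 64 + 60 / e ≤ s := by
    rw [hs]
    apply Real.le_sqrt_of_sq_le
    exact hN3.trans hn3
  have hs0 : 0 < s := by linarith
  have hse : 60 ≤ e * s := by
    have h1 : 60 / e ≤ s := by linarith
    rw [div_le_iff₀ he0] at h1
    linarith
  obtain ⟨u, v, a, hv, hvv, hmod, hl, hu, hal, hau⟩ := hN1 n (by omega)
  rw [← hs] at hvv hl hu
  obtain ⟨δ, hδ⟩ : ∃ δ : ℝ, δ = (u : ℝ) / v := ⟨_, rfl⟩
  rw [← hδ] at hl hu hal hau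
  have hvR : (0 : ℝ) < v := by exact_mod_cast hv
  have hδ0 : 0 < δ := by linarith
  have hu0 : 0 < u := by
    rcases Nat.eq_zero_or_pos u with h | h
    · rw [h, Nat.cast_zero, zero_div] at hδ
      linarith
    · exact h
  obtain ⟨hroom', hgap'⟩ := num_room (η := η) he0 he8 (by rw [hη]; nlinarith) hse hs0 hδ0 hl hu hal
    (by linarith)
  have hroom : (a : ℝ) + e / 2 * s ≤ n := by
    rw [← hss]
    exact hroom'
  have haR : (a : ℝ) ≤ n := by
    have : 0 < e / 2 * s := by positivity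
    linarith
  have han : a ≤ n := by exact_mod_cast haR
  have hgap : (n - a) ^ 2 ≤ 81 * n := by
    have h1 : ((n - a : ℕ) : ℝ) ≤ 9 * s := by
      rw [Nat.cast_sub han, ← hss]
      exact hgap'
    have h2 : ((n - a : ℕ) : ℝ) ^ 2 ≤ 81 * n := by
      calc ((n - a : ℕ) : ℝ) ^ 2 ≤ (9 * s) ^ 2 := pow_le_pow_left₀ (Nat.cast_nonneg _) h1 2
        _ = 81 * n := by rw [← hss]; ring
    exact_mod_cast h2
  obtain ⟨σ, hσ, hσ1, hσ2⟩ := hN2 n a δ (by omega) hδ0 hmod hgap (by linarith) (by linarith)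
    (by rw [← hs]; exact hroom)
  have hn100 : (100 : ℝ) ≤ n := by exact_mod_cast (show 100 ≤ n by omega)
  have hn1 : (1 : ℝ) ≤ n := by linarith
  have hpow1 : (1 : ℝ) ≤ (n : ℝ) ^ k := one_le_pow₀ hn1
  have hinv : 1 / (n : ℝ) ^ (k + 1) ≤ 1 / n := by
    refine one_div_le_one_div_of_le hn0 ?_
    calc (n : ℝ) = 1 * n := (one_mul _).symm
      _ ≤ (n : ℝ) ^ k * n := mul_le_mul_of_nonneg_right hpow1 hn0.le
      _ = (n : ℝ) ^ (k + 1) := (pow_succ _ _).symm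
  have hinv1 : 1 / (n : ℝ) ≤ 1 := by
    rw [div_le_one hn0]
    exact hn1
  have habs : |σ - n| = n - σ := by rw [abs_sub_comm, abs_of_pos hσ1]
  refine ⟨u, v, δ, σ, hv, hu0, by rw [← hs]; linarith, ?_, hδ, hσ, ?_, ?_, ?_, ?_, ?_⟩
  · rw [← hs]
    have : e * s ≤ 1 / 8 * s := mul_le_mul_of_nonneg_right he8 hs0.le
    linarith
  · rw [habs]
    linarith
  · intro M hM
    have hMR : (M : ℝ) ≤ (n : ℝ) ^ k := by exact_mod_cast hM
    rw [habs]
    have h1 : (M : ℝ) * (n - σ) ≤ (n : ℝ) ^ k * (1 / (n : ℝ) ^ (k + 1)) :=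
      mul_le_mul hMR hσ2 hσ1.le (by positivity)
    have h2 : (n : ℝ) ^ k * (1 / (n : ℝ) ^ (k + 1)) = 1 / n := by
      rw [pow_succ]
      field_simp
    have h3 : 1 ≤ Real.sqrt σ := by
      rw [Real.one_le_sqrt]
      have : 1 / (n : ℝ) ^ (k + 1) ≤ 1 := hinv.trans hinv1
      linarith
    have h4 : 1 / (n : ℝ) ≤ Real.sqrt σ / (16 * δ) := by
      rw [div_le_div_iff₀ hn0 (by positivity), one_mul]
      calc 16 * δ ≤ s * s := mul_le_mul (by linarith) (by linarith) hδ0.le hs0.le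
        _ = 1 * n := by rw [hss, one_mul]
        _ ≤ Real.sqrt σ * n := mul_le_mul_of_nonneg_right h3 hn0.le
    rw [h2] at h1
    exact h1.trans h4
  · rw [← hs]
    linarith
  · rw [← hs]
    linarith
  · rw [← hs]
    have h1 : (2 * (v : ℝ) ^ 2 + 15) / δ ≤ 5 * e := by
      rw [div_le_iff₀ hδ0]
      have h5 : 5 * e * (s - e) ≤ 5 * e * δ := mul_le_mul_of_nonneg_left hl (by positivity)
      have h6 : 5 * e * (s - e) = 5 * (e * s) - 5 * e ^ 2 := by ring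
      linarith
    have h2 : ε = 8 * e := by rw [he]; ring
    linarith

theorem win_ranksR (hCX : P_CX) (hM1 : P_M1) (hM2 : P_M2) {K : Type*} [Field K] [Infinite K]
    {n m k u v : ℕ} {ε δ σ : ℝ} (hε1 : ε ≤ 1) (hD : WDR n k ε u v δ σ)
    (hn : 100 ≤ n) (hm : 1 ≤ m) (hmk : m + 1 ≤ n ^ k)
    {𝒞 : Set (Fin n → K)} {x : Fin n → K} (hx : x ∈ 𝒞)
    (h𝒞 : AffInv 𝒞) {w : Fin n → ℕ} (hw : ∀ a, w a = m ∨ w a = m + 1)
    (hK : ∀ k : ℕ, 0 < k → k ≤ n * (m + 2) → (k : K) ≠ 0) :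
    ∃ e f : ℕ, RkS (wFam 𝒞 w) (Tset e) (Tfin e).card ∧
      RkS (wFam 𝒞 w) (Tset f) (∑ a, (w a + 1).choose 2) ∧
      ∀ d : ℕ, WinE n (∑ a, (w a : ℝ)) ε d → d ≤ e ∨ f ≤ d := by
  by_cases hlin : ((m + 1 : ℕ) : ℝ) ≤ n - 6 * Real.sqrt n + 11
  · obtain ⟨e, h1, h2⟩ := near_rank (by omega) hm hx h𝒞 hw (near_cond (by omega) hw (Or.inl hlin)) hK
    exact ⟨e, e + 1, h1, h2, fun d _ => by omega⟩
  · have hlin' := not_le.1 hlin
    obtain ⟨hv, hu, hs64, hvv, hδ, hσ, h3, h4, hle, hge, hwin⟩ := hD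
    obtain ⟨s, hs⟩ : ∃ s, s = Real.sqrt n := ⟨_, rfl⟩
    have hnR : (100 : ℝ) ≤ n := by exact_mod_cast hn
    have hss : s * s = n := by rw [hs]; exact Real.mul_self_sqrt (by linarith)
    have hmR : (0 : ℝ) ≤ m := Nat.cast_nonneg m
    rw [← hs] at hlin' hwin hle hge hs64 hvv
    have hs0 : 0 < s := by linarith
    have hvR : (0 : ℝ) < v := by exact_mod_cast hv
    have hv1 : (1 : ℝ) ≤ v := by exact_mod_cast hv
    have huR : (0 : ℝ) < u := by exact_mod_cast hu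
    have hδ0 : 0 < δ := by linarith
    have hvv' : (v : ℝ) ≤ (v : ℝ) ^ 2 := by
      rw [pow_two]
      exact le_mul_of_one_le_left hvR.le hv1
    obtain ⟨S, hS⟩ : ∃ S, S = ∑ a, (w a : ℝ) := ⟨_, rfl⟩
    have hS1 : n * (m : ℝ) ≤ S := by
      rw [hS]
      calc n * (m : ℝ) = ∑ _a : Fin n, (m : ℝ) := by
            rw [Finset.sum_const, Finset.card_univ, Fintype.card_fin, nsmul_eq_mul]
        _ ≤ ∑ a, (w a : ℝ) := by
            refine Finset.sum_le_sum fun a _ => ?_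
            rcases hw a with h' | h' <;> rw [h']
            push_cast
            linarith
    have hS2 : S ≤ n * (m + 1) := by rw [hS]; exact sum_near_le hw
    obtain ⟨T, hT⟩ : ∃ T, T = s + 2 * S / s := ⟨_, rfl⟩
    push_cast at hlin'
    rw [← hss] at hlin'
    have hm2 : s * s - 6 * s + 10 < m := by linarith
    obtain ⟨hT2, hT3, hsss, hss64⟩ := num_T hs64 (by rw [hss]; exact hS1) (by rw [hss]; exact hS2)
      hT hm2
    obtain ⟨W, hW⟩ : ∃ W, W = s - δ + (2 * (v : ℝ) ^ 2 + 15) / (δ : ℝ) := ⟨_, rfl⟩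
    have hW0 : 0 < W := by
      have : 0 < (2 * (v : ℝ) ^ 2 + 15) / (δ : ℝ) := by positivity
      linarith
    rw [← hW] at hwin
    have hWin : ∀ d : ℕ, WinE n S ε d → W ≤ |2 * (d : ℝ) + 3 - s - 2 * S / s| := by
      intro d hd
      unfold WinE at hd
      rw [← hs] at hd
      exact hwin.trans hd
    have hT0 : 0 ≤ (T - 3 - W) / 2 := by
      have : 0 < s * s * s := by positivity
      linarith
    obtain ⟨e, he⟩ : ∃ e, e = ⌊(T - 3 - W) / 2⌋₊ := ⟨_, rfl⟩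
    obtain ⟨f, hf⟩ : ∃ f, f = ⌈(T - 3 + W) / 2⌉₊ := ⟨_, rfl⟩
    have he1 : (e : ℝ) ≤ (T - 3 - W) / 2 := by rw [he]; exact Nat.floor_le hT0
    have he2 : (T - 3 - W) / 2 < e + 1 := by rw [he]; exact Nat.lt_floor_add_one _
    have hf1 : (T - 3 + W) / 2 ≤ f := by rw [hf]; exact Nat.le_ceil _
    have hf2 : (f : ℝ) < (T - 3 + W) / 2 + 1 := by rw [hf]; exact Nat.ceil_lt_add_one (by linarith)
    have hef : e ≤ f := by
      have : (e : ℝ) ≤ f := by linarith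
      exact_mod_cast this
    obtain ⟨ρ, hρ⟩ : ∃ ρ, ρ = ⌊δ ^ 2⌋₊ - 2 := ⟨_, rfl⟩
    have hδ2 : 2 ≤ δ ^ 2 := by
      have h5 : (2 : ℝ) ^ 2 ≤ δ ^ 2 := pow_le_pow_left₀ (by norm_num) (by linarith) 2
      linarith
    have hfl1 : ((⌊δ ^ 2⌋₊ : ℕ) : ℝ) ≤ δ ^ 2 := Nat.floor_le (by positivity)
    have hfl2 : δ ^ 2 < (⌊δ ^ 2⌋₊ : ℝ) + 1 := Nat.lt_floor_add_one _
    have hfl3 : 2 ≤ ⌊δ ^ 2⌋₊ := by
      rw [Nat.le_floor_iff (by positivity)]
      exact_mod_cast hδ2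
    have hρR : (ρ : ℝ) = (⌊δ ^ 2⌋₊ : ℝ) - 2 := by
      rw [hρ, Nat.cast_sub hfl3]
      push_cast
      ring
    have huδ : (u : ℝ) = δ * v := by
      rw [hδ]
      field_simp
    have hShp : ∀ d : ℕ, e ≤ d → d ≤ f → Shp u v d (n * (m + 2)) ρ := by
      intro d hed hdf
      have hedR : (e : ℝ) ≤ d := by exact_mod_cast hed
      have hdfR : (d : ℝ) ≤ f := by exact_mod_cast hdf
      have hd1 : (T - 6) / 2 ≤ d := by linarith
      have hd2 : (d : ℝ) + 1 ≤ s * (m + 2) := by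
        have e9 : s * ((m : ℝ) + 2) = (s + 2 * s * (m + 1)) / 2 + s / 2 := by ring
        rw [e9]
        linarith
      refine ⟨hv, ?_, ?_, ?_, ?_, ?_, ?_, ?_⟩
      · have h5 : ((v * v : ℕ) : ℝ) ≤ u := by
          push_cast
          rw [huδ, ← pow_two]
          have : δ * 1 ≤ δ * v := mul_le_mul_of_nonneg_left hv1 hδ0.le
          linarith
        exact_mod_cast h5
      · have h5 : ((v * v : ℕ) : ℝ) ≤ d := by
          push_cast
          rw [← pow_two]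
          have : 0 < s * s * s := by positivity
          linarith
        exact_mod_cast h5
      · have e1 : (u : ℝ) ^ 2 / ((v : ℝ) * v) = δ ^ 2 := by
          rw [huδ]
          field_simp
        rw [e1, huδ, ← pow_two]
        have h5 : δ * (3 / 4 * δ ^ 2 + (v : ℝ) ^ 2 + 1) ≤ (2 * (d : ℝ) + 3 - v) / 2 := by
          have h6 : δ ^ 2 ≤ s ^ 2 := pow_le_pow_left₀ hδ0.le hle 2
          have h7 : δ * (3 / 4 * δ ^ 2 + (v : ℝ) ^ 2 + 1) ≤ s * (3 / 4 * s ^ 2 + s / 8 + 1) :=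
            mul_le_mul hle (by linarith) (by positivity) hs0.le
          have e2 : s * (3 / 4 * s ^ 2 + s / 8 + 1) = 3 / 4 * (s * s * s) + s * s / 8 + s := by ring
          rw [e2] at h7
          linarith
        have h8 : δ * (3 / 4 * δ ^ 2 + (v : ℝ) ^ 2 + 1) * v ≤ (2 * (d : ℝ) + 3 - v) / 2 * v :=
          mul_le_mul_of_nonneg_right h5 hvR.le
        calc δ * v * (3 / 4 * δ ^ 2 + (v : ℝ) ^ 2 + 1)
            = δ * (3 / 4 * δ ^ 2 + (v : ℝ) ^ 2 + 1) * v := by ring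
          _ ≤ (2 * (d : ℝ) + 3 - v) / 2 * v := h8
          _ = ((v : ℝ) * (2 * d + 3) - (v : ℝ) ^ 2) / 2 := by ring
      · have h5 : ((v * (d + 1) : ℕ) : ℝ) ≤ ((n * (m + 2) : ℕ) : ℝ) := by
          push_cast
          rw [← hss]
          calc (v : ℝ) * (d + 1) ≤ s * (s * (m + 2)) :=
                mul_le_mul (by linarith) hd2 (by positivity) hs0.le
            _ = s * s * (m + 2) := by ring
        exact_mod_cast h5
      · have h5 : ((u * (d + 1) : ℕ) : ℝ) ≤ ((v * (n * (m + 2)) : ℕ) : ℝ) := by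
          push_cast
          rw [← hss, huδ]
          have h6 : δ * ((d : ℝ) + 1) ≤ s * (s * (m + 2)) :=
            mul_le_mul hle hd2 (by positivity) hs0.le
          calc δ * v * ((d : ℝ) + 1) = v * (δ * ((d : ℝ) + 1)) := by ring
            _ ≤ v * (s * (s * (m + 2))) := mul_le_mul_of_nonneg_left h6 hvR.le
            _ = v * (s * s * (m + 2)) := by ring
        exact_mod_cast h5
      · rw [← hδ, hρR]
        linarith
      · rw [← hδ, hρR]
        linarith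
    refine ⟨e, f, ?_, ?_, fun d hd => ?_⟩
    · refine win_upperR hCX hM1 hM2 (by omega) hx h𝒞 hw hu (hShp e le_rfl hef) hδ hσ h3
        (h4 _ hmk) ?_ hK
      rw [← hs, ← hS, ← hT, ← hW]
      linarith
    · refine win_lowerR hCX hM1 hM2 (by omega) hx h𝒞 hw hu (hShp f hef le_rfl) hδ (by linarith) hσ
        h3 (h4 _ hmk) ?_ hK
      rw [← hs, ← hS, ← hT, ← hW]
      linarith
    · rw [← hS] at hd
      have hd' := hWin d hd
      have hd'' : W ≤ |2 * (d : ℝ) + 3 - T| := by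
        rw [hT]
        convert hd' using 2
        ring
      rcases le_abs.1 hd'' with h5 | h5
      · right
        rw [hf, Nat.ceil_le]
        linarith
      · left
        rw [he, Nat.le_floor_iff hT0]
        linarith

end Pool.Agent.H932R6
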