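import Mathlib
import Pool.Agent.H932R4.Final
import Pool.Agent.H932R6.WinRankR
import Pool.Agent.H932R6.TCX
import Pool.Agent.H932R6.TTRI
import Pool.Agent.H932R6.TUN
import Pool.Agent.H932R6.TFF
import Pool.Agent.H932R6.TCLEAN
import Pool.Agent.H932R6.TM1
import Pool.Agent.H932R6.TM2
import Pool.Agent.H932R6.TSW
import Pool.Agent.H932R6.TGV
import Pool.Agent.H932R6.TNT
import Pool.Agent.H932R6.TSTG
import Pool.Agent.H932R6.TF1
import Pool.Agent.H932R6.TF2
import Pool.Agent.H932R6.TBL12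
import Pool.Agent.H932R6.TBL3

set_option autoImplicit false

/-!
# All degrees except at most one: points and collisions
-/

namespace Pool.Agent.H932R6

open Polynomial Pool.Agent.H932R2 Pool.Agent.H932R3 Pool.Agent.H932R4

theorem A_M1 : P_M1 := T_M1 T_CX T_TRI T_FF

theorem A_M2 : P_M2 := T_M2 T_CX T_TRI T_UN T_FF T_CLEAN

theorem A_NT : P_NT := T_NT T_SW T_GV

theorem A_BL12 : P_BL12 := T_BL12 T_STG T_F1 T_F2

/-- The data exist. -/
theorem exists_data (k : ℕ) {ε : ℝ} (hε : 0 < ε) : ∃ N : ℕ, 100 ≤ N ∧ ∀ n : ℕ, N ≤ n →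
    ∃ (u v : ℕ) (δ σ : ℝ), WDR n k (min ε 1) u v δ σ :=
  exists_WDR A_BL12 T_BL3 A_NT k (lt_min hε one_pos) (min_le_right _ _)

theorem WinE.min {n : ℕ} {S ε : ℝ} {d : ℕ} (h : WinE n S ε d) : WinE n S (min ε 1) d :=
  le_trans (min_le_left _ _) h

/-- All degrees outside the window, near-uniform multiplicities. -/
theorem win_expR {L : Type*} [Field L] [CharZero L] {n m k u v : ℕ} {ε δ σ : ℝ}
    (hD : WDR n k (min ε 1) u v δ σ) (hn : 100 ≤ n) (hm : 1 ≤ m) (hmk : m + 1 ≤ n ^ k)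
    {w : Fin n → ℕ} (hw : ∀ a, w a = m ∨ w a = m + 1) :
    ∃ F : MvPolynomial (Fin n × Fin 2) ℚ, F ≠ 0 ∧
      ∀ P : Fin n → Fin 2 → L,
        MvPolynomial.aeval (fun ij : Fin n × Fin 2 => P ij.1 ij.2) F ≠ 0 →
        ∀ d : ℕ, WinE n (∑ a, (w a : ℝ)) ε d → ExpDim L w P d := by
  have hx0 : (fun i : Fin n => Infinite.natEmbedding ℚ i) ∈
      {x : Fin n → ℚ | Function.Injective x} := by
    intro a b hab
    exact Fin.ext ((Infinite.natEmbedding ℚ).injective hab)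
  obtain ⟨e, f, h1, h2, h3⟩ := win_ranksR T_CX A_M1 A_M2 (K := ℚ) (min_le_right _ _) hD hn hm hmk
    hx0 (affInv_inj n) hw (fun k hk _ => by exact_mod_cast hk.ne')
  obtain ⟨F, hF, hF'⟩ := points_two (L := L) h1 h2
  exact ⟨F, hF, fun P hP d hd => hF' P hP d (h3 d hd.min)⟩

/-- All degrees outside the window, equal multiplicities. -/
theorem win_uniformR {L : Type*} [Field L] [CharZero L] {n m k u v : ℕ} {ε δ σ : ℝ}
    (hD : WDR n k (min ε 1) u v δ σ) (hn : 100 ≤ n) (hk : 1 ≤ k) (hm : 1 ≤ m) (hmk : m ≤ n ^ k) :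
    ∃ F : MvPolynomial (Fin n × Fin 2) ℚ, F ≠ 0 ∧
      ∀ P : Fin n → Fin 2 → L,
        MvPolynomial.aeval (fun ij : Fin n × Fin 2 => P ij.1 ij.2) F ≠ 0 →
        ∀ d : ℕ, WinE n (n * m) ε d → ExpDim L (fun _ : Fin n => m) P d := by
  have hsum : ∑ _a : Fin n, (((fun _ : Fin n => m) _a : ℕ) : ℝ) = n * m := by
    rw [Finset.sum_const, Finset.card_univ, Fintype.card_fin, nsmul_eq_mul]
  rcases Nat.lt_or_ge 1 m with h1 | h1
  · obtain ⟨F, hF, hF'⟩ := win_expR (L := L) (n := n) (m := m - 1) (w := fun _ => m) hD hn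
      (by omega) (by omega) (fun a => Or.inr (by omega))
    rw [hsum] at hF'
    exact ⟨F, hF, hF'⟩
  · obtain ⟨F, hF, hF'⟩ := win_expR (L := L) (n := n) (m := m) (w := fun _ => m) hD hn hm
      (by
        have h2 : n ≤ n ^ k := Nat.le_self_pow (by omega) n
        omega) (fun a => Or.inl rfl)
    rw [hsum] at hF'
    exact ⟨F, hF, hF'⟩

/-- All degrees outside the window, for general collisions. -/
theorem win_collisionR {K : Type*} [Field K] [Infinite K] {r m k u v : ℕ} {ε δ σ : ℝ}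
    (hD : WDR r k (min ε 1) u v δ σ)
    (hr : 100 ≤ r) (hk : 1 ≤ k) (hm : 1 ≤ m) (hmk : m ≤ r ^ k)
    (hK : ∀ k : ℕ, 0 < k → k ≤ r * (m + 2) → (k : K) ≠ 0) :
    ∃ F : MvPolynomial (Fin (r + 1)) K, F ≠ 0 ∧
      ∀ (c : K) (a : Fin r → K), MvPolynomial.eval (Fin.cons c a : Fin (r + 1) → K) F ≠ 0 →
        ∀ d : ℕ, WinE r (r * m) ε d → JetDim r m c a d := by
  have hsum : ∑ _a : Fin r, (((fun _ : Fin r => m) _a : ℕ) : ℝ) = r * m := by
    rw [Finset.sum_const, Finset.card_univ, Fintype.card_fin, nsmul_eq_mul]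
  have hx0 : (fun _ : Fin r => (0 : K)) ∈ {x : Fin r → K | ∃ c, x = fun _ => c} := ⟨0, rfl⟩
  obtain ⟨e, f, h1, h2, h3⟩ : ∃ e f : ℕ,
      RkS (wFam {x : Fin r → K | ∃ c, x = fun _ => c} fun _ => m) (Tset e) (Tfin e).card ∧
      RkS (wFam {x : Fin r → K | ∃ c, x = fun _ => c} fun _ => m) (Tset f)
        (∑ _a : Fin r, (m + 1).choose 2) ∧
      ∀ d : ℕ, WinE r (r * m) (min ε 1) d → d ≤ e ∨ f ≤ d := by
    rcases Nat.lt_or_ge 1 m with h1 | h1
    · obtain ⟨e, f, h2, h3, h4⟩ := win_ranksR T_CX A_M1 A_M2 (K := K) (n := r) (m := m - 1)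
        (w := fun _ => m) (min_le_right _ _) hD hr
        (by omega) (by omega) hx0 (affInv_const r) (fun a => Or.inr (by omega))
        (fun k hk hk' => hK k hk (hk'.trans (Nat.mul_le_mul_left _ (by omega))))
      rw [hsum] at h4
      exact ⟨e, f, h2, h3, h4⟩
    · obtain ⟨e, f, h2, h3, h4⟩ := win_ranksR T_CX A_M1 A_M2 (K := K) (n := r) (m := m)
        (w := fun _ => m) (min_le_right _ _) hD hr
        hm (by
          have h2 : r ≤ r ^ k := Nat.le_self_pow (by omega) r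
          omega) hx0 (affInv_const r) (fun a => Or.inl rfl)
        (fun k hk hk' => hK k hk (hk'.trans (Nat.mul_le_mul_left _ (by omega))))
      rw [hsum] at h4
      exact ⟨e, f, h2, h3, h4⟩
  obtain ⟨F1, hF1, hF1'⟩ := hopC (by omega) h1
  obtain ⟨F2, hF2, hF2'⟩ := hopC (by omega) h2
  refine ⟨F1 * F2, mul_ne_zero hF1 hF2, fun c a hP d hd => ?_⟩
  rw [map_mul] at hP
  have h5 := hF1' _ _ (left_ne_zero_of_mul hP)
  have h6 := hF2' _ _ (right_ne_zero_of_mul hP)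
  rw [Finset.sum_const, Finset.card_univ, Fintype.card_fin, smul_eq_mul] at h6
  rcases h3 d hd.min with h7 | h7
  · exact jet_full h5 d h7
  · exact jet_indep h6 d h7

/-- `2 S / √n = 2 √n m` for `S = n m`. -/
theorem WinE.uni {n m d : ℕ} {ε : ℝ} (hn : 0 < n)
    (hd : ε ≤ |2 * (d : ℝ) + 3 - Real.sqrt n - 2 * (Real.sqrt n * m)|) :
    WinE n (n * m) ε d := by
  unfold WinE
  have h := sum_const_div (m := m) hn
  rw [Finset.sum_const, Finset.card_univ, Fintype.card_fin, nsmul_eq_mul] at h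
  rw [h]
  exact hd

end Pool.Agent.H932R6
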