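import Mathlib
import Pool.Agent.H932R6.Stubs

set_option autoImplicit false

/-!
# The first two blocks
-/

namespace Pool.Agent.H932R6

open Polynomial Pool.Agent.H932R2 Pool.Agent.H932R3 Pool.Agent.H932R4

namespace BL12h

/-- The real estimates at the start. -/
theorem startT {A d n : ℝ} (hd : d ≤ A) (hy : A - d ≤ 1 / 1000) (hAy : A * (A - d) ≤ n ^ 2)
    (hn : 1 ≤ n) (hA : 1000000 * n ^ 2 ≤ A) :
    0 ≤ (Real.log A - Real.log d) / 2 ∧
      (Real.log A - Real.log d) / 2 + 1 / (4 * (A - 2) ^ 2) ≤ (0.51 * n ^ 2 + 0.26) / A ^ 2 := by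
  have hn2 : 1 ≤ n ^ 2 := by nlinarith
  have hA6 : 1000000 ≤ A := by linarith
  have hd0 : 0 < d := by linarith
  have hA0 : 0 < A := by linarith
  have h1 : Real.log d ≤ Real.log A := Real.log_le_log hd0 hd
  refine ⟨by linarith, ?_⟩
  have h2 : Real.log A - Real.log d ≤ (A - d) / d := by
    rw [← Real.log_div hA0.ne' hd0.ne']
    have h3 := Real.log_le_sub_one_of_pos (show 0 < A / d by positivity)
    have h4 : A / d - 1 = (A - d) / d := by
      field_simp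
    linarith
  have h3 : (A - d) / d ≤ 1.02 * n ^ 2 / A ^ 2 := by
    rw [div_le_div_iff₀ hd0 (by positivity)]
    have h5 : A ≤ 1.02 * d := by linarith
    have h6 : (A - d) * A ^ 2 = (A * (A - d)) * A := by ring
    rw [h6]
    calc (A * (A - d)) * A ≤ n ^ 2 * A := mul_le_mul_of_nonneg_right hAy hA0.le
      _ ≤ n ^ 2 * (1.02 * d) := mul_le_mul_of_nonneg_left h5 (by positivity)
      _ = 1.02 * n ^ 2 * d := by ring
  have h4 : 1 / (4 * (A - 2) ^ 2) ≤ 0.26 / A ^ 2 := by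
    rw [div_le_div_iff₀ (by
      have : 0 < A - 2 := by linarith
      positivity) (by positivity)]
    nlinarith
  have h5 : (0.51 * n ^ 2 + 0.26) / A ^ 2 = (1.02 * n ^ 2 / A ^ 2) / 2 + 0.26 / A ^ 2 := by
    ring
  rw [h5]
  linarith

/-- The first block covers the range. -/
theorem f1_lower (h1 : P_F1) {A n : ℝ} (hA : 1 ≤ A) (hn : 0 ≤ n) (m : ℕ) (hm : (m : ℝ) ≤ n) :
    2 * (m : ℝ) * (m + 1) / (A + 4 * n + 7) ^ 2 ≤ f1 A m := by
  obtain ⟨h0, hs⟩ := h1 A hA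
  induction m with
  | zero => simp [h0]
  | succ m ih =>
    have hm' : (m : ℝ) + 1 ≤ n := by
      push_cast at hm
      exact hm
    have h2 := ih (by linarith)
    have h3 := (hs m).1
    have hm0 : (0 : ℝ) ≤ m := Nat.cast_nonneg m
    have h4 : 4 * ((m : ℝ) + 1) / (A + 4 * n + 7) ^ 2 ≤ 4 * ((m : ℝ) + 1) / (A + 4 * m + 7) ^ 2 := by
      refine div_le_div_of_nonneg_left (by positivity) (by positivity) ?_
      exact pow_le_pow_left₀ (by positivity) (by linarith) 2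
    have h5 : 2 * ((m + 1 : ℕ) : ℝ) * ((m + 1 : ℕ) + 1) / (A + 4 * n + 7) ^ 2 =
        2 * (m : ℝ) * (m + 1) / (A + 4 * n + 7) ^ 2 + 4 * ((m : ℝ) + 1) / (A + 4 * n + 7) ^ 2 := by
      push_cast
      ring
    rw [h5]
    linarith

/-- The first block reaches the start. -/
theorem start_le {A n : ℝ} (hn : 1 ≤ n) (hA : 1000000 * n ^ 2 ≤ A) :
    (0.51 * n ^ 2 + 0.26) / A ^ 2 ≤ 2 * n * (n + 1) / (A + 4 * n + 7) ^ 2 := by
  have hn2 : n ≤ n ^ 2 := by nlinarith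
  have hA0 : 0 < A := by nlinarith
  have hn0 : 0 < n := by linarith
  rw [div_le_div_iff₀ (by positivity) (by positivity)]
  have h1 : A + 4 * n + 7 ≤ 1.1 * A := by nlinarith
  have h2 : (A + 4 * n + 7) ^ 2 ≤ (1.1 * A) ^ 2 := pow_le_pow_left₀ (by positivity) h1 2
  calc (0.51 * n ^ 2 + 0.26) * (A + 4 * n + 7) ^ 2
      ≤ (0.51 * n ^ 2 + 0.26) * (1.1 * A) ^ 2 := mul_le_mul_of_nonneg_left h2 (by positivity)
    _ = ((0.51 * n ^ 2 + 0.26) * 1.21) * A ^ 2 := by ring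
    _ ≤ 2 * n * (n + 1) * A ^ 2 := by
        refine mul_le_mul_of_nonneg_right ?_ (by positivity)
        nlinarith

/-- The second block covers the range. -/
theorem f2_lower (h1 : P_F1) (h2 : P_F2) {p n : ℝ} (hn : 1 ≤ n) (hp : 1000000 * n ^ 2 ≤ p)
    (m : ℕ) (hm : (m : ℝ) ≤ 3 * n + 1) :
    3.99 / p ^ 2 + 1.99 * m / p ^ 2 ≤ f2 p (m + 1) := by
  have hn2 : 1 ≤ n ^ 2 := by nlinarith
  have hp6 : 1000000 ≤ p := by linarith
  have hp1 : 1 ≤ p := by linarith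
  have hp0 : 0 < p := by linarith
  obtain ⟨h10, h1s⟩ := h1 p hp1
  obtain ⟨h20, h2s⟩ := h2 p hp1
  induction m with
  | zero =>
    have h3 := (h1s 0).1
    have e1 : f2 p (0 + 1) = f1 p (0 + 1) := h20
    rw [e1]
    rw [h10] at h3
    have h4 : 3.99 / p ^ 2 ≤ 4 * (((0 : ℕ) : ℝ) + 1) / (p + 4 * ((0 : ℕ) : ℝ) + 7) ^ 2 := by
      push_cast
      rw [div_le_div_iff₀ (by positivity) (by positivity)]
      nlinarith
    have h5 : (1.99 : ℝ) * ((0 : ℕ) : ℝ) / p ^ 2 = 0 := by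
      push_cast
      ring
    rw [h5]
    linarith
  | succ m ih =>
    have hm' : (m : ℝ) + 1 ≤ 3 * n + 1 := by
      push_cast at hm
      exact hm
    have h3 := ih (by linarith)
    have h4 := (h2s (m + 1) (by omega)).1
    have hm0 : (0 : ℝ) ≤ m := Nat.cast_nonneg m
    have h5 : 200 * (((m + 1 : ℕ) : ℝ)) ^ 2 / p ^ 3 ≤ 0.01 / p ^ 2 := by
      push_cast
      rw [div_le_div_iff₀ (by positivity) (by positivity)]
      have h6 : ((m : ℝ) + 1) ^ 2 ≤ 16 * n ^ 2 := by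
        have : (m : ℝ) + 1 ≤ 4 * n := by linarith
        calc ((m : ℝ) + 1) ^ 2 ≤ (4 * n) ^ 2 := pow_le_pow_left₀ (by positivity) this 2
          _ = 16 * n ^ 2 := by ring
      have h7 : 200 * ((m : ℝ) + 1) ^ 2 ≤ 0.01 * p := by linarith
      calc 200 * ((m : ℝ) + 1) ^ 2 * p ^ 2 ≤ 0.01 * p * p ^ 2 :=
            mul_le_mul_of_nonneg_right h7 (by positivity)
        _ = 0.01 * p ^ 3 := by ring
    have h6 : 3.99 / p ^ 2 + 1.99 * ((m + 1 : ℕ) : ℝ) / p ^ 2 =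
        3.99 / p ^ 2 + 1.99 * (m : ℝ) / p ^ 2 + (2 / p ^ 2 - 0.01 / p ^ 2) := by
      push_cast
      ring
    rw [h6]
    linarith

/-- The steps of the second block are short. -/
theorem f2_step (h2 : P_F2) {p n : ℝ} (hn : 1 ≤ n) (hp : 1000000 * n ^ 2 ≤ p)
    (m : ℕ) (hm : (m : ℝ) + 1 ≤ 3 * n + 1) :
    f2 p (m + 1 + 1) - f2 p (m + 1) ≤ 2.01 / p ^ 2 := by
  have hn2 : 1 ≤ n ^ 2 := by nlinarith
  have hp6 : 1000000 ≤ p := by linarith
  have hp1 : 1 ≤ p := by linarith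
  have hp0 : 0 < p := by linarith
  obtain ⟨h20, h2s⟩ := h2 p hp1
  have h4 := (h2s (m + 1) (by omega)).2
  have hm0 : (0 : ℝ) ≤ m := Nat.cast_nonneg m
  have h5 : 200 * (((m + 1 : ℕ) : ℝ)) ^ 2 / p ^ 3 ≤ 0.01 / p ^ 2 := by
    push_cast
    rw [div_le_div_iff₀ (by positivity) (by positivity)]
    have h6 : ((m : ℝ) + 1) ^ 2 ≤ 16 * n ^ 2 := by
      have : (m : ℝ) + 1 ≤ 4 * n := by linarith
      calc ((m : ℝ) + 1) ^ 2 ≤ (4 * n) ^ 2 := pow_le_pow_left₀ (by positivity) this 2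
        _ = 16 * n ^ 2 := by ring
    have h7 : 200 * ((m : ℝ) + 1) ^ 2 ≤ 0.01 * p := by linarith
    calc 200 * ((m : ℝ) + 1) ^ 2 * p ^ 2 ≤ 0.01 * p * p ^ 2 :=
          mul_le_mul_of_nonneg_right h7 (by positivity)
      _ = 0.01 * p ^ 3 := by ring
  have h6 : 2.01 / p ^ 2 = 2 / p ^ 2 + 0.01 / p ^ 2 := by ring
  rw [h6]
  linarith

end BL12h

open BL12h in
theorem T_BL12 (hS : P_STG) (h1 : P_F1) (h2 : P_F2) : P_BL12 := by
  intro δ r a E N C hmod hra hda hy hAy hNa hN har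
  have hδ := C.hδ
  have hP := C.hP
  have hpr := C.pr
  -- real variables
  obtain ⟨A, hA⟩ : ∃ A : ℝ, A = (a : ℝ) := ⟨_, rfl⟩
  obtain ⟨R, hR⟩ : ∃ R : ℝ, R = (r : ℝ) := ⟨_, rfl⟩
  obtain ⟨n, hn⟩ : ∃ n : ℝ, n = (N : ℝ) := ⟨_, rfl⟩
  have hn1 : 1 ≤ n := by rw [hn]; exact_mod_cast hN
  have hn2 : n ≤ n ^ 2 := by nlinarith
  have hAn : 1000000 * n ^ 2 ≤ A := by rw [hn, hA]; exact_mod_cast hNa
  have hA6 : 1000000 ≤ A := by linarith
  have hAR : A + 16 * n + 100 ≤ R := by rw [hA, hn, hR]; exact_mod_cast har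
  have hA0 : 0 < A := by linarith
  have hR0 : 0 < R := by linarith
  rw [← hR, ← hA] at hra
  rw [← hA] at hda hy hAy
  rw [← hn] at hAy
  have hRA2 : R ^ 2 ≤ 1.005 * A ^ 2 := by
    by_contra hcon
    push Not at hcon
    have h3 : (1.005 * A ^ 2) ^ 2 ≤ (R ^ 2) ^ 2 := pow_le_pow_left₀ (by positivity) hcon.le 2
    have h4 : 0 < A ^ 4 := by positivity
    have e1 : (1.005 * A ^ 2) ^ 2 = 1.010025 * A ^ 4 := by ring
    have e2 : (R ^ 2) ^ 2 = R ^ 4 := by ring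
    rw [e1, e2] at h3
    linarith
  have hRA : R ≤ 1.01 * A := by
    by_contra hcon
    push Not at hcon
    have h3 : (1.01 * A) ^ 2 ≤ R ^ 2 := pow_le_pow_left₀ (by positivity) hcon.le 2
    have h4 : 0 < A ^ 2 := by positivity
    nlinarith
  -- the start
  obtain ⟨Ts, hTs⟩ : ∃ Ts : ℝ, Ts = bet a - gam r - Real.log (δ ^ 2) / 2 := ⟨_, rfl⟩
  have hstart : RS δ r a Ts := ⟨δ ^ 2, ReachR.base, by rw [hTs]; ring⟩
  have hTs' : Ts = (gam a - gam r) + (Real.log A - Real.log (δ ^ 2)) / 2 := by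
    rw [hTs, hA]
    unfold gam
    ring
  obtain ⟨hl1, hl2⟩ := startT hda hy hAy hn1 hAn
  have hgam : 0 ≤ gam a - gam r ∧ gam a - gam r ≤ 1 / (4 * (A - 2) ^ 2) := by
    obtain ⟨m, hm⟩ : ∃ m, r = a + 4 * m := ⟨(r - a) / 4, by omega⟩
    have h3 := gam_le (p := a) (by omega) m
    rw [← hm] at h3
    refine ⟨h3.1, h3.2.trans ?_⟩
    rw [← hA]
    have : 0 ≤ 1 / (4 * (A + 4 * (m : ℝ) - 2) ^ 2) := by positivity
    linarith
  have hTs0 : 0 ≤ Ts := by rw [hTs']; linarith [hgam.1]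
  have hTsU : Ts ≤ (0.51 * n ^ 2 + 0.26) / A ^ 2 := by
    rw [hTs']
    linarith [hgam.2]
  have hsmallR : ∀ x : ℝ, x ≤ 4 * n ^ 2 → x / A ^ 2 ≤ 1 / (32 * R) := by
    intro x hx
    rw [div_le_div_iff₀ (by positivity) (by positivity)]
    have h3 : x * (32 * R) ≤ 4 * n ^ 2 * (32 * R) := mul_le_mul_of_nonneg_right hx (by positivity)
    have h4 : 4 * n ^ 2 * (32 * R) ≤ 4 * n ^ 2 * (32 * (1.01 * A)) :=
      mul_le_mul_of_nonneg_left (by linarith) (by positivity)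
    have h5 : 4 * n ^ 2 * (32 * (1.01 * A)) = (129.28 * n ^ 2) * A := by ring
    have h6 : (129.28 * n ^ 2) * A ≤ A * A := mul_le_mul_of_nonneg_right (by linarith) hA0.le
    nlinarith
  have hTsR : |Ts| ≤ 1 / (32 * (r : ℝ)) := by
    rw [abs_of_nonneg hTs0, ← hR]
    exact hTsU.trans (hsmallR _ (by linarith))
  -- the first block
  obtain ⟨h10, h1s⟩ := h1 A (by linarith)
  obtain ⟨i, hiN, hi1, hi2⟩ := greedy_le (f := f1 A) (q := 4 * n / A ^ 2) (L := Ts)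
    (by positivity) N (by rw [h10]; exact hTs0)
    (by
      have h3 := f1_lower h1 (A := A) (n := n) (by linarith) (by linarith) N (by rw [hn])
      rw [← hn] at h3
      exact hTsU.trans ((start_le hn1 hAn).trans h3))
    (by
      intro j hj
      refine (h1s j).2.trans ?_
      refine div_le_div_of_nonneg_right ?_ (by positivity)
      have : ((j : ℝ)) + 1 ≤ n := by
        rw [hn]
        exact_mod_cast hj
      linarith)
  have hblock1 := (hS δ r a hδ hP C.sm a le_rfl hpr hmod Ts hTsR hstart).1 i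
  rw [← hA] at hblock1
  obtain ⟨p, hp⟩ : ∃ p : ℕ, p = a + 4 * (i + 1) := ⟨_, rfl⟩
  obtain ⟨T1, hT1⟩ : ∃ T1 : ℝ, T1 = Ts - f1 A i := ⟨_, rfl⟩
  rw [← hp, ← hT1] at hblock1
  have hT10 : 0 ≤ T1 := by rw [hT1]; linarith
  have hT1U : T1 ≤ 4 * n / A ^ 2 := by rw [hT1]; linarith
  have hT1R : |T1| ≤ 1 / (32 * (r : ℝ)) := by
    rw [abs_of_nonneg hT10, ← hR]
    exact hT1U.trans (hsmallR _ (by linarith))
  -- the second block
  obtain ⟨x, hx⟩ : ∃ x : ℝ, x = (p : ℝ) := ⟨_, rfl⟩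
  have hiR : (i : ℝ) ≤ n := by rw [hn]; exact_mod_cast hiN
  have hi0 : (0 : ℝ) ≤ i := Nat.cast_nonneg i
  have hxe : x = A + 4 * (i + 1) := by
    rw [hx, hp, hA]
    push_cast
    ring
  have hAx : A ≤ x := by rw [hxe]; linarith
  have hxA : x ≤ A + 4 * n + 4 := by rw [hxe]; linarith
  have hxR : x ≤ R := by linarith
  have hx0 : 0 < x := by linarith
  have hxn : 1000000 * n ^ 2 ≤ x := by linarith
  have hcmp : (A + 4 * n + 4) ^ 2 ≤ 1.001 * A ^ 2 := by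
    have h3 : A + 4 * n + 4 ≤ 1.0001 * A := by linarith
    calc (A + 4 * n + 4) ^ 2 ≤ (1.0001 * A) ^ 2 := pow_le_pow_left₀ (by positivity) h3 2
      _ = 1.00020001 * A ^ 2 := by ring
      _ ≤ 1.001 * A ^ 2 := mul_le_mul_of_nonneg_right (by norm_num) (by positivity)
  have hxA2 : x ^ 2 ≤ 1.001 * A ^ 2 := (pow_le_pow_left₀ hx0.le hxA 2).trans hcmp
  have hAx2 : A ^ 2 ≤ x ^ 2 := pow_le_pow_left₀ hA0.le hAx 2
  have hxR2 : x ^ 2 ≤ R ^ 2 := pow_le_pow_left₀ hx0.le hxR 2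
  obtain ⟨h20, h2s⟩ := h2 x (by linarith)
  obtain ⟨h30, h3s⟩ := h1 x (by linarith)
  obtain ⟨k, hkM, hk1, hk2⟩ := greedy_ge (f := fun j : ℕ => f2 x (j + 1)) (q := 2.1 / R ^ 2)
    (L := T1 + 4.7 / R ^ 2) (by positivity) (3 * N + 1)
    (by
      show f2 x (0 + 1) ≤ _
      have e1 : f2 x (0 + 1) = f1 x (0 + 1) := h20
      rw [e1]
      have h3 := (h3s 0).2
      rw [h30] at h3
      have h4 : 4 * (((0 : ℕ) : ℝ) + 1) / x ^ 2 ≤ 4.7 / R ^ 2 := by
        push_cast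
        rw [div_le_div_iff₀ (by positivity) (by positivity)]
        nlinarith
      linarith)
    (by
      show _ ≤ f2 x (3 * N + 1 + 1)
      have h3 := f2_lower h1 h2 (p := x) (n := n) hn1 hxn (3 * N + 1) (by
        rw [hn]
        push_cast
        linarith)
      refine le_trans ?_ h3
      have h4 : T1 ≤ 4.004 * n / x ^ 2 := by
        refine hT1U.trans ?_
        rw [div_le_div_iff₀ (by positivity) (by positivity)]
        calc 4 * n * x ^ 2 ≤ 4 * n * (1.001 * A ^ 2) :=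
              mul_le_mul_of_nonneg_left hxA2 (by positivity)
          _ = 4.004 * n * A ^ 2 := by ring
      have h5 : 4.7 / R ^ 2 ≤ 4.7 / x ^ 2 :=
        div_le_div_of_nonneg_left (by norm_num) (by positivity) hxR2
      have h6 : 3.99 / x ^ 2 + 1.99 * ((3 * N + 1 : ℕ) : ℝ) / x ^ 2 =
          (5.98 + 5.97 * n) / x ^ 2 := by
        rw [hn]
        push_cast
        ring
      have h7 : 4.004 * n / x ^ 2 + 4.7 / x ^ 2 = (4.7 + 4.004 * n) / x ^ 2 := by ring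
      have h8 : (4.7 + 4.004 * n) / x ^ 2 ≤ (5.98 + 5.97 * n) / x ^ 2 :=
        div_le_div_of_nonneg_right (by linarith) (by positivity)
      rw [h6]
      linarith)
    (by
      intro j hj
      show f2 x (j + 1 + 1) - f2 x (j + 1) ≤ _
      have h3 := f2_step h2 (p := x) (n := n) hn1 hxn j (by
        rw [hn]
        exact_mod_cast hj)
      refine h3.trans ?_
      rw [div_le_div_iff₀ (by positivity) (by positivity)]
      nlinarith)
  have hk1' : T1 + 4.7 / R ^ 2 ≤ f2 x (k + 1) := hk1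
  have hk2' : f2 x (k + 1) ≤ T1 + 4.7 / R ^ 2 + 2.1 / R ^ 2 := hk2
  have hblock2 := (hS δ r a hδ hP C.sm p (by omega) (by omega) (by omega) T1 hT1R hblock1).2
    (k + 1) (by omega) (by
      have h3 : k + 1 ≤ 5 * N := by omega
      have h4 : (k + 1) ^ 2 ≤ (5 * N) ^ 2 := Nat.pow_le_pow_left h3 2
      have h5 : (5 * N) ^ 2 = 25 * N ^ 2 := by ring
      have h6 : 0 ≤ N ^ 2 := Nat.zero_le _
      omega)
  rw [← hx] at hblock2
  refine ⟨p + 4 * (k + 1 + 1), T1 - f2 x (k + 1), by omega, by omega, by omega, hblock2, ?_, ?_⟩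
  · rw [← hR]
    have h3 : 6.9 / R ^ 2 = 4.7 / R ^ 2 + 2.1 / R ^ 2 + 0.1 / R ^ 2 := by ring
    have h4 : 0 ≤ 0.1 / R ^ 2 := by positivity
    rw [h3]
    linarith
  · rw [← hR]
    linarith

end Pool.Agent.H932R6
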